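import Mathlib

/-!
# Project HAP (MP_70146a_co, harmonic alternating paths), part A: the lower bound
`n / ((log n)(log log n))^(3/4)`.

Base definitions.  Positions are `q : Fin (N+1)`, labels `b q`, chosen heights `r q`, weights
`W q = r q + b q`.

IDEA.  `load b r s v = ∑ q, gau s (v - r q - b q)` is the number of weights near `v` at resolution
`√s` (per unit length).  `Psi` = energy of the slopes of `r` (should be close to one) + a convex
functional `FF` of the load, which vanishes for load at most `M` and is about `load - 2M` for large load.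
For `s = ((N+1)/M)^2` and `r q = q` we have `Psi = 0`.  When `s` decreases to `s - h` we replace `r` by
`r + √h ξ`, `ξ` a random vector with `E ξ_q = 0`, `E ξ_q^2 = 1`: in mean the load does not change, and
`Psi` grows by `h * E Qf(ξ)`, with `Qf` the quadratic form below.  By conic duality (Dual) the best such
`ξ` costs the maximum of `∑ d_q` over all diagonal forms `d` below `Qf`, and this maximum is at most
`C (K+1) (N+1) M^(-4/3) / s` (DSum).  Integrating from `s = ((N+1)/M)^2` down to `1` costs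
`C (K+1) (N+1) M^(-4/3) log N`, which is small for `M = (C (K+1) log N)^(3/4)`.
-/

namespace Pool.Agent.Lib.HAP

open Finset

noncomputable section

/-- Gaussian density of variance `t`. -/
def gau (t x : ℝ) : ℝ := Real.exp (-x ^ 2 / (2 * t)) / Real.sqrt (2 * Real.pi * t)

/-- First derivative of `gau t` in `x`. -/
def gau1 (t x : ℝ) : ℝ := -(x / t) * gau t x

/-- Second derivative of `gau t` in `x`. -/
def gau2 (t x : ℝ) : ℝ := (x ^ 2 / t ^ 2 - 1 / t) * gau t x

/-- Tent function on `[M, 2M]` with maximum `2/M` and integral one. -/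
def tent (M z : ℝ) : ℝ := 4 / M ^ 2 * max 0 (min (z - M) (2 * M - z))

/-- Integral of the tent. -/
def Fp (M x : ℝ) : ℝ := ∫ z in (0 : ℝ)..x, tent M z

/-- The convex function with second derivative `tent`. -/
def FF (M x : ℝ) : ℝ := ∫ z in (0 : ℝ)..x, Fp M z

/-- The load at `v` at resolution `√s`. -/
def load {N : ℕ} (b r : Fin (N + 1) → ℝ) (s v : ℝ) : ℝ := ∑ q, gau s (v - r q - b q)

/-- Minus the derivative of the load in direction `x`. -/
def grad1 {N : ℕ} (b r : Fin (N + 1) → ℝ) (s v : ℝ) (x : Fin (N + 1) → ℝ) : ℝ :=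
  ∑ q, x q * gau1 s (v - r q - b q)

/-- Energy of the slopes. -/
def slopeE {N : ℕ} (r : Fin (N + 1) → ℝ) : ℝ := ∑ i : Fin N, (r i.succ - r i.castSucc - 1) ^ 2

/-- Dirichlet energy. -/
def dirE {N : ℕ} (x : Fin (N + 1) → ℝ) : ℝ := ∑ i : Fin N, (x i.succ - x i.castSucc) ^ 2

/-- The functional. -/
def Psi {N : ℕ} (A e M : ℝ) (V : Finset ℤ) (b r : Fin (N + 1) → ℝ) (s : ℝ) : ℝ :=
  A * slopeE r + e * (r 0) ^ 2 + ∑ v ∈ V, FF M (load b r s v)

/-- The quadratic form: cost per unit of time of the random move `x`. -/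
def Qf {N : ℕ} (A e M : ℝ) (V : Finset ℤ) (b r : Fin (N + 1) → ℝ) (s : ℝ)
    (x : Fin (N + 1) → ℝ) : ℝ :=
  A * dirE x + e * (x 0) ^ 2 + 1 / 2 * ∑ v ∈ V, tent M (load b r s v) * (grad1 b r s v x) ^ 2

/-- The form used for the intervals: Dirichlet energy minus a diagonal form. -/
def Pf {N : ℕ} (A e τ : ℝ) (d ψ : Fin (N + 1) → ℝ) : ℝ :=
  A * dirE ψ + e * (ψ 0) ^ 2 - ∑ q, (d q - τ) * (ψ q) ^ 2

/-- Supports of the functions `ψ i` have pairwise distance at least two. -/
def Sep {N m : ℕ} (ψ : Fin m → Fin (N + 1) → ℝ) : Prop :=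
  ∀ i j, i ≠ j → ∀ p q : Fin (N + 1), ψ i p ≠ 0 → ψ j q ≠ 0 →
    p.val + 2 ≤ q.val ∨ q.val + 2 ≤ p.val

end

end Pool.Agent.Lib.HAP
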