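import Mathlib
import Pool.Agent.Lib.HAP.Defs

/-!
MODULE Lat: sums over integer points.

PROOF.  For `k : ℕ` the number of integers `v` with `k √s ≤ |v - W| < (k+1) √s` is at most
`2 (√s + 1) ≤ 4 √s` (an interval of length `ℓ` contains at most `ℓ + 1` integers).  So
`∑ exp(-(v-W)^2/(4s)) ≤ 4 √s ∑_k exp(-k^2/4) ≤ 20 √s`  (`exp(-k^2/4) ≤ exp(-k/4)` gives
`∑ ≤ 1/(1 - e^(-1/4)) < 4.6`), and
`∑ (v-W)^2 exp(-(v-W)^2/s) ≤ 4 √s s ∑_k (k+1)^2 exp(-k^2) ≤ 4 s √s * 6`, so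
`∑ (gau1 s (v-W))^2 = ∑ (v-W)^2/s^2 * exp(-(v-W)^2/s)/(2 π s) ≤ 24 s √s/(2 π s^3) ≤ 4/(s √s)`.
(Finite sums: only finitely many `k` occur; group `V` by `k = ⌊|v - W|/√s⌋₊`,
`Finset.sum_fiberwise` and a bound of the finite sums over `k` by the series, or by explicit bounds
`(k+1)^2 exp(-k^2) ≤ 6 * 2^(-k-1)` (total 6, `24/(2π) < 4`) and `exp(-k^2/4) ≤ 4 * 2^(-k-1)` (total 4,
`16 √s`).)

`sep_sum`: if the points `v ∈ T` (reals) have pairwise distance at least `√s` then for every real `W`,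
`∑ v ∈ T, gau s (v - W) ≤ 4 / √s`: for every `k` at most two points have `k √s ≤ |v - W| < (k+1) √s`
(one on each side), so the sum is at most `2 ∑_k exp(-k^2/2)/√(2 π s) ≤ 2 * 3 * 0.4/√s`
(`exp(-k^2/2) ≤ 3 * 2^(-k-1)`).
-/

namespace Pool.Agent.Lib.HAP

open Finset

private theorem lat_bins {ι : Type*} (V : Finset ι) (κ : ι → ℕ) (f : ι → ℝ) (g : ℕ → ℝ) {c G : ℝ}
    (hg : ∀ k, 0 ≤ g k) (hG : ∀ K, ∑ k ∈ range K, g k ≤ G) (hc : 0 ≤ c)
    (hcard : ∀ k, ((V.filter (fun v => κ v = k)).card : ℝ) ≤ c)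
    (hf : ∀ v ∈ V, f v ≤ g (κ v)) : ∑ v ∈ V, f v ≤ c * G := by
  have h1 : ∑ v ∈ V, g (κ v) = ∑ k ∈ range (V.sup κ + 1), ∑ v ∈ V with κ v = k, g (κ v) := by
    rw [Finset.sum_fiberwise_of_maps_to]
    intro v hv
    rw [mem_range]
    exact Nat.lt_succ_of_le (Finset.le_sup hv)
  calc ∑ v ∈ V, f v ≤ ∑ v ∈ V, g (κ v) := Finset.sum_le_sum hf
    _ = ∑ k ∈ range (V.sup κ + 1), ∑ v ∈ V with κ v = k, g (κ v) := h1
    _ ≤ ∑ k ∈ range (V.sup κ + 1), c * g k := by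
        refine Finset.sum_le_sum fun k _ => ?_
        have h2 : ∑ v ∈ V with κ v = k, g (κ v) = ∑ v ∈ V with κ v = k, g k := by
          refine Finset.sum_congr rfl fun v hv => ?_
          rw [(mem_filter.1 hv).2]
        rw [h2, Finset.sum_const, nsmul_eq_mul]
        exact mul_le_mul_of_nonneg_right (hcard k) (hg k)
    _ = c * ∑ k ∈ range (V.sup κ + 1), g k := by rw [Finset.mul_sum]
    _ ≤ c * G := mul_le_mul_of_nonneg_left (hG _) hc

private theorem lat_geom (K : ℕ) : ∑ k ∈ range K, ((1 : ℝ) / 2) ^ (k + 1) ≤ 1 := by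
  have h : ∀ K : ℕ, ∑ k ∈ range K, ((1 : ℝ) / 2) ^ (k + 1) = 1 - (1 / 2) ^ K := by
    intro K
    induction K with
    | zero => simp
    | succ K ih => rw [Finset.sum_range_succ, ih]; ring
  rw [h]
  have : (0 : ℝ) ≤ (1 / 2) ^ K := by positivity
  linarith

private theorem lat_exp4 (k : ℕ) : Real.exp (-(k : ℝ) ^ 2 / 4) ≤ 4 * (1 / 2) ^ (k + 1) := by
  have hL1 : Real.log 2 ≤ 1 := by
    have := Real.log_le_sub_one_of_pos (show (0 : ℝ) < 2 by norm_num)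
    linarith
  have hL0 : 0 ≤ Real.log 2 := Real.log_nonneg (by norm_num)
  have h1 : (4 : ℝ) * (1 / 2) ^ (k + 1) = Real.exp ((1 - (k : ℝ)) * Real.log 2) := by
    rw [sub_mul, one_mul, Real.exp_sub, Real.exp_log (by norm_num), mul_comm (k : ℝ),
      Real.exp_mul, Real.exp_log (by norm_num), Real.rpow_natCast, pow_succ, one_div, inv_pow]
    field_simp
    norm_num
  rw [h1]
  apply Real.exp_le_exp.2
  nlinarith [sq_nonneg ((k : ℝ) / 2 - Real.log 2)]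

private theorem lat_G4 (K : ℕ) : ∑ k ∈ range K, (4 : ℝ) * (1 / 2) ^ (k + 1) ≤ 4 := by
  rw [← Finset.mul_sum]
  have := lat_geom K
  linarith

private theorem lat_exp1 (k : ℕ) :
    ((k : ℝ) + 1) ^ 2 * Real.exp (-(k : ℝ) ^ 2) ≤ 6 * (1 / 2) ^ (k + 1) := by
  have he1 : (8 : ℝ) / 3 ≤ Real.exp 1 := by
    have := Real.exp_one_gt_d9
    linarith
  rcases k with _ | k
  · norm_num
  · induction k with
    | zero =>
      have h : Real.exp (-((0 + 1 : ℕ) : ℝ) ^ 2) ≤ 3 / 8 := by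
        norm_num
        rw [Real.exp_neg, show (3 : ℝ) / 8 = (8 / 3)⁻¹ by norm_num]
        exact inv_anti₀ (by norm_num) he1
      norm_num at h ⊢
      linarith
    | succ k ih =>
      have h3 : Real.exp (-(((k + 1 : ℕ) : ℝ) * 2 + 1)) ≤ 1 / 8 := by
        have h4 : (8 : ℝ) ≤ Real.exp 3 := by
          have h5 : Real.exp 3 = Real.exp 1 ^ 3 := by
            rw [← Real.exp_nat_mul]; norm_num
          rw [h5]
          have h6 : (2 : ℝ) ≤ Real.exp 1 := by linarith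
          calc (8 : ℝ) = 2 ^ 3 := by norm_num
            _ ≤ Real.exp 1 ^ 3 := pow_le_pow_left₀ (by norm_num) h6 3
        have h7 : Real.exp 3 ≤ Real.exp (((k + 1 : ℕ) : ℝ) * 2 + 1) := by
          apply Real.exp_le_exp.2
          push_cast
          have : (0 : ℝ) ≤ k := Nat.cast_nonneg k
          linarith
        rw [Real.exp_neg, one_div]
        exact inv_anti₀ (by norm_num) (h4.trans h7)
      have h8 : Real.exp (-((k + 1 + 1 : ℕ) : ℝ) ^ 2) =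
          Real.exp (-((k + 1 : ℕ) : ℝ) ^ 2) * Real.exp (-(((k + 1 : ℕ) : ℝ) * 2 + 1)) := by
        rw [← Real.exp_add]
        congr 1
        push_cast
        ring
      have hk : (0 : ℝ) ≤ k := Nat.cast_nonneg k
      have hp : 0 < Real.exp (-((k + 1 : ℕ) : ℝ) ^ 2) := Real.exp_pos _
      have hq : (0 : ℝ) < (1 / 2) ^ (k + 1 + 1) := by positivity
      have h9 : (((k + 1 + 1 : ℕ) : ℝ) + 1) ^ 2 ≤ 9 / 4 * (((k + 1 : ℕ) : ℝ) + 1) ^ 2 := by
        push_cast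
        nlinarith
      rw [h8, pow_succ ((1 : ℝ) / 2) (k + 1 + 1)]
      calc (((k + 1 + 1 : ℕ) : ℝ) + 1) ^ 2 *
            (Real.exp (-((k + 1 : ℕ) : ℝ) ^ 2) * Real.exp (-(((k + 1 : ℕ) : ℝ) * 2 + 1)))
          ≤ (9 / 4 * (((k + 1 : ℕ) : ℝ) + 1) ^ 2) *
            (Real.exp (-((k + 1 : ℕ) : ℝ) ^ 2) * (1 / 8)) := by
            apply mul_le_mul h9 _ (by positivity) (by positivity)
            exact mul_le_mul_of_nonneg_left h3 hp.le
        _ = 9 / 32 * ((((k + 1 : ℕ) : ℝ) + 1) ^ 2 * Real.exp (-((k + 1 : ℕ) : ℝ) ^ 2)) := by ring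
        _ ≤ 9 / 32 * (6 * (1 / 2) ^ (k + 1 + 1)) := by
            apply mul_le_mul_of_nonneg_left ih (by norm_num)
        _ ≤ 6 * ((1 / 2) ^ (k + 1 + 1) * (1 / 2)) := by nlinarith

private theorem lat_G6 (K : ℕ) : ∑ k ∈ range K, (6 : ℝ) * (1 / 2) ^ (k + 1) ≤ 6 := by
  rw [← Finset.mul_sum]
  have := lat_geom K
  linarith

private theorem lat_icc (x y : ℝ) (hxy : x ≤ y) :
    ((Finset.Icc ⌈x⌉ ⌊y⌋).card : ℝ) ≤ y - x + 1 := by
  rw [Int.card_Icc]
  have h1 : ((⌊y⌋ + 1 - ⌈x⌉ : ℤ) : ℝ) ≤ y - x + 1 := by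
    push_cast
    have := Int.floor_le y
    have := Int.le_ceil x
    linarith
  rcases le_total 0 (⌊y⌋ + 1 - ⌈x⌉) with h | h
  · have h2 : (((⌊y⌋ + 1 - ⌈x⌉).toNat : ℤ) : ℝ) = ((⌊y⌋ + 1 - ⌈x⌉ : ℤ) : ℝ) := by
      rw [Int.toNat_of_nonneg h]
    rw [← h2] at h1
    exact_mod_cast h1
  · rw [Int.toNat_of_nonpos h]
    push_cast
    linarith

private theorem lat_bin {s : ℝ} (hs : 0 < s) (x : ℝ) :
    (⌊|x| / Real.sqrt s⌋₊ : ℝ) * Real.sqrt s ≤ |x| ∧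
      |x| < ((⌊|x| / Real.sqrt s⌋₊ : ℝ) + 1) * Real.sqrt s := by
  have h : 0 < Real.sqrt s := Real.sqrt_pos.2 hs
  constructor
  · rw [← le_div_iff₀ h]
    exact Nat.floor_le (by positivity)
  · rw [← div_lt_iff₀ h]
    exact Nat.lt_floor_add_one _

private theorem lat_card (V : Finset ℤ) (W : ℝ) {s : ℝ} (hs : 1 ≤ s) (k : ℕ) :
    ((V.filter (fun v : ℤ => ⌊|(v : ℝ) - W| / Real.sqrt s⌋₊ = k)).card : ℝ) ≤
      4 * Real.sqrt s := by
  have h1 : 1 ≤ Real.sqrt s := by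
    rw [← Real.sqrt_one]
    exact Real.sqrt_le_sqrt hs
  set S := Real.sqrt s with hS
  have hsub : V.filter (fun v : ℤ => ⌊|(v : ℝ) - W| / S⌋₊ = k) ⊆
      Finset.Icc ⌈W + k * S⌉ ⌊W + (k + 1) * S⌋ ∪ Finset.Icc ⌈W - (k + 1) * S⌉ ⌊W - k * S⌋ := by
    intro v hv
    rw [mem_filter] at hv
    obtain ⟨h3, h4⟩ := lat_bin (show 0 < s by linarith) ((v : ℝ) - W)
    rw [← hS, hv.2] at h3 h4
    rw [mem_union, mem_Icc, mem_Icc, Int.ceil_le, Int.le_floor, Int.ceil_le, Int.le_floor]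
    rcases le_total 0 ((v : ℝ) - W) with h | h
    · left
      rw [abs_of_nonneg h] at h3 h4
      constructor <;> linarith
    · right
      rw [abs_of_nonpos h] at h3 h4
      constructor <;> linarith
  have h5 : ((V.filter (fun v : ℤ => ⌊|(v : ℝ) - W| / S⌋₊ = k)).card : ℝ) ≤
      ((Finset.Icc ⌈W + k * S⌉ ⌊W + (k + 1) * S⌋).card : ℝ) +
        ((Finset.Icc ⌈W - (k + 1) * S⌉ ⌊W - k * S⌋).card : ℝ) := by
    exact_mod_cast (card_le_card hsub).trans (card_union_le _ _)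
  have h6 := lat_icc (W + k * S) (W + (k + 1) * S) (by nlinarith)
  have h7 := lat_icc (W - (k + 1) * S) (W - k * S) (by nlinarith)
  nlinarith

private theorem lat_sq {s : ℝ} (hs : 0 < s) (x : ℝ) :
    (⌊|x| / Real.sqrt s⌋₊ : ℝ) ^ 2 ≤ x ^ 2 / s ∧
      x ^ 2 / s ≤ ((⌊|x| / Real.sqrt s⌋₊ : ℝ) + 1) ^ 2 := by
  obtain ⟨h1, h2⟩ := lat_bin hs x
  have h3 : Real.sqrt s ^ 2 = s := Real.sq_sqrt hs.le
  have h4 : 0 ≤ Real.sqrt s := Real.sqrt_nonneg s
  constructor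
  · rw [le_div_iff₀ hs]
    have h5 := pow_le_pow_left₀ (by positivity) h1 2
    rwa [mul_pow, h3, sq_abs] at h5
  · rw [div_le_iff₀ hs]
    have h5 := pow_le_pow_left₀ (abs_nonneg x) h2.le 2
    rwa [mul_pow, h3, sq_abs] at h5

theorem sum_exp_le (V : Finset ℤ) (W : ℝ) {s : ℝ} (hs : 1 ≤ s) :
    ∑ v ∈ V, Real.exp (-((v : ℝ) - W) ^ 2 / (4 * s)) ≤ 20 * Real.sqrt s := by
  have hs0 : 0 < s := by linarith
  have h := lat_bins V (fun v : ℤ => ⌊|(v : ℝ) - W| / Real.sqrt s⌋₊)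
    (fun v : ℤ => Real.exp (-((v : ℝ) - W) ^ 2 / (4 * s))) (fun k => 4 * (1 / 2) ^ (k + 1))
    (c := 4 * Real.sqrt s) (G := 4) (fun k => by positivity) lat_G4 (by positivity)
    (fun k => lat_card V W hs k) (fun v _ => by
      refine le_trans ?_ (lat_exp4 _)
      apply Real.exp_le_exp.2
      have h1 := (lat_sq hs0 ((v : ℝ) - W)).1
      have h2 : ((v : ℝ) - W) ^ 2 / (4 * s) = ((v : ℝ) - W) ^ 2 / s / 4 := by
        rw [div_div, mul_comm s 4]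
      rw [neg_div, neg_div, h2]
      linarith)
  have h2 : 0 ≤ Real.sqrt s := Real.sqrt_nonneg s
  refine h.trans ?_
  linarith

theorem sum_gau1_sq_le (V : Finset ℤ) (W : ℝ) {s : ℝ} (hs : 1 ≤ s) :
    ∑ v ∈ V, (gau1 s ((v : ℝ) - W)) ^ 2 ≤ 4 / (s * Real.sqrt s) := by
  have hs0 : 0 < s := by linarith
  have hq : 0 < Real.sqrt s := Real.sqrt_pos.2 hs0
  have hq2 : Real.sqrt s ^ 2 = s := Real.sq_sqrt hs0.le
  have hpi : 3 < Real.pi := Real.pi_gt_three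
  have hg : ∀ x : ℝ, (gau1 s x) ^ 2 = (x ^ 2 / s) * Real.exp (-(x ^ 2 / s)) *
      (1 / (2 * Real.pi * s ^ 2)) := by
    intro x
    have h1 : Real.exp (-x ^ 2 / (2 * s)) ^ 2 = Real.exp (-(x ^ 2 / s)) := by
      rw [← Real.exp_nat_mul]
      congr 1
      push_cast
      field_simp
    have h2 : Real.sqrt (2 * Real.pi * s) ^ 2 = 2 * Real.pi * s :=
      Real.sq_sqrt (by positivity)
    rw [gau1, gau, mul_pow, div_pow (Real.exp _), h1, h2]
    field_simp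
  have h := lat_bins V (fun v : ℤ => ⌊|(v : ℝ) - W| / Real.sqrt s⌋₊)
    (fun v : ℤ => (gau1 s ((v : ℝ) - W)) ^ 2)
    (fun k => 6 * (1 / 2) ^ (k + 1) * (1 / (2 * Real.pi * s ^ 2)))
    (c := 4 * Real.sqrt s) (G := 6 * (1 / (2 * Real.pi * s ^ 2))) (fun k => by positivity)
    (fun K => by
      rw [← Finset.sum_mul]
      exact mul_le_mul_of_nonneg_right (lat_G6 K) (by positivity)) (by positivity)
    (fun k => lat_card V W hs k) (fun v _ => by
      rw [hg]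
      refine mul_le_mul_of_nonneg_right ?_ (by positivity)
      refine le_trans ?_ (lat_exp1 _)
      obtain ⟨h1, h2⟩ := lat_sq hs0 ((v : ℝ) - W)
      apply mul_le_mul h2 _ (Real.exp_pos _).le (by positivity)
      apply Real.exp_le_exp.2
      linarith)
  refine h.trans ?_
  have h3 : 4 * Real.sqrt s * (6 * (1 / (2 * Real.pi * s ^ 2))) =
      12 / Real.pi * (1 / (s * Real.sqrt s)) := by
    have : s ^ 2 = s * Real.sqrt s * Real.sqrt s := by
      rw [mul_assoc, ← sq, hq2, sq]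
    rw [this]
    field_simp
    norm_num
  rw [h3]
  have h4 : 12 / Real.pi ≤ 4 := by
    rw [div_le_iff₀ Real.pi_pos]
    linarith
  calc 12 / Real.pi * (1 / (s * Real.sqrt s)) ≤ 4 * (1 / (s * Real.sqrt s)) :=
        mul_le_mul_of_nonneg_right h4 (by positivity)
    _ = 4 / (s * Real.sqrt s) := by ring

theorem sep_sum (T : Finset ℤ) (W : ℝ) {s : ℝ} (hs : 0 < s)
    (hsep : ∀ v ∈ T, ∀ v' ∈ T, v ≠ v' → Real.sqrt s ≤ |(v : ℝ) - v'|) :
    ∑ v ∈ T, gau s ((v : ℝ) - W) ≤ 4 / Real.sqrt s := by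
  have hq : 0 < Real.sqrt s := Real.sqrt_pos.2 hs
  have hpi : 3 < Real.pi := Real.pi_gt_three
  have hr : 0 < Real.sqrt (2 * Real.pi * s) := Real.sqrt_pos.2 (by positivity)
  have hside : ∀ k : ℕ, ∀ P : ℤ → Prop, ∀ _ : DecidablePred P,
      (∀ v v' : ℤ, P v → P v' → |(v : ℝ) - v'| = |(|(v : ℝ) - W| - |(v' : ℝ) - W|)|) →
      ((T.filter (fun v : ℤ => ⌊|(v : ℝ) - W| / Real.sqrt s⌋₊ = k)).filter P).card ≤ 1 := by
    intro k P _ hP
    rw [card_le_one]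
    intro v hv v' hv'
    rw [mem_filter, mem_filter] at hv hv'
    by_contra hne
    have h1 := hsep v hv.1.1 v' hv'.1.1 hne
    obtain ⟨h3, h4⟩ := lat_bin hs ((v : ℝ) - W)
    obtain ⟨h5, h6⟩ := lat_bin hs ((v' : ℝ) - W)
    rw [hv.1.2] at h3 h4
    rw [hv'.1.2] at h5 h6
    rw [hP v v' hv.2 hv'.2] at h1
    have h7 : |(|(v : ℝ) - W| - |(v' : ℝ) - W|)| < Real.sqrt s := by
      rw [abs_lt]
      constructor <;> linarith
    linarith
  have hcard : ∀ k : ℕ,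
      ((T.filter (fun v : ℤ => ⌊|(v : ℝ) - W| / Real.sqrt s⌋₊ = k)).card : ℝ) ≤ 2 := by
    intro k
    have e := Finset.card_filter_add_card_filter_not
      (s := T.filter (fun v : ℤ => ⌊|(v : ℝ) - W| / Real.sqrt s⌋₊ = k))
      (fun v : ℤ => W ≤ (v : ℝ))
    have e1 := hside k (fun v : ℤ => W ≤ (v : ℝ)) inferInstance (by
      intro v v' h h'
      rw [abs_of_nonneg (sub_nonneg.2 h), abs_of_nonneg (sub_nonneg.2 h')]
      congr 1
      ring)
    have e2 := hside k (fun v : ℤ => ¬ W ≤ (v : ℝ)) inferInstance (by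
      intro v v' h h'
      rw [abs_of_nonpos (by linarith : (v : ℝ) - W ≤ 0),
        abs_of_nonpos (by linarith : (v' : ℝ) - W ≤ 0), ← abs_neg]
      congr 1
      ring)
    have : (T.filter (fun v : ℤ => ⌊|(v : ℝ) - W| / Real.sqrt s⌋₊ = k)).card ≤ 2 := by omega
    exact_mod_cast this
  have h := lat_bins T (fun v : ℤ => ⌊|(v : ℝ) - W| / Real.sqrt s⌋₊)
    (fun v : ℤ => gau s ((v : ℝ) - W))
    (fun k => 4 * (1 / 2) ^ (k + 1) * (1 / Real.sqrt (2 * Real.pi * s)))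
    (c := 2) (G := 4 * (1 / Real.sqrt (2 * Real.pi * s))) (fun k => by positivity)
    (fun K => by
      rw [← Finset.sum_mul]
      exact mul_le_mul_of_nonneg_right (lat_G4 K) (by positivity)) (by norm_num) hcard
    (fun v _ => by
      rw [gau, div_eq_mul_one_div (Real.exp _)]
      refine mul_le_mul_of_nonneg_right ?_ (by positivity)
      refine le_trans ?_ (lat_exp4 _)
      apply Real.exp_le_exp.2
      have h1 := (lat_sq hs ((v : ℝ) - W)).1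
      have h2 : ((v : ℝ) - W) ^ 2 / (2 * s) = ((v : ℝ) - W) ^ 2 / s / 2 := by
        rw [div_div, mul_comm s 2]
      have h3 : (0 : ℝ) ≤ (⌊|(v : ℝ) - W| / Real.sqrt s⌋₊ : ℝ) ^ 2 := sq_nonneg _
      rw [neg_div, neg_div, h2]
      linarith)
  refine h.trans ?_
  have h4 : 2 * Real.sqrt s ≤ Real.sqrt (2 * Real.pi * s) := by
    rw [show 2 * Real.sqrt s = Real.sqrt (4 * s) by
      rw [Real.sqrt_mul (by norm_num), show (4 : ℝ) = 2 ^ 2 by norm_num,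
        Real.sqrt_sq (by norm_num)]]
    apply Real.sqrt_le_sqrt
    nlinarith
  rw [mul_one_div, ← mul_div_assoc, div_le_div_iff₀ hr hq]
  nlinarith

end Pool.Agent.Lib.HAP
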