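import Mathlib
import Pool.Agent.Lib.HAP.Defs

/-!
MODULE TentF: the function `FF` with second derivative `tent`.

PROOF.  `tent` is continuous; fundamental theorem of calculus
(`intervalIntegral.integral_hasDerivAt_right` / `Continuous.deriv_integral`).  `Fp M x = 0` for
`0 ≤ x ≤ M`, `0 ≤ Fp M x` for `x ≥ 0` (also `Fp M x ≤ 1`), and `Fp M x = 1` for `x ≥ 2M`, because
`∫ z in M..2M, tent M z = 1` (two triangles: `∫ z in M..3M/2, 4/M^2 (z-M) = 1/2` and the same for the
other half; the integrals over the rest vanish).  Hence `FF M x ≥ x - 2M` for `x ≥ 0`: for `x ≤ 2M` the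
right side is `≤ 0 ≤ FF`; for `x ≥ 2M` split the integral at `2M`.
-/

namespace Pool.Agent.Lib.HAP

theorem tent_nonneg (M z : ℝ) : 0 ≤ tent M z := by
  unfold tent
  exact mul_nonneg (by positivity) (le_max_left _ _)

theorem tent_le {M : ℝ} (hM : 0 < M) (z : ℝ) : tent M z ≤ 2 / M := by
  unfold tent
  have h : max 0 (min (z - M) (2 * M - z)) ≤ M / 2 := by
    apply max_le (by positivity)
    rcases le_total z (3 * M / 2) with h | h
    · exact (min_le_left _ _).trans (by linarith)
    · exact (min_le_right _ _).trans (by linarith)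
  calc 4 / M ^ 2 * max 0 (min (z - M) (2 * M - z)) ≤ 4 / M ^ 2 * (M / 2) :=
        mul_le_mul_of_nonneg_left h (by positivity)
    _ = 2 / M := by field_simp; norm_num

theorem tent_eq_zero {M z : ℝ} (hM : 0 < M) (h : z ≤ M ∨ 2 * M ≤ z) : tent M z = 0 := by
  unfold tent
  have : max 0 (min (z - M) (2 * M - z)) = 0 := by
    apply max_eq_left
    rcases h with h | h
    · exact (min_le_left _ _).trans (by linarith)
    · exact (min_le_right _ _).trans (by linarith)
  rw [this, mul_zero]

theorem continuous_tent (M : ℝ) : Continuous (tent M) := by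
  unfold tent
  fun_prop

theorem hasDerivAt_Fp (M x : ℝ) : HasDerivAt (Fp M) (tent M x) x := by
  unfold Fp
  exact (continuous_tent M).integral_hasStrictDerivAt 0 x |>.hasDerivAt

private theorem TentF_continuous_Fp (M : ℝ) : Continuous (Fp M) :=
  continuous_iff_continuousAt.2 fun x => (hasDerivAt_Fp M x).continuousAt

theorem hasDerivAt_FF (M x : ℝ) : HasDerivAt (FF M) (Fp M x) x := by
  unfold FF
  exact (TentF_continuous_Fp M).integral_hasStrictDerivAt 0 x |>.hasDerivAt

private theorem TentF_Fp_eq_zero {M x : ℝ} (hM : 0 < M) (h0 : 0 ≤ x) (h : x ≤ M) :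
    Fp M x = 0 := by
  unfold Fp
  rw [intervalIntegral.integral_congr (g := fun _ => (0 : ℝ))]
  · simp
  · intro z hz
    rw [Set.uIcc_of_le h0] at hz
    exact tent_eq_zero hM (Or.inl (hz.2.trans h))

private theorem TentF_Fp_nonneg {M x : ℝ} (h0 : 0 ≤ x) : 0 ≤ Fp M x := by
  unfold Fp
  exact intervalIntegral.integral_nonneg h0 fun z _ => tent_nonneg M z

theorem FF_eq_zero {M x : ℝ} (hM : 0 < M) (h0 : 0 ≤ x) (h : x ≤ M) : FF M x = 0 := by
  unfold FF
  rw [intervalIntegral.integral_congr (g := fun _ => (0 : ℝ))]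
  · simp
  · intro z hz
    rw [Set.uIcc_of_le h0] at hz
    exact TentF_Fp_eq_zero hM hz.1 (hz.2.trans h)

theorem FF_nonneg {M x : ℝ} (hM : 0 < M) (h0 : 0 ≤ x) : 0 ≤ FF M x := by
  unfold FF
  exact intervalIntegral.integral_nonneg h0 fun z hz => TentF_Fp_nonneg hz.1

private theorem TentF_ii (M a b : ℝ) :
    IntervalIntegrable (tent M) MeasureTheory.volume a b :=
  (continuous_tent M).intervalIntegrable a b

private theorem TentF_full {M : ℝ} (hM : 0 < M) : Fp M (2 * M) = 1 := by
  have h1 : ∫ z in (0 : ℝ)..M, tent M z = 0 := TentF_Fp_eq_zero hM hM.le le_rfl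
  have h2 : ∫ z in M..(3 * M / 2), tent M z = 1 / 2 := by
    rw [intervalIntegral.integral_congr (g := fun z => 4 / M ^ 2 * (z - M))]
    · rw [intervalIntegral.integral_const_mul, intervalIntegral.integral_sub
        (by simp) (by simp)]
      simp only [integral_id, intervalIntegral.integral_const, smul_eq_mul]
      field_simp
      ring
    · intro z hz
      rw [Set.uIcc_of_le (by linarith)] at hz
      obtain ⟨ha, hb⟩ := hz
      show 4 / M ^ 2 * max 0 (min (z - M) (2 * M - z)) = 4 / M ^ 2 * (z - M)
      rw [min_eq_left (by linarith), max_eq_right (by linarith)]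
  have h3 : ∫ z in (3 * M / 2)..(2 * M), tent M z = 1 / 2 := by
    rw [intervalIntegral.integral_congr (g := fun z => 4 / M ^ 2 * (2 * M - z))]
    · rw [intervalIntegral.integral_const_mul, intervalIntegral.integral_sub
        (by simp) (by simp)]
      simp only [integral_id, intervalIntegral.integral_const, smul_eq_mul]
      field_simp
      ring
    · intro z hz
      rw [Set.uIcc_of_le (by linarith)] at hz
      obtain ⟨ha, hb⟩ := hz
      show 4 / M ^ 2 * max 0 (min (z - M) (2 * M - z)) = 4 / M ^ 2 * (2 * M - z)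
      rw [min_eq_right (by linarith), max_eq_right (by linarith)]
  unfold Fp
  rw [← intervalIntegral.integral_add_adjacent_intervals (TentF_ii M 0 (3 * M / 2))
      (TentF_ii M _ _), ← intervalIntegral.integral_add_adjacent_intervals (TentF_ii M 0 M)
      (TentF_ii M _ _), h1, h2, h3]
  norm_num

private theorem TentF_Fp_one {M x : ℝ} (hM : 0 < M) (h : 2 * M ≤ x) : Fp M x = 1 := by
  have h1 := TentF_full hM
  unfold Fp at h1 ⊢
  rw [← intervalIntegral.integral_add_adjacent_intervals (TentF_ii M 0 (2 * M))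
      (TentF_ii M _ _), h1]
  have : ∫ z in (2 * M)..x, tent M z = 0 := by
    rw [intervalIntegral.integral_congr (g := fun _ => (0 : ℝ))]
    · simp
    · intro z hz
      rw [Set.uIcc_of_le h] at hz
      exact tent_eq_zero hM (Or.inr hz.1)
  rw [this, add_zero]

theorem le_FF {M x : ℝ} (hM : 0 < M) (h0 : 0 ≤ x) : x - 2 * M ≤ FF M x := by
  rcases le_total x (2 * M) with h | h
  · linarith [FF_nonneg (M := M) hM h0]
  · have hnn : 0 ≤ FF M (2 * M) := FF_nonneg hM (by positivity)
    have hc := TentF_continuous_Fp M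
    have key : ∫ z in (2 * M)..x, Fp M z = x - 2 * M := by
      rw [intervalIntegral.integral_congr (g := fun _ => (1 : ℝ))]
      · simp
      · intro z hz
        rw [Set.uIcc_of_le h] at hz
        exact TentF_Fp_one hM hz.1
    unfold FF at hnn ⊢
    rw [← intervalIntegral.integral_add_adjacent_intervals
      (hc.intervalIntegrable 0 (2 * M)) (hc.intervalIntegrable _ _), key]
    linarith

end Pool.Agent.Lib.HAP
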