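import Mathlib
import Pool.Agent.Lib.HAP.Lat
import Pool.Agent.Lib.HAP.TentF

/-!
MODULE QWin: the load part of the form on functions with small support.

PROOF.  Cauchy-Schwarz: `(grad1 b r s v ψ)^2 ≤ S.card * ∑ q ∈ S, (gau1 s (v - r q - b q))^2`, `tent ≤ 2/M`,
`sum_gau1_sq_le` for each `q ∈ S`: total `(1/2)(2/M) w' * w' * 4/(s √s)`.
-/

namespace Pool.Agent.Lib.HAP

open Finset

theorem q_window {N : ℕ} {M s w' : ℝ} (hM : 0 < M) (hs : 1 ≤ s) (V : Finset ℤ)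
    (b r ψ : Fin (N + 1) → ℝ) (S : Finset (Fin (N + 1))) (hS : (S.card : ℝ) ≤ w')
    (h1 : ∀ q, |ψ q| ≤ 1) (h0 : ∀ q, q ∉ S → ψ q = 0) :
    1 / 2 * ∑ v ∈ V, tent M (load b r s v) * (grad1 b r s v ψ) ^ 2 ≤
      4 * w' ^ 2 / (M * (s * Real.sqrt s)) := by
  have hc0 : (0 : ℝ) ≤ S.card := Nat.cast_nonneg _
  have hss : 0 < s * Real.sqrt s := by positivity
  have hg : ∀ v : ℤ, (grad1 b r s v ψ) ^ 2 ≤
      S.card * ∑ q ∈ S, (gau1 s ((v : ℝ) - (r q + b q))) ^ 2 := by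
    intro v
    have e1 : grad1 b r s v ψ = ∑ q ∈ S, ψ q * gau1 s ((v : ℝ) - r q - b q) := by
      unfold grad1
      symm
      apply Finset.sum_subset (Finset.subset_univ S)
      intro q _ hq
      rw [h0 q hq, zero_mul]
    rw [e1]
    refine (sq_sum_le_card_mul_sum_sq).trans ?_
    refine mul_le_mul_of_nonneg_left ?_ hc0
    refine Finset.sum_le_sum fun q _ => ?_
    have e2 : (v : ℝ) - r q - b q = (v : ℝ) - (r q + b q) := by ring
    rw [e2, mul_pow]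
    have e3 : (ψ q) ^ 2 ≤ 1 := by
      rw [sq_le_one_iff_abs_le_one]
      exact h1 q
    calc (ψ q) ^ 2 * (gau1 s ((v : ℝ) - (r q + b q))) ^ 2
        ≤ 1 * (gau1 s ((v : ℝ) - (r q + b q))) ^ 2 :=
          mul_le_mul_of_nonneg_right e3 (sq_nonneg _)
      _ = _ := one_mul _
  have h2 : ∑ v ∈ V, tent M (load b r s v) * (grad1 b r s v ψ) ^ 2 ≤
      ∑ v ∈ V, (2 / M) * (S.card * ∑ q ∈ S, (gau1 s ((v : ℝ) - (r q + b q))) ^ 2) := by
    refine Finset.sum_le_sum fun v _ => ?_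
    exact mul_le_mul (tent_le hM _) (hg v) (sq_nonneg _) (by positivity)
  have h3 : ∑ v ∈ V, (2 / M) * (S.card * ∑ q ∈ S, (gau1 s ((v : ℝ) - (r q + b q))) ^ 2) =
      (2 / M) * S.card * ∑ q ∈ S, ∑ v ∈ V, (gau1 s ((v : ℝ) - (r q + b q))) ^ 2 := by
    rw [Finset.sum_comm, Finset.mul_sum]
    refine Finset.sum_congr rfl fun v _ => ?_
    ring
  have h4 : ∑ q ∈ S, ∑ v ∈ V, (gau1 s ((v : ℝ) - (r q + b q))) ^ 2 ≤
      S.card * (4 / (s * Real.sqrt s)) := by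
    refine (Finset.sum_le_sum fun q _ => sum_gau1_sq_le V (r q + b q) hs).trans ?_
    rw [Finset.sum_const, nsmul_eq_mul]
  have h5 : (S.card : ℝ) ^ 2 ≤ w' ^ 2 := pow_le_pow_left₀ hc0 hS 2
  calc 1 / 2 * ∑ v ∈ V, tent M (load b r s v) * (grad1 b r s v ψ) ^ 2
      ≤ 1 / 2 * ((2 / M) * S.card * (S.card * (4 / (s * Real.sqrt s)))) := by
        refine mul_le_mul_of_nonneg_left ?_ (by norm_num)
        rw [h3] at h2
        exact h2.trans (mul_le_mul_of_nonneg_left h4 (by positivity))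
    _ = (S.card : ℝ) ^ 2 * (4 / (M * (s * Real.sqrt s))) := by
        field_simp
    _ ≤ w' ^ 2 * (4 / (M * (s * Real.sqrt s))) :=
        mul_le_mul_of_nonneg_right h5 (by positivity)
    _ = 4 * w' ^ 2 / (M * (s * Real.sqrt s)) := by ring

end Pool.Agent.Lib.HAP
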