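import Mathlib
import Pool.Agent.Lib.HAP.Lat

/-!
MODULE Rich: the number of cells (of length `L ≥ √s`) which contain a point of load at least `M`.

PROOF.  For each cell index `j` in the image choose `v_j ∈ V` with `v_j / L = j` and `load ≥ M`.  For the even
`j` the points `v_j` have pairwise distance at least `L ≥ √s` (`j L ≤ v_j < (j+1) L`), the same for the odd
`j`.  By `sep_sum` for each of the two families, and each `q`:
`∑_j gau s (v_j - r q - b q) ≤ 4/√s` (`v - r q - b q = v - (r q + b q)`).  Sum over `q`: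
`M * card ≤ ∑_j load b r s v_j ≤ 2 (N+1) * 4/√s`.
-/

namespace Pool.Agent.Lib.HAP

open Finset

private theorem Rich_dist {L : ℕ} {v v' j j' : ℤ} {s : ℝ} (hL0 : 0 < L) (hL : Real.sqrt s ≤ L)
    (h : v / (L : ℤ) = j) (h' : v' / (L : ℤ) = j') (hjj : j + 2 ≤ j') :
    Real.sqrt s ≤ |(v : ℝ) - v'| := by
  have hLz : (0 : ℤ) < L := by exact_mod_cast hL0
  have h1 : v < (j + 1) * L := by
    rw [← h]; exact Int.lt_ediv_add_one_mul_self v hLz
  have h2 : j' * L ≤ v' := by
    rw [← h']; exact Int.ediv_mul_le v' hLz.ne'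
  have h3 : (L : ℤ) ≤ v' - v := by nlinarith
  have h4 : (L : ℝ) ≤ (v' : ℝ) - v := by exact_mod_cast h3
  have h5 : (v' : ℝ) - v ≤ |(v : ℝ) - v'| := by
    rw [abs_sub_comm]; exact le_abs_self _
  linarith

private theorem Rich_half {N : ℕ} {M s : ℝ} (hs : 1 ≤ s)
    (b r : Fin (N + 1) → ℝ) (L : ℕ) (hL : Real.sqrt s ≤ L) (S : Finset ℤ) (f : ℤ → ℤ)
    (hf : ∀ j ∈ S, f j / (L : ℤ) = j ∧ M ≤ load b r s (f j))
    (hsep : ∀ j ∈ S, ∀ j' ∈ S, j < j' → j + 2 ≤ j') :
    M * (S.card : ℝ) ≤ (N + 1) * (4 / Real.sqrt s) := by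
  have hs0 : 0 < s := by linarith
  have hL0 : 0 < L := by
    have h1 : (1 : ℝ) ≤ Real.sqrt s := by
      rw [show (1 : ℝ) = Real.sqrt 1 by simp]; exact Real.sqrt_le_sqrt hs
    have h2 : (0 : ℝ) < L := by linarith
    exact_mod_cast h2
  have hinj : Set.InjOn f (S : Set ℤ) := by
    intro a ha a' ha' haa
    have h1 := (hf a ha).1
    have h2 := (hf a' ha').1
    have h3 : f a = f a' := haa
    rw [h3, h2] at h1
    exact h1.symm
  have key : ∀ q : Fin (N + 1), ∑ j ∈ S, gau s (((f j : ℤ) : ℝ) - r q - b q) ≤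
      4 / Real.sqrt s := by
    intro q
    have h1 := sep_sum (S.image f) (r q + b q) hs0 (by
      intro v hv v' hv' hne
      obtain ⟨j, hj, rfl⟩ := Finset.mem_image.mp hv
      obtain ⟨j', hj', rfl⟩ := Finset.mem_image.mp hv'
      rcases lt_trichotomy j j' with h | h | h
      · exact Rich_dist hL0 hL (hf j hj).1 (hf j' hj').1 (hsep j hj j' hj' h)
      · exact absurd (by rw [h]) hne
      · rw [abs_sub_comm]
        exact Rich_dist hL0 hL (hf j' hj').1 (hf j hj).1 (hsep j' hj' j hj h))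
    rw [Finset.sum_image hinj] at h1
    calc ∑ j ∈ S, gau s (((f j : ℤ) : ℝ) - r q - b q)
        = ∑ j ∈ S, gau s (((f j : ℤ) : ℝ) - (r q + b q)) :=
          Finset.sum_congr rfl (fun j _ => by rw [sub_sub])
      _ ≤ 4 / Real.sqrt s := h1
  have h2 : M * (S.card : ℝ) ≤ ∑ j ∈ S, load b r s (f j) := by
    have := Finset.card_nsmul_le_sum S (fun j => load b r s (f j)) M (fun j hj => (hf j hj).2)
    rw [nsmul_eq_mul] at this
    linarith
  have h3 : ∑ j ∈ S, load b r s (f j) = ∑ q, ∑ j ∈ S, gau s (((f j : ℤ) : ℝ) - r q - b q) := by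
    unfold load
    rw [Finset.sum_comm]
  have h4 : ∑ q : Fin (N + 1), ∑ j ∈ S, gau s (((f j : ℤ) : ℝ) - r q - b q) ≤
      ∑ _q : Fin (N + 1), 4 / Real.sqrt s := Finset.sum_le_sum (fun q _ => key q)
  rw [Finset.sum_const, Finset.card_univ, Fintype.card_fin, nsmul_eq_mul] at h4
  push_cast at h4
  linarith [h3 ▸ h4]

theorem rich_card {N : ℕ} {M s : ℝ} (hM : 0 < M) (hs : 1 ≤ s) (V : Finset ℤ)
    (b r : Fin (N + 1) → ℝ) (L : ℕ) (hL : Real.sqrt s ≤ L) (R : Finset ℤ)
    (hR : ∀ j ∈ R, ∃ v ∈ V, v / (L : ℤ) = j ∧ M ≤ load b r s v) :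
    (R.card : ℝ) ≤ 10 * (N + 1) / (M * Real.sqrt s) := by
  classical
  have hs0 : 0 < s := by linarith
  have hss : 0 < Real.sqrt s := Real.sqrt_pos.mpr hs0
  have hex : ∀ j : ℤ, ∃ v : ℤ, j ∈ R → (v / (L : ℤ) = j ∧ M ≤ load b r s v) := by
    intro j
    by_cases hj : j ∈ R
    · obtain ⟨v, _, hv⟩ := hR j hj
      exact ⟨v, fun _ => hv⟩
    · exact ⟨0, fun h => absurd h hj⟩
  choose f hf using hex
  have he := Rich_half hs b r L hL (R.filter (fun j => j % 2 = 0)) f
    (fun j hj => hf j (Finset.mem_filter.mp hj).1) (by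
      intro j hj j' hj' hlt
      have h1 := (Finset.mem_filter.mp hj).2
      have h2 := (Finset.mem_filter.mp hj').2
      omega)
  have ho := Rich_half hs b r L hL (R.filter (fun j => ¬ (j % 2 = 0))) f
    (fun j hj => hf j (Finset.mem_filter.mp hj).1) (by
      intro j hj j' hj' hlt
      have h1 := (Finset.mem_filter.mp hj).2
      have h2 := (Finset.mem_filter.mp hj').2
      omega)
  have hc : (R.card : ℝ) = ((R.filter (fun j => j % 2 = 0)).card : ℝ) +
      ((R.filter (fun j => ¬ (j % 2 = 0))).card : ℝ) := by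
    have := Finset.card_filter_add_card_filter_not (s := R) (fun j : ℤ => j % 2 = 0)
    exact_mod_cast this.symm
  rw [le_div_iff₀ (by positivity), hc]
  have h5 : (N + 1 : ℝ) * (4 / Real.sqrt s) * Real.sqrt s = 4 * (N + 1) := by
    field_simp
  have he' := mul_le_mul_of_nonneg_right he hss.le
  have ho' := mul_le_mul_of_nonneg_right ho hss.le
  rw [h5] at he' ho'
  have hN : (0 : ℝ) ≤ N := Nat.cast_nonneg N
  nlinarith

end Pool.Agent.Lib.HAP
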