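import Mathlib

/-!
MODULE Dual: conic duality.  `Q` is any function with `Q (c x) = c^2 Q x` (a quadratic form in the
application).  If every diagonal form `∑ d_q x_q^2` below `Q` has trace `∑ d_q ≤ c`, then there are
finitely many vectors `x_j` with `∑_j x_j(q)^2 = 1` for all `q` and `∑_j Q(x_j) ≤ c + ε`.

PROOF.  Let `S` be the set of `(y, t)` in `(Fin n → ℝ) × ℝ` such that there are `J`, `x : Fin J → Fin n → ℝ`
with `y q = ∑ j, (x j q)^2` and `∑ j, Q (x j) ≤ t`.  `S` is a convex cone: closed under addition (append the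
families, `Fin.append` or `Fin.addCases`) and under multiplication with `λ ≥ 0` (`x_j ↦ √λ x_j`).
Its interior is not empty: the open set `{(y,t) | ∀ q, 0 < y q, ∑ q, y q * Q (e_q) < t}` is contained in `S`
(use `x_q = √(y q) e_q`, `e_q = Pi.single q 1`).
Suppose `p = (1, c + ε)` is not in `S`.  `geometric_hahn_banach_open_point` for the convex open set
`interior S` and `p ∉ interior S` gives a continuous linear `f` with `f a < f p` for all `a ∈ interior S`.
Write `f (y, t) = ∑ q, d q * y q - T * t` with `d q = f (e_q, 0)`, `T = - f (0, 1)`.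
Scaling: `λ a ∈ interior S` for `λ > 0`, so `λ f a < f p` for all `λ > 0`; `λ → ∞` gives `f a ≤ 0`,
`λ → 0` gives `0 ≤ f p`.  For `a' ∈ S` and `a ∈ interior S`, `a' + λ a ∈ interior S` (or: `S` convex with
non-empty interior is contained in the closure of its interior), so `f a' ≤ 0` for all `a' ∈ S`.
Apply to `(0,1) ∈ S`: `T ≥ 0`.  Apply to `(x∘x, Q x)`: `∑ d q (x q)^2 ≤ T Q x`.
`f p ≥ 0`: `∑ d q ≥ T (c + ε)`.
If `T > 0`: `d / T` is below `Q`, so `∑ d q / T ≤ c < c + ε ≤ ∑ d q / T`, contradiction.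
If `T = 0`: `∑ d q (x q)^2 ≤ 0` for all `x`, so `d q ≤ 0`, and `∑ d q ≥ 0`, so `d = 0` and `f = 0`, which
contradicts `f a < f p` for a point `a ∈ interior S`.
-/

namespace Pool.Agent.Lib.HAP

open Finset

private def Dual_S {n : ℕ} (Q : (Fin n → ℝ) → ℝ) : Set ((Fin n → ℝ) × ℝ) :=
  {p | ∃ (J : ℕ) (x : Fin J → Fin n → ℝ), (∀ q, p.1 q = ∑ j, (x j q) ^ 2) ∧ ∑ j, Q (x j) ≤ p.2}

private theorem Dual_add {n : ℕ} (Q : (Fin n → ℝ) → ℝ) {a b : (Fin n → ℝ) × ℝ}
    (ha : a ∈ Dual_S Q) (hb : b ∈ Dual_S Q) : a + b ∈ Dual_S Q := by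
  obtain ⟨J, x, hx, hxt⟩ := ha
  obtain ⟨K, y, hy, hyt⟩ := hb
  refine ⟨J + K, Fin.append x y, fun q => ?_, ?_⟩
  · rw [Fin.sum_univ_add]
    simp only [Fin.append_left, Fin.append_right, Prod.fst_add, Pi.add_apply, hx q, hy q]
  · rw [Fin.sum_univ_add]
    simp only [Fin.append_left, Fin.append_right, Prod.snd_add]
    linarith

private theorem Dual_smul {n : ℕ} (Q : (Fin n → ℝ) → ℝ)
    (hQ : ∀ (c : ℝ) (x : Fin n → ℝ), Q (c • x) = c ^ 2 * Q x) {a : (Fin n → ℝ) × ℝ}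
    (ha : a ∈ Dual_S Q) {l : ℝ} (hl : 0 ≤ l) : l • a ∈ Dual_S Q := by
  obtain ⟨J, x, hx, hxt⟩ := ha
  refine ⟨J, fun j => Real.sqrt l • x j, fun q => ?_, ?_⟩
  · simp only [Prod.smul_fst, Pi.smul_apply, smul_eq_mul, mul_pow, Real.sq_sqrt hl, hx q, mul_sum]
  · simp only [hQ, Real.sq_sqrt hl, ← mul_sum, Prod.smul_snd, smul_eq_mul]
    exact mul_le_mul_of_nonneg_left hxt hl

private def Dual_U {n : ℕ} (Q : (Fin n → ℝ) → ℝ) : Set ((Fin n → ℝ) × ℝ) :=
  {p | (∀ q, 0 < p.1 q) ∧ ∑ q, p.1 q * Q (Pi.single q 1) < p.2}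

private theorem Dual_open {n : ℕ} (Q : (Fin n → ℝ) → ℝ) : IsOpen (Dual_U Q) := by
  have h1 : IsOpen {p : (Fin n → ℝ) × ℝ | ∀ q, 0 < p.1 q} := by
    have : {p : (Fin n → ℝ) × ℝ | ∀ q, 0 < p.1 q} = ⋂ q, {p | 0 < p.1 q} := by
      ext p
      simp
    rw [this]
    exact isOpen_iInter_of_finite fun q => isOpen_lt continuous_const
      ((continuous_apply q).comp continuous_fst)
  have h2 : IsOpen {p : (Fin n → ℝ) × ℝ | ∑ q, p.1 q * Q (Pi.single q 1) < p.2} := by
    refine isOpen_lt ?_ continuous_snd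
    exact continuous_finsetSum _ fun q _ =>
      ((continuous_apply q).comp continuous_fst).mul continuous_const
  exact h1.inter h2

private theorem Dual_sub {n : ℕ} (Q : (Fin n → ℝ) → ℝ)
    (hQ : ∀ (c : ℝ) (x : Fin n → ℝ), Q (c • x) = c ^ 2 * Q x) : Dual_U Q ⊆ Dual_S Q := by
  rintro p ⟨hp, hp2⟩
  refine ⟨n, fun q => Real.sqrt (p.1 q) • (Pi.single q 1 : Fin n → ℝ), fun q => ?_, ?_⟩
  · rw [Finset.sum_eq_single q]
    · simp [Real.sq_sqrt (hp q).le]
    · intro b _ hb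
      simp [hb.symm]
    · simp
  · simp only [hQ]
    refine le_trans (le_of_eq ?_) hp2.le
    exact Finset.sum_congr rfl fun q _ => by rw [Real.sq_sqrt (hp q).le]

theorem dual {n : ℕ} (Q : (Fin n → ℝ) → ℝ) (hQ : ∀ (c : ℝ) (x : Fin n → ℝ), Q (c • x) = c ^ 2 * Q x)
    {c : ℝ} (hc : ∀ d : Fin n → ℝ, (∀ x : Fin n → ℝ, ∑ q, d q * (x q) ^ 2 ≤ Q x) → ∑ q, d q ≤ c)
    {ε : ℝ} (hε : 0 < ε) :
    ∃ (J : ℕ) (x : Fin J → Fin n → ℝ), (∀ q, ∑ j, (x j q) ^ 2 = 1) ∧ ∑ j, Q (x j) ≤ c + ε := by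
  by_contra hcon
  set p : (Fin n → ℝ) × ℝ := (fun _ => 1, c + ε) with hp
  have hpS : p ∉ Dual_S Q := by
    rintro ⟨J, x, hx, hxt⟩
    exact hcon ⟨J, x, fun q => (hx q).symm, hxt⟩
  have hconv : Convex ℝ (Dual_S Q) := by
    intro a ha b hb s t hs ht _
    exact Dual_add Q (Dual_smul Q hQ ha hs) (Dual_smul Q hQ hb ht)
  obtain ⟨f, hf⟩ := geometric_hahn_banach_open_point hconv.interior isOpen_interior
    (fun h => hpS (interior_subset h))
  set a₀ : (Fin n → ℝ) × ℝ := (fun _ => 1, ∑ q, Q (Pi.single q 1) + 1) with ha₀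
  have hU : ∀ l : ℝ, 0 < l → l • a₀ ∈ Dual_U Q := by
    intro l hl
    refine ⟨fun q => by simp [ha₀, hl], ?_⟩
    simp only [ha₀, Prod.smul_fst, Prod.smul_snd, Pi.smul_apply, smul_eq_mul, mul_one, ← mul_sum]
    nlinarith
  have hint : ∀ a ∈ Dual_S Q, ∀ l : ℝ, 0 < l → a + l • a₀ ∈ interior (Dual_S Q) := by
    intro a ha l hl
    have hop : IsOpen ((fun z => z - a) ⁻¹' (Dual_U Q)) :=
      (Dual_open Q).preimage (continuous_id.sub continuous_const)
    have hsub : (fun z => z - a) ⁻¹' (Dual_U Q) ⊆ Dual_S Q := by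
      intro z hz
      have h := Dual_add Q ha (Dual_sub Q hQ hz)
      simpa using h
    refine interior_maximal hsub hop ?_
    simpa using hU l hl
  have key : ∀ a ∈ Dual_S Q, ∀ k : ℝ, 0 ≤ k → ∀ l : ℝ, 0 < l → k * f a + l * f a₀ < f p := by
    intro a ha k hk l hl
    have h := hf _ (hint _ (Dual_smul Q hQ ha hk) l hl)
    simpa using h
  have hneg : ∀ a ∈ Dual_S Q, f a ≤ 0 := by
    intro a ha
    by_contra hpos
    push Not at hpos
    have h := key a ha ((|f p| + |f a₀|) / f a) (by positivity) 1 one_pos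
    rw [div_mul_cancel₀ _ hpos.ne'] at h
    have h1 := le_abs_self (f p)
    have h2 := neg_abs_le (f a₀)
    linarith
  have hzero : (0 : (Fin n → ℝ) × ℝ) ∈ Dual_S Q := ⟨0, fun _ _ => 0, by simp, by simp⟩
  have hfp : 0 ≤ f p := by
    by_contra hlt
    push Not at hlt
    have hpos : 0 < |f a₀| + 1 := by positivity
    have h := key 0 hzero 0 le_rfl (-(f p) / (|f a₀| + 1)) (div_pos (by linarith) hpos)
    have h2 := neg_abs_le (f a₀)
    have h3 : -(f p) / (|f a₀| + 1) * f a₀ ≥ -(f p) / (|f a₀| + 1) * (-(|f a₀| + 1)) := by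
      apply mul_le_mul_of_nonneg_left _ (div_pos (by linarith) hpos).le
      linarith
    have h4 : -(f p) / (|f a₀| + 1) * (-(|f a₀| + 1)) = f p := by
      field_simp
    linarith
  set T : ℝ := - f ((0 : Fin n → ℝ), (1 : ℝ)) with hT
  set d : Fin n → ℝ := fun q => f ((Pi.single q 1 : Fin n → ℝ), (0 : ℝ)) with hd
  have hdec : ∀ (y : Fin n → ℝ) (t : ℝ), f (y, t) = ∑ q, d q * y q - T * t := by
    intro y t
    have h : ((y, t) : (Fin n → ℝ) × ℝ) =
        ∑ q, y q • ((Pi.single q 1 : Fin n → ℝ), (0 : ℝ)) + t • ((0 : Fin n → ℝ), (1 : ℝ)) := by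
      ext q
      · simp [Prod.fst_sum, Finset.sum_apply, Pi.single_apply]
      · simp [Prod.snd_sum]
    rw [h, map_add, map_sum, map_smul]
    simp only [map_smul, smul_eq_mul, hT, hd]
    rw [Finset.sum_congr rfl fun q _ => mul_comm (y q) _]
    ring
  have hT0 : 0 ≤ T := by
    have h := hneg ((0 : Fin n → ℝ), (1 : ℝ)) ⟨0, fun _ _ => 0, by simp, by simp⟩
    linarith
  have hform : ∀ x : Fin n → ℝ, ∑ q, d q * (x q) ^ 2 ≤ T * Q x := by
    intro x
    have h := hneg ((fun q => (x q) ^ 2), Q x) ⟨1, fun _ => x, by simp, by simp⟩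
    rw [hdec] at h
    linarith
  have hsum : T * (c + ε) ≤ ∑ q, d q := by
    rw [hp, hdec] at hfp
    simp only [mul_one] at hfp
    linarith
  rcases hT0.lt_or_eq with hTpos | hTz
  · have h := hc (fun q => d q / T) (fun x => by
      have h1 := hform x
      have h2 : ∑ q, d q / T * (x q) ^ 2 = (∑ q, d q * (x q) ^ 2) / T := by
        rw [Finset.sum_div]
        exact Finset.sum_congr rfl fun q _ => by ring
      rw [h2, div_le_iff₀ hTpos]
      linarith)
    rw [← Finset.sum_div, div_le_iff₀ hTpos] at h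
    nlinarith
  · rw [← hTz] at hform hsum
    simp only [zero_mul] at hform hsum
    have hd0 : ∀ q, d q ≤ 0 := by
      intro q
      have h := hform (Pi.single q 1)
      rw [Finset.sum_eq_single q] at h
      · simpa using h
      · intro b _ hb
        simp [hb]
      · simp
    have hd1 : ∀ q, d q = 0 := by
      have h0 : ∑ q, d q = 0 := le_antisymm (Finset.sum_nonpos fun q _ => hd0 q) hsum
      intro q
      exact (Finset.sum_eq_zero_iff_of_nonpos fun q _ => hd0 q).1 h0 q (Finset.mem_univ q)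
    have h := key 0 hzero 0 le_rfl 1 one_pos
    have e1 : f a₀ = 0 := by
      rw [ha₀, hdec]
      simp [hd1, ← hTz]
    have e2 : f p = 0 := by
      rw [hp, hdec]
      simp [hd1, ← hTz]
    rw [e1, e2] at h
    simp at h

end Pool.Agent.Lib.HAP
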