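import Mathlib
import Pool.Agent.Lib.HAP.Defs

/-!
MODULE GauD: derivatives of the Gaussian along the curve `z ↦ (s - z^2, y - z ξ)`.

PROOF.  `∂/∂t gau t x = (1/2) gau2 t x`, `∂/∂x gau t x = gau1 t x`, `∂/∂x gau1 t x = gau2 t x`
(direct computation; write `gau t x = exp (-x^2/(2t)) * (2 π t)^(-1/2)`).  Chain rule:
d/dz gau (s - z^2) (y - z ξ) = (-2z)(1/2) gau2 - ξ gau1.  For the second statement at z = 0: the first
summand `-z * gau2 ..` has derivative `-gau2 s y` at 0 (product rule, gau2 only has to be continuous, or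
differentiable, there), the second has derivative `-ξ * (-ξ) * gau2 s y` (the inner derivative of
`s - z^2` vanishes at 0).
-/

namespace Pool.Agent.Lib.HAP

private theorem gauD_key (E g t x x' t' : ℝ) (ht : 0 < t) (hg : g ≠ 0)
    (hg2 : g ^ 2 = 2 * Real.pi * t) :
    (E * ((-(2 * x * x') * (2 * t) - (-x ^ 2) * (2 * t')) / (2 * t) ^ 2) * g -
      E * ((2 * Real.pi * t') / (2 * g))) / g ^ 2 =
      t' / 2 * ((x ^ 2 / t ^ 2 - 1 / t) * (E / g)) + x' * (-(x / t) * (E / g)) := by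
  have ht' : t ≠ 0 := ht.ne'
  have hpi : 2 * Real.pi = g ^ 2 / t := by
    rw [hg2]; field_simp
  rw [hpi]
  field_simp
  ring

private theorem gauD_gen {T X : ℝ → ℝ} {T' X' z : ℝ} (hT : HasDerivAt T T' z)
    (hX : HasDerivAt X X' z) (h : 0 < T z) :
    HasDerivAt (fun z => gau (T z) (X z))
      (T' / 2 * gau2 (T z) (X z) + X' * gau1 (T z) (X z)) z := by
  have hpos : 0 < 2 * Real.pi * T z := by positivity
  have h1 : HasDerivAt (fun z => -(X z) ^ 2) (-(2 * X z * X')) z := by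
    have := (hX.pow 2).neg
    refine this.congr_deriv ?_
    simp
  have h2 : HasDerivAt (fun z => 2 * T z) (2 * T') z := hT.const_mul 2
  have h3 := (h1.div h2 (by positivity)).exp
  have h4 : HasDerivAt (fun z => 2 * Real.pi * T z) (2 * Real.pi * T') z := hT.const_mul _
  have h5 := h4.sqrt hpos.ne'
  have hs : Real.sqrt (2 * Real.pi * T z) ≠ 0 := (Real.sqrt_pos.2 hpos).ne'
  have h6 := h3.div h5 hs
  have h7 := gauD_key (Real.exp (-(X z) ^ 2 / (2 * T z))) (Real.sqrt (2 * Real.pi * T z)) (T z)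
    (X z) X' T' h hs (Real.sq_sqrt hpos.le)
  unfold gau2 gau1 gau
  rw [← h7]
  exact h6

theorem hasDerivAt_gau_path (s y ξ η : ℝ) (h : 0 < s - η ^ 2) :
    HasDerivAt (fun z : ℝ => gau (s - z ^ 2) (y - z * ξ))
      (-η * gau2 (s - η ^ 2) (y - η * ξ) - ξ * gau1 (s - η ^ 2) (y - η * ξ)) η := by
  have hT : HasDerivAt (fun z : ℝ => s - z ^ 2) (-(2 * η)) η := by
    have := ((hasDerivAt_id η).pow 2).const_sub s
    refine this.congr_deriv ?_
    simp
  have hX : HasDerivAt (fun z : ℝ => y - z * ξ) (-ξ) η := by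
    have := ((hasDerivAt_id η).mul_const ξ).const_sub y
    refine this.congr_deriv ?_
    simp
  refine (gauD_gen hT hX h).congr_deriv ?_
  ring

private theorem gauD_path0 (s y ξ : ℝ) (h : 0 < s) :
    HasDerivAt (fun z : ℝ => gau (s - z ^ 2) (y - z * ξ)) (-ξ * gau1 s y) 0 := by
  have := hasDerivAt_gau_path s y ξ 0 (by simpa using h)
  refine this.congr_deriv ?_
  simp

private theorem gauD_one (s y ξ : ℝ) (h : 0 < s) :
    HasDerivAt (fun z : ℝ => gau1 (s - z ^ 2) (y - z * ξ)) (-ξ * gau2 s y) 0 := by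
  have hT : HasDerivAt (fun z : ℝ => s - z ^ 2) 0 0 := by
    have := ((hasDerivAt_id (0 : ℝ)).pow 2).const_sub s
    refine this.congr_deriv ?_
    simp
  have hX : HasDerivAt (fun z : ℝ => y - z * ξ) (-ξ) 0 := by
    have := ((hasDerivAt_id (0 : ℝ)).mul_const ξ).const_sub y
    refine this.congr_deriv ?_
    simp
  have hs : s - (0 : ℝ) ^ 2 ≠ 0 := by simpa using h.ne'
  have h1 := ((hX.div hT hs).neg).mul (gauD_path0 s y ξ h)
  have h2 : HasDerivAt (fun z : ℝ => gau1 (s - z ^ 2) (y - z * ξ)) _ 0 := h1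
  refine h2.congr_deriv ?_
  have hs' : s ≠ 0 := h.ne'
  simp only [gau2, gau1, Pi.neg_apply, Pi.div_apply]
  norm_num
  field_simp
  ring

private theorem gauD_two (s y ξ : ℝ) (h : 0 < s) :
    DifferentiableAt ℝ (fun z : ℝ => gau2 (s - z ^ 2) (y - z * ξ)) 0 := by
  have h1 := (gauD_path0 s y ξ h).differentiableAt
  have hs : s - (0 : ℝ) ^ 2 ≠ 0 := by simpa using h.ne'
  have hs2 : (s - (0 : ℝ) ^ 2) ^ 2 ≠ 0 := pow_ne_zero 2 hs
  have hT : DifferentiableAt ℝ (fun z : ℝ => s - z ^ 2) 0 := by fun_prop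
  have hX : DifferentiableAt ℝ (fun z : ℝ => y - z * ξ) 0 := by fun_prop
  have h2 : DifferentiableAt ℝ (fun z : ℝ =>
      (y - z * ξ) ^ 2 / (s - z ^ 2) ^ 2 - 1 / (s - z ^ 2)) 0 :=
    ((hX.pow 2).div (hT.pow 2) hs2).sub ((differentiableAt_const 1).div hT hs)
  exact h2.mul h1

theorem hasDerivAt_gau_path' (s y ξ : ℝ) (h : 0 < s) :
    HasDerivAt (fun z : ℝ => -z * gau2 (s - z ^ 2) (y - z * ξ) - ξ * gau1 (s - z ^ 2) (y - z * ξ))
      ((ξ ^ 2 - 1) * gau2 s y) 0 := by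
  have h1 := (gauD_two s y ξ h).hasDerivAt
  have h2 := ((hasDerivAt_id (0 : ℝ)).neg.mul h1).sub ((gauD_one s y ξ h).const_mul ξ)
  have h3 : HasDerivAt (fun z : ℝ =>
    -z * gau2 (s - z ^ 2) (y - z * ξ) - ξ * gau1 (s - z ^ 2) (y - z * ξ)) _ 0 := h2
  refine h3.congr_deriv ?_
  simp
  ring

theorem continuousOn_gau : ContinuousOn (fun p : ℝ × ℝ => gau p.1 p.2) {p | 0 < p.1} := by
  unfold gau
  have h1 : ContinuousOn (fun p : ℝ × ℝ => -p.2 ^ 2 / (2 * p.1)) {p | 0 < p.1} := by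
    refine ContinuousOn.div (by fun_prop) (by fun_prop) fun p hp => ?_
    have : 0 < p.1 := hp
    positivity
  refine ContinuousOn.div h1.rexp (by fun_prop) fun p hp => ?_
  have : 0 < p.1 := hp
  exact (Real.sqrt_pos.2 (by positivity)).ne'

theorem gau_pos {t : ℝ} (ht : 0 < t) (x : ℝ) : 0 < gau t x :=
  div_pos (Real.exp_pos _) (Real.sqrt_pos.2 (by positivity))

end Pool.Agent.Lib.HAP
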