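import Mathlib
import Pool.Agent.Lib.HAP.GauD
import Pool.Agent.Lib.HAP.TentF

/-!
MODULE PsiCont: continuity and coercivity of `Psi`.

PROOF.  (1) finite sums and products of continuous functions; `FF M` is continuous (`hasDerivAt_FF`), `gau`
is continuous on `t > 0` (`continuousOn_gau`).
(2) `FF ≥ 0` on nonnegative loads (`FF_nonneg`, `gau_pos`), so `A * slopeE r ≤ B`, `e (r 0)^2 ≤ B`:
`|r 0| ≤ √(B/e)`, `|r i.succ - r i.castSucc - 1| ≤ √(B/A)`, induction over the positions.
-/

namespace Pool.Agent.Lib.HAP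

open Finset

private theorem psiCont_load {N : ℕ} (b : Fin (N + 1) → ℝ) (v : ℝ) :
    ContinuousOn (fun p : ℝ × (Fin (N + 1) → ℝ) => load b p.2 p.1 v) {p | 0 < p.1} := by
  unfold load
  refine continuousOn_finset_sum _ fun q _ => ?_
  have h1 : ContinuousOn
      (fun p : ℝ × (Fin (N + 1) → ℝ) => ((p.1, v - p.2 q - b q) : ℝ × ℝ)) {p | 0 < p.1} := by
    fun_prop
  exact continuousOn_gau.comp h1 fun p hp => hp

theorem continuousOn_Psi {N : ℕ} (A e M : ℝ) (V : Finset ℤ) (b : Fin (N + 1) → ℝ) :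
    ContinuousOn (fun p : ℝ × (Fin (N + 1) → ℝ) => Psi A e M V b p.2 p.1) {p | 0 < p.1} := by
  have hFF : Continuous (FF M) :=
    continuous_iff_continuousAt.2 fun x => (hasDerivAt_FF M x).continuousAt
  unfold Psi
  refine ContinuousOn.add (Continuous.continuousOn ?_) ?_
  · unfold slopeE
    fun_prop
  · exact continuousOn_finset_sum _ fun v _ => hFF.comp_continuousOn (psiCont_load b v)

private theorem psiCont_slope {N : ℕ} (r : Fin (N + 1) → ℝ) : 0 ≤ slopeE r := by
  unfold slopeE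
  exact Finset.sum_nonneg fun i _ => sq_nonneg _

private theorem psiCont_F {N : ℕ} {M : ℝ} (hM : 0 < M) (V : Finset ℤ)
    (b r : Fin (N + 1) → ℝ) {s : ℝ} (hs : 0 < s) : 0 ≤ ∑ v ∈ V, FF M (load b r s v) :=
  Finset.sum_nonneg fun v _ => FF_nonneg hM
    (Finset.sum_nonneg fun q _ => (gau_pos hs _).le)

theorem Psi_nonneg {N : ℕ} {A e M : ℝ} (hA : 0 ≤ A) (he : 0 ≤ e) (hM : 0 < M) (V : Finset ℤ)
    (b r : Fin (N + 1) → ℝ) {s : ℝ} (hs : 0 < s) : 0 ≤ Psi A e M V b r s := by
  unfold Psi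
  have h1 := mul_nonneg hA (psiCont_slope r)
  have h2 := mul_nonneg he (sq_nonneg (r 0))
  have h3 := psiCont_F hM V b r hs
  linarith

theorem bounded_of_Psi_le {N : ℕ} {A e M : ℝ} (hA : 0 < A) (he : 0 < e) (hM : 0 < M) (V : Finset ℤ)
    (b r : Fin (N + 1) → ℝ) {s B : ℝ} (hs : 0 < s) (h : Psi A e M V b r s ≤ B) :
    ∀ q, |r q| ≤ Real.sqrt (B / e) + N * (1 + Real.sqrt (B / A)) := by
  unfold Psi at h
  have h1 := mul_nonneg hA.le (psiCont_slope r)
  have h2 := mul_nonneg he.le (sq_nonneg (r 0))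
  have h3 := psiCont_F hM V b r hs
  have hS : slopeE r ≤ B / A := by
    rw [le_div_iff₀ hA]
    linarith
  have h0 : |r 0| ≤ Real.sqrt (B / e) := by
    refine Real.abs_le_sqrt ?_
    rw [le_div_iff₀ he]
    linarith
  have hstep : ∀ i : Fin N, |r i.succ| ≤ |r i.castSucc| + (1 + Real.sqrt (B / A)) := by
    intro i
    have h4 : (r i.succ - r i.castSucc - 1) ^ 2 ≤ B / A := by
      refine le_trans ?_ hS
      unfold slopeE
      exact Finset.single_le_sum (f := fun i : Fin N => (r i.succ - r i.castSucc - 1) ^ 2)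
        (fun j _ => sq_nonneg _) (Finset.mem_univ i)
    have h5 := Real.abs_le_sqrt h4
    have h6 : r i.succ = (r i.succ - r i.castSucc - 1) + (r i.castSucc + 1) := by ring
    rw [h6]
    refine (abs_add_le _ _).trans ?_
    have h7 : |r i.castSucc + 1| ≤ |r i.castSucc| + 1 := by
      simpa using abs_add_le (r i.castSucc) 1
    linarith
  have hc : 0 ≤ 1 + Real.sqrt (B / A) := by positivity
  have hall : ∀ q : Fin (N + 1),
      |r q| ≤ Real.sqrt (B / e) + (q.val : ℝ) * (1 + Real.sqrt (B / A)) := by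
    intro q
    induction q using Fin.induction with
    | zero => simpa using h0
    | succ i ih =>
      have h8 := hstep i
      have h9 : ((i.succ : Fin (N + 1)).val : ℝ) = (i.castSucc.val : ℝ) + 1 := by
        simp
      rw [h9]
      linarith
  intro q
  refine (hall q).trans ?_
  have h10 : (q.val : ℝ) ≤ N := by
    exact_mod_cast Nat.lt_succ_iff.mp q.isLt
  have := mul_le_mul_of_nonneg_right h10 hc
  linarith

end Pool.Agent.Lib.HAP
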