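import Mathlib

/-!
MODULE Peano: second order Taylor inequality with a small error, for a function which is differentiable
near `0` and whose derivative is differentiable at `0`.

PROOF.  Put `u η = f η - f 0 - g 0 * η - c / 2 * η ^ 2`.  Then `u` has derivative
`g η - g 0 - c η` for `|η| < δ`, which is at most `ε |η|` in absolute value for `|η| < η₀`
(definition of `HasDerivAt g c 0`).  Mean value inequality on the segment from `0` to `η`
(`Convex.norm_image_sub_le_of_norm_hasDerivWithin_le` or similar): `|u η - u 0| ≤ ε |η| * |η|`.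
-/

namespace Pool.Agent.Lib.HAP

theorem peano {f g : ℝ → ℝ} {c δ : ℝ} (hδ : 0 < δ) (hf : ∀ η, |η| < δ → HasDerivAt f (g η) η)
    (hg : HasDerivAt g c 0) {ε : ℝ} (hε : 0 < ε) :
    ∃ η₀ > 0, ∀ η, |η| < η₀ → f η ≤ f 0 + g 0 * η + c / 2 * η ^ 2 + ε * η ^ 2 := by
  have h1 := (hasDerivAt_iff_isLittleO.1 hg).def hε
  obtain ⟨η₁, hη₁, h2⟩ := Metric.eventually_nhds_iff.1 h1
  refine ⟨min δ η₁, lt_min hδ hη₁, fun η hη => ?_⟩
  have hηδ : |η| < δ := lt_of_lt_of_le hη (min_le_left _ _)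
  have hηη : |η| < η₁ := lt_of_lt_of_le hη (min_le_right _ _)
  have hd : ∀ x ∈ Set.Icc (-|η|) |η|, HasDerivWithinAt
      (fun x => f x - f 0 - g 0 * x - c / 2 * x ^ 2) (g x - g 0 - c * x)
      (Set.Icc (-|η|) |η|) x := by
    intro x hx
    have hx' : |x| < δ := lt_of_le_of_lt (abs_le.2 hx) hηδ
    have := (((hf x hx').sub_const (f 0)).sub ((hasDerivAt_id x).const_mul (g 0))).sub
      (((hasDerivAt_id x).pow 2).const_mul (c / 2))
    refine (this.congr_deriv ?_).hasDerivWithinAt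
    simp only [id_eq, Nat.cast_ofNat, mul_one]
    ring
  have hb : ∀ x ∈ Set.Icc (-|η|) |η|, ‖g x - g 0 - c * x‖ ≤ ε * |η| := by
    intro x hx
    have hx' : |x| ≤ |η| := abs_le.2 hx
    have h3 := h2 (y := x) (by rw [Real.dist_eq, sub_zero]; exact lt_of_le_of_lt hx' hηη)
    rw [sub_zero, smul_eq_mul, mul_comm x c] at h3
    exact h3.trans (mul_le_mul_of_nonneg_left hx' hε.le)
  have h0 : (0 : ℝ) ∈ Set.Icc (-|η|) |η| := ⟨neg_nonpos.2 (abs_nonneg η), abs_nonneg η⟩
  have hη' : η ∈ Set.Icc (-|η|) |η| := ⟨neg_abs_le η, le_abs_self η⟩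
  have h4 := (convex_Icc (-|η|) |η|).norm_image_sub_le_of_norm_hasDerivWithin_le hd hb h0 hη'
  have h5 := le_trans (le_abs_self _) h4
  rw [Real.norm_eq_abs, sub_zero, mul_assoc, abs_mul_abs_self] at h5
  nlinarith [h5]

end Pool.Agent.Lib.HAP
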