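import Mathlib
import Pool.Agent.Lib.HAP.GauD
import Pool.Agent.Lib.HAP.TentF
import Pool.Agent.Lib.HAP.Peano

/-!
MODULE PsiPath: second order expansion of `Psi` along `η ↦ (r + η ξ, s - η^2)`.

PROOF.  Apply `peano` to `f η = Psi A e M V b (fun q => r q + η * ξ q) (s - η ^ 2)` with
`δ = √s` (then `0 < s - η^2`) and
`g η = 2 A ∑ i, (r i.succ + η ξ i.succ - (r i.castSucc + η ξ i.castSucc) - 1)(ξ i.succ - ξ i.castSucc)
  + 2 e (r 0 + η ξ 0) ξ 0 + ∑ v ∈ V, Fp M (ld η v) * ld' η v`, where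
`ld η v = load b (fun q => r q + η * ξ q) (s - η^2) v = ∑ q, gau (s - η^2) ((v - r q - b q) - η * ξ q)` and
`ld' η v = ∑ q, (-η * gau2 .. - ξ q * gau1 ..)` (`hasDerivAt_gau_path`, `hasDerivAt_FF`).
`g 0 = linP ..` because `ld' 0 v = - grad1 b r s v ξ`.  The derivative of `g` at `0` is
`c = 2 A dirE ξ + 2 e (ξ 0)^2 + ∑ v, (tent M (load b r s v) * (grad1 b r s v ξ)^2
   + Fp M (load b r s v) * ∑ q, ((ξ q)^2 - 1) * gau2 s (v - r q - b q))`
(`hasDerivAt_Fp`, product rule, `hasDerivAt_gau_path'`), and `c / 2` is the bracket in the statement.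
-/

namespace Pool.Agent.Lib.HAP

open Finset

/-- The first derivative of `Psi` in direction `ξ`. -/
noncomputable def linP {N : ℕ} (A e M : ℝ) (V : Finset ℤ) (b r : Fin (N + 1) → ℝ) (s : ℝ)
    (ξ : Fin (N + 1) → ℝ) : ℝ :=
  2 * A * ∑ i : Fin N, (r i.succ - r i.castSucc - 1) * (ξ i.succ - ξ i.castSucc) +
    2 * e * r 0 * ξ 0 - ∑ v ∈ V, Fp M (load b r s v) * grad1 b r s v ξ

/-- derivative of the load along the path -/
private noncomputable def ppLd {N : ℕ} (b r ξ : Fin (N + 1) → ℝ) (s v η : ℝ) : ℝ :=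
  ∑ q, (-η * gau2 (s - η ^ 2) ((v - r q - b q) - η * ξ q) -
    ξ q * gau1 (s - η ^ 2) ((v - r q - b q) - η * ξ q))

private theorem pp_load {N : ℕ} (b r ξ : Fin (N + 1) → ℝ) (s v η : ℝ) (h : 0 < s - η ^ 2) :
    HasDerivAt (fun z : ℝ => load b (fun q => r q + z * ξ q) (s - z ^ 2) v)
      (ppLd b r ξ s v η) η := by
  have h1 : (fun z : ℝ => load b (fun q => r q + z * ξ q) (s - z ^ 2) v) =
      fun z : ℝ => ∑ q, gau (s - z ^ 2) ((v - r q - b q) - z * ξ q) := by
    funext z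
    unfold load
    refine Finset.sum_congr rfl fun q _ => ?_
    congr 1
    ring
  rw [h1]
  exact HasDerivAt.fun_sum fun q _ => hasDerivAt_gau_path s (v - r q - b q) (ξ q) η h

private theorem pp_load' {N : ℕ} (b r ξ : Fin (N + 1) → ℝ) (s v : ℝ) (h : 0 < s) :
    HasDerivAt (fun z : ℝ => ppLd b r ξ s v z)
      (∑ q, ((ξ q) ^ 2 - 1) * gau2 s (v - r q - b q)) 0 := by
  unfold ppLd
  exact HasDerivAt.fun_sum fun q _ => hasDerivAt_gau_path' s (v - r q - b q) (ξ q) h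

private theorem pp_load0 {N : ℕ} (b r ξ : Fin (N + 1) → ℝ) (s v : ℝ) :
    ppLd b r ξ s v 0 = - grad1 b r s v ξ := by
  unfold ppLd grad1
  rw [← Finset.sum_neg_distrib]
  refine Finset.sum_congr rfl fun q _ => ?_
  simp

private theorem pp_slope {N : ℕ} (r ξ : Fin (N + 1) → ℝ) (η : ℝ) :
    HasDerivAt (fun z : ℝ => slopeE (fun q => r q + z * ξ q))
      (2 * ∑ i : Fin N, (r i.succ + η * ξ i.succ - (r i.castSucc + η * ξ i.castSucc) - 1) *
        (ξ i.succ - ξ i.castSucc)) η := by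
  unfold slopeE
  have h1 : ∀ i : Fin N, HasDerivAt
      (fun z : ℝ => (r i.succ + z * ξ i.succ - (r i.castSucc + z * ξ i.castSucc) - 1) ^ 2)
      (2 * ((r i.succ + η * ξ i.succ - (r i.castSucc + η * ξ i.castSucc) - 1) *
        (ξ i.succ - ξ i.castSucc))) η := by
    intro i
    have e1 : HasDerivAt (fun z : ℝ => r i.succ + z * ξ i.succ -
        (r i.castSucc + z * ξ i.castSucc) - 1) (ξ i.succ - ξ i.castSucc) η := by
      have f1 := ((hasDerivAt_id η).mul_const (ξ i.succ)).const_add (r i.succ)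
      have f2 := ((hasDerivAt_id η).mul_const (ξ i.castSucc)).const_add (r i.castSucc)
      refine ((f1.sub f2).sub_const 1).congr_deriv ?_
      ring
    refine (e1.pow 2).congr_deriv ?_
    simp only [Nat.cast_ofNat, Nat.add_one_sub_one, pow_one]
    ring
  have h2 := HasDerivAt.fun_sum (u := Finset.univ) fun i _ => h1 i
  rw [Finset.mul_sum]
  exact h2

private theorem pp_slope' {N : ℕ} (r ξ : Fin (N + 1) → ℝ) (η : ℝ) :
    HasDerivAt (fun z : ℝ => 2 * ∑ i : Fin N,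
      (r i.succ + z * ξ i.succ - (r i.castSucc + z * ξ i.castSucc) - 1) *
        (ξ i.succ - ξ i.castSucc)) (2 * dirE ξ) η := by
  unfold dirE
  refine HasDerivAt.const_mul 2 (HasDerivAt.fun_sum fun i _ => ?_)
  have e1 : HasDerivAt (fun z : ℝ => r i.succ + z * ξ i.succ -
      (r i.castSucc + z * ξ i.castSucc) - 1) (ξ i.succ - ξ i.castSucc) η := by
    have f1 := ((hasDerivAt_id η).mul_const (ξ i.succ)).const_add (r i.succ)
    have f2 := ((hasDerivAt_id η).mul_const (ξ i.castSucc)).const_add (r i.castSucc)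
    refine ((f1.sub f2).sub_const 1).congr_deriv ?_
    ring
  refine (e1.mul_const (ξ i.succ - ξ i.castSucc)).congr_deriv ?_
  ring

private theorem pp_zero (a x η : ℝ) :
    HasDerivAt (fun z : ℝ => (a + z * x) ^ 2) (2 * (a + η * x) * x) η := by
  have f1 := ((hasDerivAt_id η).mul_const x).const_add a
  refine (f1.pow 2).congr_deriv ?_
  simp

private theorem pp_zero' (a x η : ℝ) :
    HasDerivAt (fun z : ℝ => 2 * (a + z * x) * x) (2 * x ^ 2) η := by
  have f1 := ((hasDerivAt_id η).mul_const x).const_add a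
  refine ((f1.const_mul 2).mul_const x).congr_deriv ?_
  ring

theorem psi_path {N : ℕ} (A e M : ℝ) (hM : 0 < M) (V : Finset ℤ) (b r ξ : Fin (N + 1) → ℝ) (s : ℝ)
    (hs : 0 < s) {ε : ℝ} (hε : 0 < ε) :
    ∃ η₀ > 0, ∀ η, |η| < η₀ →
      Psi A e M V b (fun q => r q + η * ξ q) (s - η ^ 2) ≤ Psi A e M V b r s +
        η * linP A e M V b r s ξ +
        η ^ 2 * (Qf A e M V b r s ξ +
          1 / 2 * ∑ v ∈ V, Fp M (load b r s v) * ∑ q, ((ξ q) ^ 2 - 1) * gau2 s (v - r q - b q)) +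
        ε * η ^ 2 := by
  have hr0 : (fun q => r q + 0 * ξ q) = r := by
    funext q
    rw [zero_mul, add_zero]
  have hs0 : s - (0 : ℝ) ^ 2 = s := by norm_num
  have hf : ∀ η : ℝ, |η| < Real.sqrt s → HasDerivAt
      (fun z : ℝ => Psi A e M V b (fun q => r q + z * ξ q) (s - z ^ 2))
      (A * (2 * ∑ i : Fin N, (r i.succ + η * ξ i.succ - (r i.castSucc + η * ξ i.castSucc) - 1) *
        (ξ i.succ - ξ i.castSucc)) + e * (2 * (r 0 + η * ξ 0) * ξ 0) +
        ∑ v ∈ V, Fp M (load b (fun q => r q + η * ξ q) (s - η ^ 2) v) * ppLd b r ξ s v η) η := by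
    intro η hη
    have hpos : 0 < s - η ^ 2 := by
      have h1 : η ^ 2 < s := by
        rw [← sq_abs, ← Real.sq_sqrt hs.le]
        exact pow_lt_pow_left₀ hη (abs_nonneg η) two_ne_zero
      linarith
    unfold Psi
    refine ((pp_slope r ξ η).const_mul A).add ((pp_zero (r 0) (ξ 0) η).const_mul e) |>.add ?_
    refine HasDerivAt.fun_sum fun v _ => ?_
    exact (hasDerivAt_FF M _).comp η (pp_load b r ξ s v η hpos)
  have hg : HasDerivAt (fun η : ℝ =>
      A * (2 * ∑ i : Fin N, (r i.succ + η * ξ i.succ - (r i.castSucc + η * ξ i.castSucc) - 1) *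
        (ξ i.succ - ξ i.castSucc)) + e * (2 * (r 0 + η * ξ 0) * ξ 0) +
        ∑ v ∈ V, Fp M (load b (fun q => r q + η * ξ q) (s - η ^ 2) v) * ppLd b r ξ s v η)
      (A * (2 * dirE ξ) + e * (2 * (ξ 0) ^ 2) + ∑ v ∈ V,
        (tent M (load b r s v) * (grad1 b r s v ξ) ^ 2 +
        Fp M (load b r s v) * ∑ q, ((ξ q) ^ 2 - 1) * gau2 s (v - r q - b q))) 0 := by
    refine ((pp_slope' r ξ 0).const_mul A).add ((pp_zero' (r 0) (ξ 0) 0).const_mul e) |>.add ?_
    refine HasDerivAt.fun_sum fun v _ => ?_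
    have h1 := pp_load b r ξ s v 0 (by rw [hs0]; exact hs)
    have h2 := (hasDerivAt_Fp M (load b (fun q => r q + 0 * ξ q) (s - 0 ^ 2) v)).comp (0 : ℝ) h1
    have h3 := h2.mul (pp_load' b r ξ s v hs)
    refine h3.congr_deriv ?_
    simp only [Function.comp, hr0, hs0, pp_load0]
    ring
  obtain ⟨η₀, hη₀, hmain⟩ := peano (Real.sqrt_pos.2 hs) hf hg hε
  refine ⟨η₀, hη₀, fun η hη => ?_⟩
  have h1 := hmain η hη
  simp only [hr0, hs0, pp_load0] at h1
  refine h1.trans (le_of_eq ?_)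
  unfold linP Qf
  have e1 : (∑ i : Fin N, (r i.succ + 0 * ξ i.succ - (r i.castSucc + 0 * ξ i.castSucc) - 1) *
        (ξ i.succ - ξ i.castSucc)) = ∑ i : Fin N, (r i.succ - r i.castSucc - 1) *
        (ξ i.succ - ξ i.castSucc) := by
    refine Finset.sum_congr rfl fun i _ => ?_
    ring
  have e2 : (∑ v ∈ V, Fp M (load b r s v) * -grad1 b r s v ξ) =
      - ∑ v ∈ V, Fp M (load b r s v) * grad1 b r s v ξ := by
    rw [← Finset.sum_neg_distrib]
    refine Finset.sum_congr rfl fun v _ => ?_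
    ring
  rw [e1, e2, Finset.sum_add_distrib]
  ring

end Pool.Agent.Lib.HAP
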