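import Mathlib

/-!
MODULE Rad: Rademacher sums over `Fin J → Bool`.

PROOF.  Induction on `J` (`Fin.consEquiv` / `Fin.consPiProd`...), or: flipping one coordinate is an
involution of the sign vectors, so `∑ σ, sg (σ j) = 0` and `∑ σ, sg (σ j) * sg (σ k) = 0` for `j ≠ k`,
and `sg _ ^ 2 = 1`.
-/

namespace Pool.Agent.Lib.HAP

open Finset

/-- The sign of a Boolean. -/
def sg (t : Bool) : ℝ := if t then 1 else -1

private theorem Rad_sg_not (t : Bool) : sg (!t) = - sg t := by
  cases t <;> simp [sg]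

private theorem Rad_sg_sq (t : Bool) : sg t * sg t = 1 := by
  cases t <;> simp [sg]

private def Rad_flip {J : ℕ} (j : Fin J) : (Fin J → Bool) ≃ (Fin J → Bool) where
  toFun σ := Function.update σ j (!σ j)
  invFun σ := Function.update σ j (!σ j)
  left_inv σ := by simp
  right_inv σ := by simp

private theorem Rad_zero {J : ℕ} (j : Fin J) (f : (Fin J → Bool) → ℝ)
    (h : ∀ σ, f (Function.update σ j (!σ j)) = - f σ) : ∑ σ : Fin J → Bool, f σ = 0 := by
  have h1 : ∑ σ : Fin J → Bool, f σ = ∑ σ : Fin J → Bool, f (Rad_flip j σ) :=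
    (Equiv.sum_comp (Rad_flip j) f).symm
  have h2 : ∑ σ : Fin J → Bool, f (Rad_flip j σ) = - ∑ σ : Fin J → Bool, f σ := by
    rw [← Finset.sum_neg_distrib]
    exact Finset.sum_congr rfl fun σ _ => h σ
  linarith

theorem rad_sum {J : ℕ} (a : Fin J → ℝ) : ∑ σ : Fin J → Bool, ∑ j, sg (σ j) * a j = 0 := by
  rw [Finset.sum_comm]
  refine Finset.sum_eq_zero fun j _ => ?_
  apply Rad_zero j
  intro σ
  simp [Rad_sg_not]

theorem rad_sq {J : ℕ} (a : Fin J → ℝ) :
    ∑ σ : Fin J → Bool, (∑ j, sg (σ j) * a j) ^ 2 = 2 ^ J * ∑ j, (a j) ^ 2 := by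
  have h1 : ∀ σ : Fin J → Bool, (∑ j, sg (σ j) * a j) ^ 2
      = ∑ j, ∑ k, (sg (σ j) * a j) * (sg (σ k) * a k) := by
    intro σ
    rw [sq, Finset.sum_mul_sum]
  simp_rw [h1]
  rw [Finset.sum_comm, Finset.mul_sum]
  refine Finset.sum_congr rfl fun j _ => ?_
  rw [Finset.sum_comm, Finset.sum_eq_single j]
  · have : ∀ σ : Fin J → Bool, sg (σ j) * a j * (sg (σ j) * a j) = a j ^ 2 := by
      intro σ
      have := Rad_sg_sq (σ j)
      calc sg (σ j) * a j * (sg (σ j) * a j) = (sg (σ j) * sg (σ j)) * a j ^ 2 := by ring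
        _ = a j ^ 2 := by rw [this, one_mul]
    simp_rw [this]
    simp
  · intro k _ hk
    apply Rad_zero k
    intro σ
    rw [Function.update_self, Function.update_of_ne (Ne.symm hk), Rad_sg_not]
    ring
  · intro h
    exact absurd (Finset.mem_univ j) h

end Pool.Agent.Lib.HAP
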