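import Mathlib
import Pool.Agent.Lib.HAP.PsiPath
import Pool.Agent.Lib.HAP.Rad

/-!
MODULE Step: the local step.

PROOF.  For a sign vector `σ : Fin J → Bool` let `ξ σ q = ∑ j, sg (σ j) * x j q`.  `psi_path` for each of
the `2^J` vectors `ξ σ` with error `ε` (take the minimum `η₀` of the finitely many bounds).  Let
`h₀ = η₀^2`, `h < h₀`, `η = √h`.  Sum the inequalities over `σ`:
* `linP` is linear in `ξ`, so `∑ σ, linP (ξ σ) = 0` (`rad_sum`; write `linP (ξ σ) = ∑ j, sg (σ j) * linP (x j)`);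
* `∑ σ, Qf (ξ σ) = 2^J ∑ j, Qf (x j)`: `Qf` is a sum of squares of linear functionals with constant
  coefficients (`rad_sq`);
* `∑ σ, ((ξ σ q)^2 - 1) = 2^J (∑ j, (x j q)^2 - 1) = 0` (`rad_sq`, `hx`), so the term with `gau2` vanishes
  after summation (exchange the sums; the coefficient `Fp M (load b r s v) * gau2 ..` does not depend on `σ`).
So the mean of `Psi (r + η ξ σ) (s - h)` over `σ` is at most `Psi r s + h (∑ j, Qf (x j) + ε)`, and some `σ`
is at most the mean (`Finset.exists_le_of_sum_le`).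
-/

namespace Pool.Agent.Lib.HAP

open Finset

private theorem st_lin {N : ℕ} (A e M : ℝ) (V : Finset ℤ) (b r : Fin (N + 1) → ℝ) (s : ℝ)
    {J : ℕ} (x : Fin J → Fin (N + 1) → ℝ) (c : Fin J → ℝ) :
    linP A e M V b r s (fun q => ∑ j, c j * x j q) = ∑ j, c j * linP A e M V b r s (x j) := by
  unfold linP grad1
  have h1 : ∑ i : Fin N, (r i.succ - r i.castSucc - 1) *
      (∑ j, c j * x j i.succ - ∑ j, c j * x j i.castSucc) =
      ∑ j, c j * ∑ i : Fin N, (r i.succ - r i.castSucc - 1) * (x j i.succ - x j i.castSucc) := by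
    simp only [← sum_sub_distrib, mul_sum]
    rw [sum_comm]
    refine sum_congr rfl fun j _ => sum_congr rfl fun i _ => ?_
    ring
  have h2 : ∑ v ∈ V, Fp M (load b r s v) * ∑ q, (∑ j, c j * x j q) * gau1 s (v - r q - b q) =
      ∑ j, c j * ∑ v ∈ V, Fp M (load b r s v) * ∑ q, x j q * gau1 s (v - r q - b q) := by
    have h3 : ∀ v : ℤ, ∑ q, (∑ j, c j * x j q) * gau1 s (v - r q - b q) =
        ∑ j, c j * ∑ q, x j q * gau1 s (v - r q - b q) := by
      intro v
      simp only [sum_mul, mul_sum]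
      rw [sum_comm]
      refine sum_congr rfl fun j _ => sum_congr rfl fun q _ => ?_
      ring
    rw [sum_congr rfl fun v _ => by rw [h3 v, mul_sum], sum_comm]
    refine sum_congr rfl fun j _ => ?_
    rw [mul_sum]
    refine sum_congr rfl fun v _ => ?_
    ring
  rw [h1, h2, mul_sum, mul_sum, ← sum_add_distrib, ← sum_sub_distrib]
  refine sum_congr rfl fun j _ => ?_
  ring

private theorem st_qf {N : ℕ} (A e M : ℝ) (V : Finset ℤ) (b r : Fin (N + 1) → ℝ) (s : ℝ)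
    {J : ℕ} (x : Fin J → Fin (N + 1) → ℝ) :
    ∑ σ : Fin J → Bool, Qf A e M V b r s (fun q => ∑ j, sg (σ j) * x j q) =
      2 ^ J * ∑ j, Qf A e M V b r s (x j) := by
  unfold Qf
  have h1 : ∑ σ : Fin J → Bool, dirE (fun q => ∑ j, sg (σ j) * x j q) =
      2 ^ J * ∑ j, dirE (x j) := by
    unfold dirE
    rw [sum_comm]
    have h2 : ∀ i : Fin N, ∑ σ : Fin J → Bool,
        (∑ j, sg (σ j) * x j i.succ - ∑ j, sg (σ j) * x j i.castSucc) ^ 2 =
        2 ^ J * ∑ j, (x j i.succ - x j i.castSucc) ^ 2 := by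
      intro i
      rw [← rad_sq fun j => x j i.succ - x j i.castSucc]
      refine sum_congr rfl fun σ _ => ?_
      rw [← sum_sub_distrib]
      congr 1
      refine sum_congr rfl fun j _ => ?_
      ring
    rw [sum_congr rfl fun i _ => h2 i, ← mul_sum, sum_comm]
  have h3 : ∑ σ : Fin J → Bool, (∑ j, sg (σ j) * x j 0) ^ 2 = 2 ^ J * ∑ j, (x j 0) ^ 2 :=
    rad_sq fun j => x j 0
  have h4 : ∀ v : ℤ, ∑ σ : Fin J → Bool,
      (grad1 b r s v (fun q => ∑ j, sg (σ j) * x j q)) ^ 2 =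
      2 ^ J * ∑ j, (grad1 b r s v (x j)) ^ 2 := by
    intro v
    rw [← rad_sq fun j => grad1 b r s v (x j)]
    refine sum_congr rfl fun σ _ => ?_
    congr 1
    unfold grad1
    simp only [sum_mul, mul_sum]
    rw [sum_comm]
    refine sum_congr rfl fun j _ => sum_congr rfl fun q _ => ?_
    ring
  have h5 : ∑ σ : Fin J → Bool, ∑ v ∈ V, tent M (load b r s v) *
      (grad1 b r s v (fun q => ∑ j, sg (σ j) * x j q)) ^ 2 =
      2 ^ J * ∑ j, ∑ v ∈ V, tent M (load b r s v) * (grad1 b r s v (x j)) ^ 2 := by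
    rw [sum_comm]
    have h6 : ∀ v ∈ V, ∑ σ : Fin J → Bool, tent M (load b r s v) *
        (grad1 b r s v (fun q => ∑ j, sg (σ j) * x j q)) ^ 2 =
        2 ^ J * ∑ j, tent M (load b r s v) * (grad1 b r s v (x j)) ^ 2 := by
      intro v _
      rw [← mul_sum, h4 v, mul_sum, mul_sum, mul_sum]
      refine sum_congr rfl fun j _ => ?_
      ring
    rw [sum_congr rfl h6, ← mul_sum, sum_comm]
  simp only [sum_add_distrib, ← mul_sum]
  rw [h1, h3, h5]
  ring

private theorem st_gau {N : ℕ} (M : ℝ) (V : Finset ℤ) (b r : Fin (N + 1) → ℝ) (s : ℝ)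
    {J : ℕ} (x : Fin J → Fin (N + 1) → ℝ) (hx : ∀ q, ∑ j, (x j q) ^ 2 = 1) :
    ∑ σ : Fin J → Bool, (1 / 2 * ∑ v ∈ V, Fp M (load b r s v) *
      ∑ q, ((∑ j, sg (σ j) * x j q) ^ 2 - 1) * gau2 s (v - r q - b q)) = 0 := by
  have h1 : ∀ q, ∑ σ : Fin J → Bool, ((∑ j, sg (σ j) * x j q) ^ 2 - 1) = 0 := by
    intro q
    rw [sum_sub_distrib, rad_sq fun j => x j q, hx q]
    simp
  rw [← mul_sum, sum_comm]
  have h2 : ∀ v ∈ V, ∑ σ : Fin J → Bool, Fp M (load b r s v) *
      ∑ q, ((∑ j, sg (σ j) * x j q) ^ 2 - 1) * gau2 s (v - r q - b q) = 0 := by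
    intro v _
    rw [← mul_sum, sum_comm]
    have h3 : ∀ q ∈ (univ : Finset (Fin (N + 1))), ∑ σ : Fin J → Bool,
        ((∑ j, sg (σ j) * x j q) ^ 2 - 1) * gau2 s (v - r q - b q) = 0 := by
      intro q _
      rw [← sum_mul, h1 q, zero_mul]
    rw [sum_eq_zero h3, mul_zero]
  rw [sum_eq_zero h2, mul_zero]

theorem local_step {N : ℕ} (A e M : ℝ) (hM : 0 < M) (V : Finset ℤ) (b r : Fin (N + 1) → ℝ) (s : ℝ)
    (hs : 0 < s) {J : ℕ} (x : Fin J → Fin (N + 1) → ℝ) (hx : ∀ q, ∑ j, (x j q) ^ 2 = 1)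
    {ε : ℝ} (hε : 0 < ε) :
    ∃ h₀ > 0, ∀ h, 0 < h → h < h₀ → ∃ r' : Fin (N + 1) → ℝ,
      Psi A e M V b r' (s - h) ≤ Psi A e M V b r s + h * (∑ j, Qf A e M V b r s (x j) + ε) := by
  classical
  choose η₀ hη₀ hstep using fun σ : Fin J → Bool =>
    psi_path A e M hM V b r (fun q => ∑ j, sg (σ j) * x j q) s hs hε
  obtain ⟨m, hm0, hm⟩ : ∃ m : ℝ, 0 < m ∧ ∀ σ, m ≤ η₀ σ := by
    have hne : (univ : Finset (Fin J → Bool)).Nonempty := ⟨fun _ => true, mem_univ _⟩
    refine ⟨univ.inf' hne η₀, ?_, fun σ => inf'_le _ (mem_univ σ)⟩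
    rw [lt_inf'_iff]
    exact fun σ _ => hη₀ σ
  refine ⟨m ^ 2, by positivity, fun h h0 hlt => ?_⟩
  obtain ⟨η, hηdef⟩ : ∃ η : ℝ, η = Real.sqrt h := ⟨_, rfl⟩
  have hη0 : 0 ≤ η := by rw [hηdef]; exact Real.sqrt_nonneg _
  have hη2 : η ^ 2 = h := by rw [hηdef]; exact Real.sq_sqrt h0.le
  have hηm : |η| < m := by
    rw [abs_of_nonneg hη0, hηdef]
    exact (Real.sqrt_lt' hm0).2 hlt
  have hlin : ∑ σ : Fin J → Bool,
      linP A e M V b r s (fun q => ∑ j, sg (σ j) * x j q) = 0 := by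
    simp only [st_lin]
    exact rad_sum fun j => linP A e M V b r s (x j)
  have hsum : ∑ σ : Fin J → Bool, Psi A e M V b
      (fun q => r q + η * ∑ j, sg (σ j) * x j q) (s - h) ≤
      ∑ _σ : Fin J → Bool, (Psi A e M V b r s + h * (∑ j, Qf A e M V b r s (x j) + ε)) := by
    calc ∑ σ : Fin J → Bool, Psi A e M V b
          (fun q => r q + η * ∑ j, sg (σ j) * x j q) (s - h)
        ≤ ∑ σ : Fin J → Bool, (Psi A e M V b r s +
            η * linP A e M V b r s (fun q => ∑ j, sg (σ j) * x j q) +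
            h * (Qf A e M V b r s (fun q => ∑ j, sg (σ j) * x j q) +
              1 / 2 * ∑ v ∈ V, Fp M (load b r s v) *
                ∑ q, ((∑ j, sg (σ j) * x j q) ^ 2 - 1) * gau2 s (v - r q - b q)) + ε * h) := by
          refine sum_le_sum fun σ _ => ?_
          have h1 := hstep σ η (lt_of_lt_of_le hηm (hm σ))
          rw [hη2] at h1
          exact h1
      _ = ∑ _σ : Fin J → Bool, (Psi A e M V b r s + h * (∑ j, Qf A e M V b r s (x j) + ε)) := by
          simp only [sum_add_distrib, ← mul_sum, mul_add]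
          rw [hlin]
          have h2 := st_gau M V b r s x hx
          rw [← mul_sum] at h2
          rw [st_qf, h2]
          simp only [sum_const, card_univ, Fintype.card_fun, Fintype.card_bool, Fintype.card_fin,
            nsmul_eq_mul]
          push_cast
          ring
  obtain ⟨σ, _, hσ⟩ := exists_le_of_sum_le ⟨fun _ => true, mem_univ _⟩ hsum
  exact ⟨_, hσ⟩

end Pool.Agent.Lib.HAP
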