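import Mathlib
import Pool.Agent.Lib.HAP.Step
import Pool.Agent.Lib.HAP.Dual
import Pool.Agent.Lib.HAP.PsiCont

/-!
MODULE Descend: continuous induction from `s = s₀` down to `s = 1`.

PROOF.  Put `δ = 1 / s₀` (so `δ s₀ = 1`) and `T s = B₀ + κ log (s₀ / s) + (c₀ + δ)(s₀ - s)`.
Let `X = {s ∈ [1, s₀] | ∃ r, Psi A e M V b r s ≤ T s}`; `s₀ ∈ X`.  Let `s⋆ = sInf X ≥ 1`.
(a) `s⋆ ∈ X`: take `s_k ∈ X`, `s_k → s⋆`, and `r_k`; `T s_k ≤ B := B₀ + κ log s₀ + (c₀ + δ) s₀`, so the `r_k`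
lie in a compact set (`bounded_of_Psi_le`), a subsequence converges to some `r`, and
`Psi r s⋆ ≤ T s⋆` by continuity (`continuousOn_Psi`; `T` is continuous on `[1, s₀]`).
(b) if `s⋆ > 1`: let `r` be as in (a).  By `hQ` and `dual` (with `Q = Qf A e M V b r s⋆`, which is
2-homogeneous: `Qf (c • x) = c^2 Qf x`, and error `δ/4`) there are `x_j` with `∑_j (x_j q)^2 = 1` and
`∑_j Qf (x_j) ≤ κ / s⋆ + c₀ + δ/4`.  By `local_step` (error `δ/4`) for all small `h > 0` there is `r'` with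
`Psi r' (s⋆ - h) ≤ T s⋆ + h (κ / s⋆ + c₀ + δ/2) ≤ T (s⋆ - h)`, because
`log (s₀/(s⋆ - h)) - log (s₀/s⋆) = - log (1 - h/s⋆) ≥ h / s⋆`.  With `h ≤ s⋆ - 1` this gives
`s⋆ - h ∈ X`, contradiction.  So `s⋆ = 1`, and `T 1 ≤ B₀ + κ log s₀ + c₀ s₀ + 1`.
-/

namespace Pool.Agent.Lib.HAP

open Finset

private theorem desc_hom {N : ℕ} (A e M : ℝ) (V : Finset ℤ) (b r : Fin (N + 1) → ℝ) (s c : ℝ)
    (x : Fin (N + 1) → ℝ) : Qf A e M V b r s (c • x) = c ^ 2 * Qf A e M V b r s x := by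
  have h1 : dirE (c • x) = c ^ 2 * dirE x := by
    unfold dirE
    rw [Finset.mul_sum]
    refine Finset.sum_congr rfl fun i _ => ?_
    simp only [Pi.smul_apply, smul_eq_mul]
    ring
  have h2 : ∀ v, grad1 b r s v (c • x) = c * grad1 b r s v x := by
    intro v
    unfold grad1
    rw [Finset.mul_sum]
    refine Finset.sum_congr rfl fun i _ => ?_
    simp only [Pi.smul_apply, smul_eq_mul]
    ring
  unfold Qf
  rw [h1]
  have h3 : ∑ v ∈ V, tent M (load b r s v) * (grad1 b r s v (c • x)) ^ 2 =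
      c ^ 2 * ∑ v ∈ V, tent M (load b r s v) * (grad1 b r s v x) ^ 2 := by
    rw [Finset.mul_sum]
    refine Finset.sum_congr rfl fun v _ => ?_
    rw [h2]
    ring
  rw [h3]
  simp only [Pi.smul_apply, smul_eq_mul]
  ring

/-- The time budget. -/
private noncomputable def descT (s₀ κ c₀ B₀ s : ℝ) : ℝ :=
  B₀ + κ * Real.log (s₀ / s) + (c₀ + 1 / s₀) * (s₀ - s)

private theorem desc_mono {s₀ κ c₀ B₀ s h : ℝ} (hs₀ : 0 < s₀) (hκ : 0 ≤ κ) (hs : 0 < s)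
    (hh : h < s) : descT s₀ κ c₀ B₀ s + h * (κ / s + c₀ + 1 / s₀) ≤
      descT s₀ κ c₀ B₀ (s - h) := by
  have h1 : 0 < s - h := by linarith
  have h2 : Real.log ((s - h) / s) ≤ (s - h) / s - 1 := Real.log_le_sub_one_of_pos (by positivity)
  have h3 : (s - h) / s - 1 = -(h / s) := by
    field_simp
    ring
  rw [h3, Real.log_div h1.ne' hs.ne'] at h2
  unfold descT
  rw [Real.log_div hs₀.ne' hs.ne', Real.log_div hs₀.ne' h1.ne']
  have h4 : κ * (h / s) ≤ κ * (Real.log s - Real.log (s - h)) :=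
    mul_le_mul_of_nonneg_left (by linarith) hκ
  have h5 : h * (κ / s) = κ * (h / s) := by ring
  nlinarith [h4, h5]

private theorem desc_bd {s₀ κ c₀ B₀ s : ℝ} (hs₀ : 1 ≤ s₀) (hκ : 0 ≤ κ) (hc₀ : 0 ≤ c₀)
    (hs : 1 ≤ s) :
    descT s₀ κ c₀ B₀ s ≤ B₀ + κ * Real.log s₀ + c₀ * s₀ + 1 := by
  have h0 : 0 < s₀ := by linarith
  have hs0 : 0 < s := by linarith
  unfold descT
  have h1 : Real.log (s₀ / s) ≤ Real.log s₀ :=
    Real.log_le_log (by positivity) (div_le_self h0.le hs)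
  have h2 : κ * Real.log (s₀ / s) ≤ κ * Real.log s₀ := mul_le_mul_of_nonneg_left h1 hκ
  have h3 : (c₀ + 1 / s₀) * (s₀ - s) ≤ (c₀ + 1 / s₀) * s₀ :=
    mul_le_mul_of_nonneg_left (by linarith) (by positivity)
  have h4 : (c₀ + 1 / s₀) * s₀ = c₀ * s₀ + 1 := by
    field_simp
  linarith

private theorem desc_cont {s₀ κ c₀ B₀ : ℝ} (hs₀ : 0 < s₀) :
    ContinuousOn (descT s₀ κ c₀ B₀) (Set.Icc 1 s₀) := by
  have h1 : ContinuousOn (fun s : ℝ => Real.log (s₀ / s)) (Set.Icc 1 s₀) := by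
    refine ContinuousOn.log ?_ ?_
    · refine ContinuousOn.div continuousOn_const continuousOn_id ?_
      intro s hs
      have h2 : (1 : ℝ) ≤ s := hs.1
      exact (show (0 : ℝ) < s by linarith).ne'
    · intro s hs
      have := hs.1
      have h2 : 0 < s := by linarith
      exact (div_pos hs₀ h2).ne'
  unfold descT
  exact (continuousOn_const.add (continuousOn_const.mul h1)).add
    (continuousOn_const.mul (continuousOn_const.sub continuousOn_id))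

theorem descend {N : ℕ} {A e M : ℝ} (hA : 0 < A) (he : 0 < e) (hM : 0 < M) (V : Finset ℤ)
    (b : Fin (N + 1) → ℝ) {s₀ κ c₀ B₀ : ℝ} (hs₀ : 1 ≤ s₀) (hκ : 0 ≤ κ) (hc₀ : 0 ≤ c₀)
    (hQ : ∀ s, 1 ≤ s → s ≤ s₀ → ∀ r d : Fin (N + 1) → ℝ,
      (∀ x, ∑ q, d q * (x q) ^ 2 ≤ Qf A e M V b r s x) → ∑ q, d q ≤ κ / s + c₀)
    (r₀ : Fin (N + 1) → ℝ) (h₀ : Psi A e M V b r₀ s₀ ≤ B₀) :
    ∃ r : Fin (N + 1) → ℝ, Psi A e M V b r 1 ≤ B₀ + κ * Real.log s₀ + c₀ * s₀ + 1 := by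
  have hs0 : 0 < s₀ := by linarith
  set B : ℝ := B₀ + κ * Real.log s₀ + c₀ * s₀ + 1 with hB
  set R : ℝ := Real.sqrt (B / e) + N * (1 + Real.sqrt (B / A)) with hR
  set K : Set (ℝ × (Fin (N + 1) → ℝ)) :=
    Set.Icc 1 s₀ ×ˢ Set.pi Set.univ (fun _ => Set.Icc (-R) R) with hK
  have hKc : IsCompact K := isCompact_Icc.prod (isCompact_univ_pi fun _ => isCompact_Icc)
  set f : ℝ × (Fin (N + 1) → ℝ) → ℝ :=
    fun p => Psi A e M V b p.2 p.1 - descT s₀ κ c₀ B₀ p.1 with hf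
  have hfc : ContinuousOn f K := by
    refine ContinuousOn.sub ?_ ?_
    · refine (continuousOn_Psi A e M V b).mono ?_
      rintro p ⟨hp, -⟩
      have h2 : (1 : ℝ) ≤ p.1 := hp.1
      exact (show (0 : ℝ) < p.1 by linarith)
    · refine (desc_cont hs0).comp continuousOn_fst ?_
      rintro p ⟨hp, -⟩
      exact hp
  have hCc : IsCompact (K ∩ f ⁻¹' Set.Iic 0) :=
    hKc.of_isClosed_subset (hfc.preimage_isClosed_of_isClosed hKc.isClosed isClosed_Iic)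
      Set.inter_subset_left
  -- membership
  have hmem : ∀ s r, 1 ≤ s → s ≤ s₀ → Psi A e M V b r s ≤ descT s₀ κ c₀ B₀ s →
      (s, r) ∈ K ∩ f ⁻¹' Set.Iic 0 := by
    intro s r h1 h2 h3
    have h4 : Psi A e M V b r s ≤ B := h3.trans (desc_bd hs₀ hκ hc₀ h1)
    have h5 := bounded_of_Psi_le hA he hM V b r (by linarith) h4
    refine ⟨⟨⟨h1, h2⟩, fun q _ => abs_le.mp (h5 q)⟩, ?_⟩
    simp only [hf, Set.mem_preimage, Set.mem_Iic]
    linarith
  have hXc : IsCompact (Prod.fst '' (K ∩ f ⁻¹' Set.Iic 0)) := hCc.image continuous_fst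
  have hXn : (Prod.fst '' (K ∩ f ⁻¹' Set.Iic 0)).Nonempty := by
    refine ⟨s₀, (s₀, r₀), hmem s₀ r₀ hs₀ le_rfl ?_, rfl⟩
    unfold descT
    rw [div_self hs0.ne', Real.log_one]
    linarith
  obtain ⟨⟨t, r⟩, ⟨⟨ht, -⟩, hft⟩, hts⟩ := hXc.sInf_mem hXn
  have hlow : ∀ s ∈ Prod.fst '' (K ∩ f ⁻¹' Set.Iic 0), t ≤ s := by
    intro s hs
    have h1 := csInf_le hXc.bddBelow hs
    rw [← hts] at h1
    exact h1
  simp only [hf, Set.mem_preimage, Set.mem_Iic] at hft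
  simp only at ht
  rcases eq_or_lt_of_le ht.1 with h1 | h1
  · refine ⟨r, ?_⟩
    rw [← h1] at hft
    have h2 := desc_bd (B₀ := B₀) hs₀ hκ hc₀ (le_refl (1 : ℝ))
    linarith
  · exfalso
    have ht0 : 0 < t := by linarith
    have hδ : 0 < 1 / s₀ / 4 := by positivity
    obtain ⟨J, x, hx1, hx2⟩ := dual (Qf A e M V b r t) (fun c x => desc_hom A e M V b r t c x)
      (c := κ / t + c₀) (fun d hd => hQ t ht.1 ht.2 r d hd) hδ
    obtain ⟨h₁, hh₁, hst⟩ := local_step A e M hM V b r t ht0 x hx1 hδ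
    set h : ℝ := min (h₁ / 2) (t - 1) with hh
    have hpos : 0 < h := lt_min (by linarith) (by linarith)
    have hlt : h < h₁ := lt_of_le_of_lt (min_le_left _ _) (by linarith)
    have hle : h ≤ t - 1 := min_le_right _ _
    obtain ⟨r', hr'⟩ := hst h hpos hlt
    have h2 : Psi A e M V b r' (t - h) ≤ descT s₀ κ c₀ B₀ (t - h) := by
      refine le_trans ?_ (desc_mono (c₀ := c₀) (B₀ := B₀) hs0 hκ ht0 (by linarith))
      have h3 : h * (∑ j, Qf A e M V b r t (x j) + 1 / s₀ / 4) ≤ h * (κ / t + c₀ + 1 / s₀) :=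
        mul_le_mul_of_nonneg_left (by linarith) hpos.le
      linarith
    have h3 := hlow (t - h) ⟨(t - h, r'), hmem _ _ (by linarith) (by linarith [ht.2]) h2, rfl⟩
    linarith

end Pool.Agent.Lib.HAP
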