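import Mathlib

/-!
MODULE Choose: choice of well separated positions with few close weights.

DATA: `Q` positions `0, .., Q-1`, weights `W q`, a set `G` of good positions, at most `Q/10` positions are
not in `G`, and every `q ∈ G` has at most `κ` positions `q' < Q` with `|W q' - W q| ≤ 1`.

PROOF.  `S = Q / (2 s)` (integer division; `S ≥ 4` by `hQ`), blocks `B_i = [2 s i, 2 s i + s)`, `i < S`.
A block is full if `|G ∩ B_i| ≥ s/2`.  A block which is not full contains at least `s/2` positions outside
`G`, so there are at most `Q/(5 s) ≤ 2 (S+1)/5` of them and at least `S/2` full blocks (`S ≥ 4`).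
For `q ∈ G`: `#{q' ∈ G : |W q' - W q| ≤ s} ≤ (2 s + 1) κ`.  The mean over the choices `u_i ∈ G ∩ B_i` of the
number of close pairs is at most `6 κ S`; the positions are chosen one after the other (conditional means).
At most a quarter of the indices `i` have more than `24 κ` close `j`; enumerate the remaining `u_i`.
-/

namespace Pool.Agent.Lib.HAP

open Finset

/-- mean of `f` over `A` -/
private noncomputable def chooseE (A : Finset ℕ) (f : ℕ → ℝ) : ℝ := (∑ x ∈ A, f x) / (A.card : ℝ)

private theorem chooseE_exists {A : Finset ℕ} (hA : A.Nonempty) (f : ℕ → ℝ) :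
    ∃ x ∈ A, f x ≤ chooseE A f := by
  by_contra h
  push Not at h
  have hc : (A.card : ℝ) ≠ 0 := by
    have := hA.card_pos
    positivity
  have h1 : ∑ _y ∈ A, chooseE A f < ∑ y ∈ A, f y := Finset.sum_lt_sum_of_nonempty hA h
  rw [sum_const, nsmul_eq_mul] at h1
  unfold chooseE at h1
  rw [mul_div_cancel₀ _ hc] at h1
  exact lt_irrefl _ h1

private theorem chooseE_add (A : Finset ℕ) (f g : ℕ → ℝ) :
    chooseE A (fun x => f x + g x) = chooseE A f + chooseE A g := by
  unfold chooseE
  rw [sum_add_distrib, add_div]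

private theorem chooseE_sum (A : Finset ℕ) (I : Finset ℕ) (f : ℕ → ℕ → ℝ) :
    chooseE A (fun x => ∑ j ∈ I, f j x) = ∑ j ∈ I, chooseE A (f j) := by
  unfold chooseE
  rw [sum_comm, sum_div]

private theorem chooseE_comm (A B : Finset ℕ) (f : ℕ → ℕ → ℝ) :
    chooseE A (fun x => chooseE B (fun y => f x y)) =
      chooseE B (fun y => chooseE A (fun x => f x y)) := by
  unfold chooseE
  rw [← sum_div, ← sum_div, sum_comm, div_div, div_div, mul_comm]

private theorem choose_pick (A : ℕ → Finset ℕ) (c : ℕ → ℕ → ℕ → ℕ → ℝ)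
    (hc : ∀ i x y, c i i x y = 0) (I : Finset ℕ) :
    ∀ (_ : ∀ i ∈ I, (A i).Nonempty) (b : ℕ → ℕ → ℝ), ∃ u : ℕ → ℕ, (∀ i ∈ I, u i ∈ A i) ∧
      ∑ i ∈ I, b i (u i) + ∑ i ∈ I, ∑ j ∈ I, c i j (u i) (u j) ≤
        ∑ i ∈ I, chooseE (A i) (b i) +
          ∑ i ∈ I, ∑ j ∈ I, chooseE (A i) (fun x => chooseE (A j) (fun y => c i j x y)) := by
  classical
  induction I using Finset.induction_on with
  | empty => intro _ b; exact ⟨fun _ => 0, by simp, by simp⟩
  | @insert a I ha ih =>
    intro hne b
    set g : ℕ → ℝ := fun x => b a x + ∑ j ∈ I, chooseE (A j) (fun y => c a j x y + c j a y x) with hg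
    obtain ⟨x, hxA, hx⟩ := chooseE_exists (hne a (mem_insert_self a I)) g
    obtain ⟨u, hu, hle⟩ := ih (fun i hi => hne i (mem_insert_of_mem hi))
      (fun j y => b j y + (c a j x y + c j a y x))
    refine ⟨Function.update u a x, ?_, ?_⟩
    · intro i hi
      by_cases hia : i = a
      · subst hia
        simpa using hxA
      · rw [Function.update_of_ne hia]
        exact hu i ((mem_insert.1 hi).resolve_left hia)
    · have hupd : ∀ i ∈ I, Function.update u a x i = u i := by
        intro i hi
        have hia : i ≠ a := fun h => ha (h ▸ hi)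
        rw [Function.update_of_ne hia]
      have e1 : ∑ i ∈ insert a I, b i (Function.update u a x i) = b a x + ∑ i ∈ I, b i (u i) := by
        rw [sum_insert ha, Function.update_self]
        congr 1
        exact sum_congr rfl fun i hi => by rw [hupd i hi]
      have e2 : ∑ i ∈ insert a I, ∑ j ∈ insert a I,
          c i j (Function.update u a x i) (Function.update u a x j) =
          ∑ j ∈ I, c a j x (u j) + ∑ i ∈ I, c i a (u i) x + ∑ i ∈ I, ∑ j ∈ I, c i j (u i) (u j) := by
        rw [sum_insert ha, sum_insert ha, Function.update_self, hc, zero_add]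
        have h1 : ∑ j ∈ I, c a j x (Function.update u a x j) = ∑ j ∈ I, c a j x (u j) :=
          sum_congr rfl fun i hi => by rw [hupd i hi]
        have h2 : ∑ i ∈ I, ∑ j ∈ insert a I,
            c i j (Function.update u a x i) (Function.update u a x j) =
            ∑ i ∈ I, (c i a (u i) x + ∑ j ∈ I, c i j (u i) (u j)) := by
          refine sum_congr rfl fun i hi => ?_
          rw [sum_insert ha, Function.update_self, hupd i hi]
          congr 1
          exact sum_congr rfl fun j hj => by rw [hupd j hj]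
        rw [h1, h2, sum_add_distrib]
        ring
      have e3 : ∑ i ∈ insert a I, ∑ j ∈ insert a I,
          chooseE (A i) (fun x => chooseE (A j) (fun y => c i j x y)) =
          ∑ j ∈ I, chooseE (A a) (fun x => chooseE (A j) (fun y => c a j x y)) +
          ∑ i ∈ I, chooseE (A i) (fun x => chooseE (A a) (fun y => c i a x y)) +
          ∑ i ∈ I, ∑ j ∈ I, chooseE (A i) (fun x => chooseE (A j) (fun y => c i j x y)) := by
        have h0 : chooseE (A a) (fun x => chooseE (A a) (fun y => c a a x y)) = 0 := by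
          simp [chooseE, hc]
        rw [sum_insert ha, sum_insert ha, h0, zero_add]
        have h2 : ∑ i ∈ I, ∑ j ∈ insert a I,
            chooseE (A i) (fun x => chooseE (A j) (fun y => c i j x y)) =
            ∑ i ∈ I, (chooseE (A i) (fun x => chooseE (A a) (fun y => c i a x y)) +
              ∑ j ∈ I, chooseE (A i) (fun x => chooseE (A j) (fun y => c i j x y))) := by
          refine sum_congr rfl fun i _ => ?_
          rw [sum_insert ha]
        rw [h2, sum_add_distrib]
        ring
      have e4 : chooseE (A a) g = chooseE (A a) (b a) +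
          ∑ j ∈ I, (chooseE (A a) (fun x => chooseE (A j) (fun y => c a j x y)) +
            chooseE (A j) (fun x => chooseE (A a) (fun y => c j a x y))) := by
        rw [hg, chooseE_add, chooseE_sum]
        congr 1
        refine sum_congr rfl fun j _ => ?_
        have : (fun x => chooseE (A j) (fun y => c a j x y + c j a y x)) =
            fun x => chooseE (A j) (fun y => c a j x y) + chooseE (A j) (fun y => c j a y x) := by
          funext x
          rw [chooseE_add]
        rw [this, chooseE_add]
        congr 1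
        exact chooseE_comm (A a) (A j) (fun x y => c j a y x)
      have e5 : ∑ i ∈ I, chooseE (A i) (fun y => b i y + (c a i x y + c i a y x)) =
          ∑ i ∈ I, chooseE (A i) (b i) + ∑ i ∈ I, chooseE (A i) (fun y => c a i x y + c i a y x) := by
        rw [← sum_add_distrib]
        exact sum_congr rfl fun i _ => chooseE_add _ _ _
      have e6 : ∑ i ∈ I, (b i (u i) + (c a i x (u i) + c i a (u i) x)) =
          ∑ i ∈ I, b i (u i) + (∑ j ∈ I, c a j x (u j) + ∑ i ∈ I, c i a (u i) x) := by
        rw [sum_add_distrib, sum_add_distrib]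
      rw [e5] at hle
      rw [e6] at hle
      rw [e1, e2, e3, sum_insert ha]
      rw [e4, sum_add_distrib] at hx
      have hgx : g x = b a x + ∑ j ∈ I, chooseE (A j) (fun y => c a j x y + c j a y x) := rfl
      rw [hgx] at hx
      linarith

private theorem choose_close {Q s κ : ℕ} (W : ℕ → ℝ) (G : Finset ℕ)
    (hG : G ⊆ range Q)
    (hκ : ∀ q ∈ G, ((range Q).filter fun q' => |W q' - W q| ≤ 1).card ≤ κ) (q : ℕ) :
    (G.filter fun q' => |W q' - W q| ≤ s).card ≤ (2 * s + 1) * κ := by
  classical
  set T := G.filter fun q' => |W q' - W q| ≤ s with hT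
  set f : ℕ → ℕ := fun q' => ⌊W q' - (W q - s)⌋₊ with hf
  have h1 : (T.image f).card ≤ 2 * s + 1 := by
    have : T.image f ⊆ range (2 * s + 1) := by
      intro n hn
      obtain ⟨q', hq', rfl⟩ := mem_image.1 hn
      have h2 := (mem_filter.1 hq').2
      rw [abs_le] at h2
      rw [mem_range, hf]
      simp only
      rw [Nat.lt_succ_iff]
      have : W q' - (W q - s) ≤ ((2 * s : ℕ) : ℝ) := by push_cast; linarith [h2.2]
      exact Nat.floor_le_of_le this
    calc (T.image f).card ≤ (range (2 * s + 1)).card := card_le_card this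
      _ = 2 * s + 1 := card_range _
  have h2 : T.card ≤ κ * (T.image f).card := by
    refine card_le_mul_card_image T κ ?_
    intro n hn
    obtain ⟨q0, hq0, hn0⟩ := mem_image.1 hn
    refine le_trans (card_le_card ?_) (hκ q0 (mem_filter.1 hq0).1)
    intro q' hq'
    obtain ⟨hq'T, hq'n⟩ := mem_filter.1 hq'
    refine mem_filter.2 ⟨hG (mem_filter.1 hq'T).1, ?_⟩
    have ha := (mem_filter.1 hq'T).2
    have hb := (mem_filter.1 hq0).2
    rw [abs_le] at ha hb
    have hf' : ⌊W q' - (W q - s)⌋₊ = n := hq'n
    have hf0 : ⌊W q0 - (W q - s)⌋₊ = n := hn0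
    have p1 : (0 : ℝ) ≤ W q' - (W q - s) := by linarith [ha.1]
    have p0 : (0 : ℝ) ≤ W q0 - (W q - s) := by linarith [hb.1]
    have l1 := Nat.floor_le p1
    have l0 := Nat.floor_le p0
    have u1 := Nat.lt_floor_add_one (W q' - (W q - s))
    have u0 := Nat.lt_floor_add_one (W q0 - (W q - s))
    rw [hf'] at l1 u1
    rw [hf0] at l0 u0
    rw [abs_le]
    constructor <;> linarith
  calc T.card ≤ κ * (T.image f).card := h2
    _ ≤ κ * (2 * s + 1) := Nat.mul_le_mul_left _ h1
    _ = (2 * s + 1) * κ := mul_comm _ _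

theorem choose {Q s κ : ℕ} (hs : 1 ≤ s) (hQ : 8 * s ≤ Q) (W : ℕ → ℝ) (G : Finset ℕ)
    (hG : G ⊆ range Q) (hGc : 10 * ((range Q) \ G).card ≤ Q)
    (hκ : ∀ q ∈ G, ((range Q).filter fun q' => |W q' - W q| ≤ 1).card ≤ κ) :
    ∃ (m : ℕ) (p : ℕ → ℕ), (Q : ℝ) / (16 * s) ≤ m + 1 ∧ (∀ k ≤ m, p k ∈ G) ∧
      (∀ k l, k < l → l ≤ m → p k + s ≤ p l) ∧
      ∀ k ≤ m, ((range (m + 1)).filter fun l => |W (p l) - W (p k)| ≤ s).card ≤ 24 * κ + 1 := by
  classical
  set S := Q / (2 * s) with hS
  have hs0 : 0 < 2 * s := by omega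
  have hS4 : 4 ≤ S := by
    rw [hS, Nat.le_div_iff_mul_le hs0]
    omega
  have hSQ : S * (2 * s) ≤ Q := Nat.div_mul_le_self _ _
  have hSQ' : Q < (S + 1) * (2 * s) := by
    have := Nat.lt_div_mul_add (a := Q) hs0
    rw [← hS] at this
    nlinarith
  -- blocks
  set B : ℕ → Finset ℕ := fun i => Ico (2 * s * i) (2 * s * i + s) with hB
  set A : ℕ → Finset ℕ := fun i => G ∩ B i with hA
  set I : Finset ℕ := (range S).filter fun i => s ≤ 2 * (A i).card with hI
  have hBcard : ∀ i, (B i).card = s := by
    intro i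
    simp [hB]
  have hBdisj : ∀ i j, i ≠ j → Disjoint (B i) (B j) := by
    intro i j hij
    rw [disjoint_left]
    intro x hx hy
    simp only [hB, mem_Ico] at hx hy
    rcases lt_or_gt_of_ne hij with h | h
    · have : 2 * s * (i + 1) ≤ 2 * s * j := Nat.mul_le_mul_left _ h
      nlinarith [hx.2, hy.1]
    · have : 2 * s * (j + 1) ≤ 2 * s * i := Nat.mul_le_mul_left _ h
      nlinarith [hx.1, hy.2]
  have hBsub : ∀ i < S, B i ⊆ range Q := by
    intro i hi x hx
    simp only [hB, mem_Ico] at hx
    rw [mem_range]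
    have : (i + 1) * (2 * s) ≤ S * (2 * s) := Nat.mul_le_mul_right _ hi
    nlinarith [hx.2]
  -- the number of blocks which are not full
  have hnf : (((range S) \ I).card) * s ≤ 2 * ((range Q) \ G).card := by
    have h1 : ∑ i ∈ (range S) \ I, (B i \ G).card ≤ ((range Q) \ G).card := by
      rw [← card_biUnion]
      · refine card_le_card ?_
        intro x hx
        obtain ⟨i, hi, hxi⟩ := mem_biUnion.1 hx
        obtain ⟨hxB, hxG⟩ := mem_sdiff.1 hxi
        exact mem_sdiff.2 ⟨hBsub i (mem_range.1 (mem_sdiff.1 hi).1) hxB, hxG⟩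
      · intro i _ j _ hij
        exact (hBdisj i j hij).mono sdiff_subset sdiff_subset
    have h2 : ∀ i ∈ (range S) \ I, s ≤ 2 * (B i \ G).card := by
      intro i hi
      obtain ⟨hiS, hiI⟩ := mem_sdiff.1 hi
      have h3 : ¬ s ≤ 2 * (A i).card := fun h => hiI (mem_filter.2 ⟨hiS, h⟩)
      have h4 : (B i \ G).card + (A i).card = s := by
        have := card_sdiff_add_card_inter (B i) G
        rw [hBcard] at this
        have e : A i = B i ∩ G := inter_comm _ _
        rw [e]
        exact this
      omega
    calc (((range S) \ I).card) * s = ∑ _i ∈ (range S) \ I, s := by rw [sum_const, smul_eq_mul]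
      _ ≤ ∑ i ∈ (range S) \ I, 2 * (B i \ G).card := sum_le_sum h2
      _ = 2 * ∑ i ∈ (range S) \ I, (B i \ G).card := by rw [mul_sum]
      _ ≤ 2 * ((range Q) \ G).card := Nat.mul_le_mul_left _ h1
  have hcard : ((range S) \ I).card + I.card = S := by
    have hsub : I ⊆ range S := filter_subset _ _
    have := card_sdiff_add_card_eq_card hsub
    rw [card_range] at this
    exact this
  have hIcard : S ≤ 2 * I.card := by
    -- 5 * nf * s ≤ Q < (S+1) 2 s
    have h1 : 5 * ((range S) \ I).card * s < (S + 1) * (2 * s) := by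
      calc 5 * ((range S) \ I).card * s = 5 * (((range S) \ I).card * s) := by ring
        _ ≤ 5 * (2 * ((range Q) \ G).card) := Nat.mul_le_mul_left _ hnf
        _ = 10 * ((range Q) \ G).card := by ring
        _ ≤ Q := hGc
        _ < (S + 1) * (2 * s) := hSQ'
    have h2 : 5 * ((range S) \ I).card < (S + 1) * 2 := by
      have : 5 * ((range S) \ I).card * s < (S + 1) * 2 * s := by
        calc 5 * ((range S) \ I).card * s < (S + 1) * (2 * s) := h1
          _ = (S + 1) * 2 * s := by ring
      exact lt_of_mul_lt_mul_right this (Nat.zero_le s)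
    omega
  have hAne : ∀ i ∈ I, (A i).Nonempty := by
    intro i hi
    have := (mem_filter.1 hi).2
    rw [← card_pos]
    omega
  -- the choice
  set c : ℕ → ℕ → ℕ → ℕ → ℝ := fun i j x y => if i = j then 0 else if |W y - W x| ≤ s then 1 else 0
    with hc
  obtain ⟨u, huA, hule⟩ := choose_pick A c (by intro i x y; simp [hc]) I hAne (fun _ _ => 0)
  have hsr : (1 : ℝ) ≤ s := by exact_mod_cast hs
  have hmean : ∑ i ∈ I, ∑ j ∈ I, chooseE (A i) (fun x => chooseE (A j) (fun y => c i j x y)) ≤
      6 * κ * I.card := by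
    have key : ∀ i ∈ I, ∑ j ∈ I, chooseE (A i) (fun x => chooseE (A j) (fun y => c i j x y)) ≤
        6 * κ := by
      intro i hi
      rw [← chooseE_sum (A i) I (fun j x => chooseE (A j) (fun y => c i j x y))]
      have hx : ∀ x, ∑ j ∈ I, chooseE (A j) (fun y => c i j x y) ≤ 6 * κ := by
        intro x
        have h1 : ∀ j ∈ I, chooseE (A j) (fun y => c i j x y) ≤
            (2 / s) * (((A j).filter fun y => |W y - W x| ≤ s).card : ℝ) := by
          intro j hj
          have hjc : (s : ℝ) ≤ 2 * (A j).card := by exact_mod_cast (mem_filter.1 hj).2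
          have hjp : (0 : ℝ) < (A j).card := by linarith
          have h2 : ∑ y ∈ A j, c i j x y ≤ (((A j).filter fun y => |W y - W x| ≤ s).card : ℝ) := by
            rw [card_filter]
            push_cast
            refine sum_le_sum fun y _ => ?_
            simp only [hc]
            split_ifs <;> norm_num
          unfold chooseE
          rw [div_le_iff₀ hjp]
          refine h2.trans ?_
          set n : ℝ := (((A j).filter fun y => |W y - W x| ≤ s).card : ℝ) with hn
          have hn0 : 0 ≤ n := by positivity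
          have h3 : 1 ≤ 2 / (s : ℝ) * (A j).card := by
            rw [div_mul_eq_mul_div, le_div_iff₀ (by linarith)]
            linarith
          calc n = n * 1 := (mul_one n).symm
            _ ≤ n * (2 / (s : ℝ) * (A j).card) := mul_le_mul_of_nonneg_left h3 hn0
            _ = 2 / (s : ℝ) * n * (A j).card := by ring
        have h4 : ∑ j ∈ I, (((A j).filter fun y => |W y - W x| ≤ s).card : ℝ) ≤
            ((2 * s + 1) * κ : ℝ) := by
          have h5 : ∑ j ∈ I, ((A j).filter fun y => |W y - W x| ≤ s).card ≤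
              (G.filter fun y => |W y - W x| ≤ s).card := by
            rw [← card_biUnion]
            · refine card_le_card ?_
              intro y hy
              obtain ⟨j, _, hyj⟩ := mem_biUnion.1 hy
              obtain ⟨hyA, hyc⟩ := mem_filter.1 hyj
              exact mem_filter.2 ⟨(mem_inter.1 hyA).1, hyc⟩
            · intro j _ k _ hjk
              refine (hBdisj j k hjk).mono ?_ ?_
              · exact (filter_subset _ _).trans inter_subset_right
              · exact (filter_subset _ _).trans inter_subset_right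
          have h6 := h5.trans (choose_close (s := s) W G hG hκ x)
          exact_mod_cast h6
        calc ∑ j ∈ I, chooseE (A j) (fun y => c i j x y)
            ≤ ∑ j ∈ I, (2 / s) * (((A j).filter fun y => |W y - W x| ≤ s).card : ℝ) :=
              sum_le_sum h1
          _ = (2 / s) * ∑ j ∈ I, (((A j).filter fun y => |W y - W x| ≤ s).card : ℝ) := by
              rw [mul_sum]
          _ ≤ (2 / s) * ((2 * s + 1) * κ) :=
              mul_le_mul_of_nonneg_left h4 (by positivity)
          _ ≤ 6 * κ := by
              have hk : (0 : ℝ) ≤ κ := by positivity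
              rw [div_mul_eq_mul_div, div_le_iff₀ (by linarith)]
              nlinarith
      have hip : (0 : ℝ) < (A i).card := by exact_mod_cast (hAne i hi).card_pos
      unfold chooseE at hx ⊢
      rw [div_le_iff₀ hip]
      calc ∑ x ∈ A i, ∑ j ∈ I, (∑ y ∈ A j, c i j x y) / ((A j).card : ℝ)
          ≤ ∑ _x ∈ A i, (6 * κ : ℝ) := sum_le_sum fun x _ => hx x
        _ = 6 * κ * (A i).card := by rw [sum_const, nsmul_eq_mul, mul_comm]
    calc ∑ i ∈ I, ∑ j ∈ I, chooseE (A i) (fun x => chooseE (A j) (fun y => c i j x y))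
        ≤ ∑ _i ∈ I, (6 * κ : ℝ) := sum_le_sum key
      _ = 6 * κ * I.card := by rw [sum_const, nsmul_eq_mul, mul_comm]
  -- degrees
  set dg : ℕ → ℕ := fun i => (I.filter fun j => i ≠ j ∧ |W (u j) - W (u i)| ≤ s).card with hdg
  have hdsum : (∑ i ∈ I, dg i : ℝ) ≤ 6 * κ * I.card := by
    have h0 : ∑ i ∈ I, (fun _ _ => (0 : ℝ)) i (u i) = 0 := by simp
    have h00 : ∑ i ∈ I, chooseE (A i) ((fun _ _ => (0 : ℝ)) i) = 0 := by simp [chooseE]
    rw [h0, h00, zero_add, zero_add] at hule
    refine le_trans (le_of_eq ?_) (hule.trans hmean)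
    refine sum_congr rfl fun i _ => ?_
    simp only [hdg, hc]
    rw [card_filter]
    push_cast
    refine sum_congr rfl fun j _ => ?_
    by_cases hij : i = j
    · simp [hij]
    · simp [hij]
  have hdsum' : ∑ i ∈ I, dg i ≤ 6 * κ * I.card := by exact_mod_cast hdsum
  set J : Finset ℕ := I.filter fun i => dg i ≤ 24 * κ with hJ
  have hbad : 4 * (I.filter fun i => ¬ dg i ≤ 24 * κ).card ≤ I.card := by
    have h1 : (I.filter fun i => ¬ dg i ≤ 24 * κ).card * (24 * κ + 1) ≤ 6 * κ * I.card := by
      calc (I.filter fun i => ¬ dg i ≤ 24 * κ).card * (24 * κ + 1)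
          = ∑ _i ∈ I.filter (fun i => ¬ dg i ≤ 24 * κ), (24 * κ + 1) := by
            rw [sum_const, smul_eq_mul]
        _ ≤ ∑ i ∈ I.filter (fun i => ¬ dg i ≤ 24 * κ), dg i := by
            refine sum_le_sum fun i hi => ?_
            have := (mem_filter.1 hi).2
            omega
        _ ≤ ∑ i ∈ I, dg i := sum_le_sum_of_subset (filter_subset _ _)
        _ ≤ 6 * κ * I.card := hdsum'
    by_contra hlt0
    have hlt : I.card + 1 ≤ 4 * (I.filter fun i => ¬ dg i ≤ 24 * κ).card := by omega
    have h2 : (I.card + 1) * (24 * κ + 1) ≤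
        4 * (I.filter fun i => ¬ dg i ≤ 24 * κ).card * (24 * κ + 1) :=
      Nat.mul_le_mul_right _ hlt
    nlinarith
  have hJcard : J.card + (I.filter fun i => ¬ dg i ≤ 24 * κ).card = I.card :=
    card_filter_add_card_filter_not (s := I) (fun i => dg i ≤ 24 * κ)
  have hJ8 : S + 1 ≤ 8 * J.card := by omega
  have hJpos : 0 < J.card := by omega
  -- enumeration
  set e := J.orderEmbOfFin rfl with he
  have heJ : ∀ k : Fin J.card, e k ∈ J := fun k => orderEmbOfFin_mem J rfl k
  have hJI : ∀ i ∈ J, i ∈ I := fun i hi => (mem_filter.1 hi).1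
  set v : ℕ → ℕ := fun k => if h : k < J.card then e ⟨k, h⟩ else 0 with hv
  have hvJ : ∀ k ≤ J.card - 1, v k ∈ J := by
    intro k hk
    have hk' : k < J.card := by omega
    simp only [hv, dif_pos hk']
    exact heJ _
  have hvlt : ∀ k l, k < l → l ≤ J.card - 1 → v k < v l := by
    intro k l hkl hl
    have hl' : l < J.card := by omega
    have hk' : k < J.card := by omega
    simp only [hv, dif_pos hk', dif_pos hl']
    exact e.strictMono (by simpa using hkl)
  have huB : ∀ i ∈ I, 2 * s * i ≤ u i ∧ u i < 2 * s * i + s := by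
    intro i hi
    have := (mem_inter.1 (huA i hi)).2
    simpa [hB, mem_Ico] using this
  refine ⟨J.card - 1, fun k => u (v k), ?_, ?_, ?_, ?_⟩
  · have h1 : ((J.card - 1 : ℕ) : ℝ) + 1 = J.card := by
      rw [Nat.cast_sub (by omega)]
      push_cast
      ring
    rw [h1, div_le_iff₀ (by positivity)]
    have h2 : (Q : ℝ) ≤ (S + 1) * (2 * s) := by exact_mod_cast hSQ'.le
    have h3 : ((S : ℝ) + 1) ≤ 8 * J.card := by exact_mod_cast hJ8
    nlinarith
  · intro k hk
    exact (mem_inter.1 (huA _ (hJI _ (hvJ k hk)))).1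
  · intro k l hkl hl
    have h1 := hvlt k l hkl hl
    have hk : k ≤ J.card - 1 := by omega
    have hk2 := (huB _ (hJI _ (hvJ k hk))).2
    have hl2 := (huB _ (hJI _ (hvJ l hl))).1
    have h3 : 2 * s * (v k + 1) ≤ 2 * s * v l := Nat.mul_le_mul_left _ h1
    show u (v k) + s ≤ u (v l)
    nlinarith
  · intro k hk
    have hkJ := hvJ k hk
    have hdk : dg (v k) ≤ 24 * κ := (mem_filter.1 hkJ).2
    have hsub : ((range (J.card - 1 + 1)).filter fun l => |W (u (v l)) - W (u (v k))| ≤ s).image v ⊆
        insert (v k) (I.filter fun j => v k ≠ j ∧ |W (u j) - W (u (v k))| ≤ s) := by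
      intro j hj
      obtain ⟨l, hl, rfl⟩ := mem_image.1 hj
      obtain ⟨hl1, hl2⟩ := mem_filter.1 hl
      rw [mem_range] at hl1
      by_cases hkl : v k = v l
      · rw [hkl]
        exact mem_insert_self _ _
      · refine mem_insert_of_mem (mem_filter.2 ⟨hJI _ (hvJ l (by omega)), hkl, hl2⟩)
    have hinj : Set.InjOn v
        ((range (J.card - 1 + 1)).filter fun l => |W (u (v l)) - W (u (v k))| ≤ s : Finset ℕ) := by
      intro a ha b hb hab
      have ha1 := mem_range.1 (mem_filter.1 (mem_coe.1 ha)).1
      have hb1 := mem_range.1 (mem_filter.1 (mem_coe.1 hb)).1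
      by_contra hne
      rcases lt_or_gt_of_ne hne with h | h
      · exact absurd hab (ne_of_lt (hvlt a b h (by omega)))
      · exact absurd hab.symm (ne_of_lt (hvlt b a h (by omega)))
    calc ((range (J.card - 1 + 1)).filter fun l => |W (u (v l)) - W (u (v k))| ≤ s).card
        = (((range (J.card - 1 + 1)).filter fun l => |W (u (v l)) - W (u (v k))| ≤ s).image v).card :=
          (card_image_of_injOn hinj).symm
      _ ≤ (insert (v k) (I.filter fun j => v k ≠ j ∧ |W (u j) - W (u (v k))| ≤ s)).card :=
          card_le_card hsub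
      _ ≤ (I.filter fun j => v k ≠ j ∧ |W (u j) - W (u (v k))| ≤ s).card + 1 := card_insert_le _ _
      _ ≤ 24 * κ + 1 := by
          have : (I.filter fun j => v k ≠ j ∧ |W (u j) - W (u (v k))| ≤ s).card = dg (v k) := rfl
          omega

end Pool.Agent.Lib.HAP
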