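import Mathlib
import Pool.Agent.Lib.HAP.TentF
import Pool.Agent.Lib.HAP.GauD

/-!
MODULE LoadBad: few positions have a crowded weight.

PROOF.  Let `q` be a position with at least `40 M` positions `q'` with `|W q' - W q| ≤ 1`
(`W q = r q + b q`), and let `v ∈ V` be the integer with `|v - W q| ≤ 1/2` (`hV`).  For such `q'`,
`|v - W q'| ≤ 3/2` and `gau 1 (v - W q') ≥ exp(-9/8)/√(2π) ≥ 0.12`, so `load b r 1 v ≥ 4.8 M ≥ 4 M` and
`FF M (load) ≥ load - 2M ≥ load/2` (`le_FF`).  The number of `q` with the same `v` is at most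
`load / gau 1 (1/2) ≤ 3 load ≤ 6 FF M (load)` (`gau 1 (1/2) = exp(-1/8)/√(2π) ≥ 0.35`).  Sum over `v`
(`FF_nonneg`).
-/

namespace Pool.Agent.Lib.HAP

open Finset

private theorem loadBad_sqrt : Real.sqrt (2 * Real.pi * 1) ≤ 2.51 := by
  have h := Real.pi_lt_d2
  rw [Real.sqrt_le_left (by norm_num)]
  nlinarith

private theorem loadBad_gau {x a c : ℝ} (hx : x ^ 2 ≤ 2 * a) (hc : 0 ≤ c)
    (ha : 2.51 * c ≤ Real.exp (-a)) : c ≤ gau 1 x := by
  unfold gau
  have hpos : 0 < Real.sqrt (2 * Real.pi * 1) := Real.sqrt_pos.2 (by positivity)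
  rw [le_div_iff₀ hpos]
  calc c * Real.sqrt (2 * Real.pi * 1) ≤ c * 2.51 := mul_le_mul_of_nonneg_left loadBad_sqrt hc
    _ = 2.51 * c := mul_comm _ _
    _ ≤ Real.exp (-a) := ha
    _ ≤ Real.exp (-x ^ 2 / (2 * 1)) := by
        apply Real.exp_le_exp.2
        linarith

private theorem loadBad_far {x : ℝ} (hx : |x| ≤ 3 / 2) : 3 / 25 ≤ gau 1 x := by
  refine loadBad_gau (a := 9 / 8) ?_ (by norm_num) ?_
  · have := sq_abs x
    nlinarith [abs_nonneg x]
  · have h1 : (7 / 8 : ℝ) ≤ Real.exp (-(1 / 8)) := by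
      have := Real.add_one_le_exp (-(1 / 8) : ℝ)
      linarith
    have h2 : (0.36787944 : ℝ) ≤ Real.exp (-1) := Real.exp_neg_one_gt_d9.le.trans' (by norm_num)
    have h3 : Real.exp (-(9 / 8) : ℝ) = Real.exp (-1) * Real.exp (-(1 / 8)) := by
      rw [← Real.exp_add]; norm_num
    rw [h3]
    nlinarith [Real.exp_pos (-1 : ℝ)]

private theorem loadBad_near {x : ℝ} (hx : |x| ≤ 1 / 2) : 1 / 3 ≤ gau 1 x := by
  refine loadBad_gau (a := 1 / 8) ?_ (by norm_num) ?_
  · have := sq_abs x
    nlinarith [abs_nonneg x]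
  · have := Real.add_one_le_exp (-(1 / 8) : ℝ)
    linarith

private theorem loadBad_nonneg {N : ℕ} (b r : Fin (N + 1) → ℝ) (v : ℝ) : 0 ≤ load b r 1 v :=
  Finset.sum_nonneg fun _ _ => (gau_pos one_pos _).le

theorem load_bad {N : ℕ} {M : ℝ} (hM : 0 < M) (V : Finset ℤ) (b r : Fin (N + 1) → ℝ)
    (hV : ∀ q, round (r q + b q) ∈ V) :
    ((univ.filter fun q : Fin (N + 1) => 40 * M ≤
      ((univ.filter fun q' : Fin (N + 1) => |(r q' + b q') - (r q + b q)| ≤ 1).card : ℝ)).card : ℝ) ≤
      6 * ∑ v ∈ V, FF M (load b r 1 v) := by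
  classical
  set B := univ.filter fun q : Fin (N + 1) => 40 * M ≤
      ((univ.filter fun q' : Fin (N + 1) => |(r q' + b q') - (r q + b q)| ≤ 1).card : ℝ) with hB
  have hcard : (B.card : ℝ) = ∑ v ∈ V, ((B.filter fun q => round (r q + b q) = v).card : ℝ) := by
    rw [Finset.card_eq_sum_card_fiberwise (f := fun q => round (r q + b q)) (t := V)
      (fun q _ => hV q)]
    push_cast
    rfl
  rw [hcard, Finset.mul_sum]
  refine Finset.sum_le_sum fun v _ => ?_
  have hL := loadBad_nonneg b r (v : ℝ)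
  rcases (B.filter fun q => round (r q + b q) = v).eq_empty_or_nonempty with h0 | ⟨q, hq⟩
  · rw [h0]
    simp only [Finset.card_empty, Nat.cast_zero]
    exact mul_nonneg (by norm_num) (FF_nonneg hM hL)
  rw [Finset.mem_filter, hB, Finset.mem_filter] at hq
  obtain ⟨⟨-, hq1⟩, hq2⟩ := hq
  have hvq : |(v : ℝ) - (r q + b q)| ≤ 1 / 2 := by
    rw [← hq2, abs_sub_comm]
    exact abs_sub_round _
  -- the load is large
  have hbig : 40 * M * (3 / 25) ≤ load b r 1 v := by
    calc 40 * M * (3 / 25) ≤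
          ((univ.filter fun q' : Fin (N + 1) => |(r q' + b q') - (r q + b q)| ≤ 1).card : ℝ)
            * (3 / 25) := mul_le_mul_of_nonneg_right hq1 (by norm_num)
      _ = ∑ q' ∈ univ.filter fun q' : Fin (N + 1) => |(r q' + b q') - (r q + b q)| ≤ 1,
            (3 / 25 : ℝ) := by rw [Finset.sum_const, nsmul_eq_mul]
      _ ≤ ∑ q' ∈ univ.filter fun q' : Fin (N + 1) => |(r q' + b q') - (r q + b q)| ≤ 1,
            gau 1 ((v : ℝ) - r q' - b q') := by
          refine Finset.sum_le_sum fun q' hq' => loadBad_far ?_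
          have h1 := (Finset.mem_filter.1 hq').2
          rw [abs_le] at h1 hvq ⊢
          constructor <;> linarith [h1.1, h1.2, hvq.1, hvq.2]
      _ ≤ load b r 1 v := Finset.sum_le_sum_of_subset_of_nonneg (Finset.filter_subset _ _)
          fun q' _ _ => (gau_pos one_pos _).le
  have hfib : (((B.filter fun q => round (r q + b q) = v).card : ℝ)) ≤ 3 * load b r 1 v := by
    have h1 : ((B.filter fun q => round (r q + b q) = v).card : ℝ) * (1 / 3) ≤ load b r 1 v := by
      calc ((B.filter fun q => round (r q + b q) = v).card : ℝ) * (1 / 3)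
          = ∑ q' ∈ B.filter fun q => round (r q + b q) = v, (1 / 3 : ℝ) := by
            rw [Finset.sum_const, nsmul_eq_mul]
        _ ≤ ∑ q' ∈ B.filter fun q => round (r q + b q) = v, gau 1 ((v : ℝ) - r q' - b q') := by
            refine Finset.sum_le_sum fun q' hq' => loadBad_near ?_
            have h2 := (Finset.mem_filter.1 hq').2
            have h3 := abs_sub_round (r q' + b q')
            rw [h2, abs_sub_comm] at h3
            have h4 : (v : ℝ) - r q' - b q' = v - (r q' + b q') := by ring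
            rw [h4]
            exact h3
        _ ≤ load b r 1 v := Finset.sum_le_sum_of_subset_of_nonneg (Finset.subset_univ _)
            fun q' _ _ => (gau_pos one_pos _).le
    linarith
  have hF := le_FF hM hL
  linarith

end Pool.Agent.Lib.HAP
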