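import Mathlib
import Pool.Agent.Lib.MP_70146a_co.Lower

/-!
MODULE PathG: the greedy choice of the reds.

DATA: positions `p 0 < .. < p m` (blue), heights `x k` (real) with `x (k+1) - x k ≥ s/2`, integer labels
`b`, injective on the positions, weights `W k = x k + b (p k)`; every `W k` has at most `κ` indices `l ≤ m`
with `|W l - W k| ≤ s`, and `s ≥ 60 κ`, `s ≥ 60`.

PROOF.  `h k = x (k+1) - x k ≥ s/2 ≥ 30`.  Candidates `A k` = integers `i` with `x k ≤ i < x (k+1)`; at least
`h k - 1` of them.  Choose `i_k ∈ A k` in order of increasing `h k` (as in lemma `greedy` of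
MP_70146a_co/Lower.lean; there `g`, `A`, `φ` are natural numbers: either shift everything by a large integer
and use ranks for `g`, or copy the proof for integers with a real valued `g`, e.g. via a linear order of the
indices `(h k, k)`).  A conflict `i + b X = i' + b Y` with `X ∈ {p k, p (k+1)}`, `Y ∈ {p k', p (k'+1)}`,
`h k' ≤ h k`: `|i + b (p k) - W k| ≤ h k`, `|i + b (p (k+1)) - W (k+1)| ≤ h k` and the same for `k'`, so the
weights `W` of `X` and `Y` differ by at most `2 h k`.  For a given `X` and a given one of the two types of `Y`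
the index of `Y` determines `k'` and hence `i`; the number of indices `l ≤ m` with `|W l - W X| ≤ 2 h k` is at
most `(4 h k/s + 1) κ` (divide the interval of length `4 h k` in `⌊4 h k/s⌋ + 1` pieces of length at most `s`;
each piece which contains an index contains at most `κ`).  So at most `4 (4 h k/s + 1) κ ≤ 24 κ h k/s ≤
0.4 h k < h k - 1` candidates are forbidden (`1 ≤ 2 h k/s`).
The distinctness for `k = l`: `i_k + b X = i_k + b Y` implies `X = Y` by injectivity of `b`.
-/

namespace Pool.Agent.Lib.HAP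

open Finset

private lemma greedyR (g : ℕ → ℝ) (A : ℕ → Finset ℤ) (conf : ℕ → ℤ → ℕ → ℤ → Prop)
    (hsymm : ∀ k i k' i', conf k i k' i' → conf k' i' k i) (s : Finset ℕ)
    (hcount : ∀ k ∈ s, ∀ t ⊆ s, (∀ k' ∈ t, g k' ≤ g k) → k ∉ t → ∀ φ : ℕ → ℤ,
      (∀ k' ∈ t, φ k' ∈ A k') → ∃ i ∈ A k, ∀ k' ∈ t, ¬ conf k i k' (φ k')) :
    ∃ φ : ℕ → ℤ, (∀ k ∈ s, φ k ∈ A k) ∧
      ∀ k ∈ s, ∀ k' ∈ s, k ≠ k' → ¬ conf k (φ k) k' (φ k') := by
  suffices h : ∀ t : Finset ℕ, t ⊆ s → ∃ φ : ℕ → ℤ, (∀ k ∈ t, φ k ∈ A k) ∧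
      ∀ k ∈ t, ∀ k' ∈ t, k ≠ k' → ¬ conf k (φ k) k' (φ k') from h s (Finset.Subset.refl _)
  intro t
  induction t using Finset.induction_on_max_value g with
  | empty => intro _; exact ⟨fun _ => 0, by simp, by simp⟩
  | insert a t hat hmax ih =>
    intro hsub
    obtain ⟨φ, hφ1, hφ2⟩ := ih (fun x hx => hsub (Finset.mem_insert_of_mem hx))
    obtain ⟨i, hi, hi2⟩ := hcount a (hsub (Finset.mem_insert_self _ _)) t
      (fun x hx => hsub (Finset.mem_insert_of_mem hx)) hmax hat φ hφ1
    refine ⟨fun k => if k = a then i else φ k, ?_, ?_⟩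
    · intro k hk
      simp only
      split_ifs with h
      · rw [h]; exact hi
      · rcases Finset.mem_insert.mp hk with h' | h'
        · exact absurd h' h
        · exact hφ1 k h'
    · intro k hk k' hk' hne
      simp only
      rcases Finset.mem_insert.mp hk with h | h <;> rcases Finset.mem_insert.mp hk' with h' | h'
      · exact absurd (h.trans h'.symm) hne
      · have hk'a : k' ≠ a := fun h'' => hat (h'' ▸ h')
        rw [if_pos h, if_neg hk'a, h]
        exact hi2 k' h'
      · have hka : k ≠ a := fun h'' => hat (h'' ▸ h)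
        rw [if_neg hka, if_pos h', h']
        intro hc
        exact hi2 k h (hsymm _ _ _ _ hc)
      · have hka : k ≠ a := fun h'' => hat (h'' ▸ h)
        have hk'a : k' ≠ a := fun h'' => hat (h'' ▸ h')
        rw [if_neg hka, if_neg hk'a]
        exact hφ2 k h k' h' hne

/-- Covering an interval of length `2 R` by pieces of length `s`. -/
private lemma coverR {m s κ : ℕ} (hs : 0 < s) (W : ℕ → ℝ)
    (hcl : ∀ k ≤ m, ((range (m + 1)).filter fun l => |W l - W k| ≤ s).card ≤ κ)
    (c R : ℝ) :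
    (((range (m + 1)).filter fun l => |W l - c| ≤ R).card : ℝ) ≤ (2 * R / s + 1) * κ ∨ R < 0 := by
  classical
  rcases lt_or_ge R 0 with hR | hR
  · exact Or.inr hR
  left
  have hs0 : (0 : ℝ) < s := by exact_mod_cast hs
  set f : ℕ → ℕ := fun l => ⌊(W l - (c - R)) / s⌋₊ with hf
  have h1 := Finset.card_le_mul_card_image (f := f)
    ((range (m + 1)).filter fun l => |W l - c| ≤ R) κ (by
      intro a ha
      rw [Finset.mem_image] at ha
      obtain ⟨k, hk, rfl⟩ := ha
      rw [Finset.mem_filter, mem_range] at hk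
      refine le_trans (Finset.card_le_card ?_) (hcl k (by omega))
      intro l hl
      rw [Finset.mem_filter, Finset.mem_filter, mem_range] at hl
      rw [Finset.mem_filter, mem_range]
      refine ⟨hl.1.1, ?_⟩
      have hl0 : 0 ≤ (W l - (c - R)) / s := by
        have := (abs_le.mp hl.1.2).1
        apply div_nonneg _ hs0.le
        linarith
      have hk0 : 0 ≤ (W k - (c - R)) / s := by
        have := (abs_le.mp hk.2).1
        apply div_nonneg _ hs0.le
        linarith
      have e1 : f l = f k := hl.2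
      have a1 := Nat.floor_le hl0
      have a2 := Nat.lt_floor_add_one ((W l - (c - R)) / s)
      have b1 := Nat.floor_le hk0
      have b2 := Nat.lt_floor_add_one ((W k - (c - R)) / s)
      have e2 : ((f l : ℕ) : ℝ) = f k := by rw [e1]
      simp only [hf] at e2
      have d1 : (W l - (c - R)) / s - (W k - (c - R)) / s < 1 := by linarith
      have d2 : (W k - (c - R)) / s - (W l - (c - R)) / s < 1 := by linarith
      rw [← sub_div, div_lt_one hs0] at d1 d2
      rw [abs_le]
      constructor <;> linarith)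
  have h2 : (((range (m + 1)).filter fun l => |W l - c| ≤ R).image f).card ≤ ⌊2 * R / s⌋₊ + 1 := by
    rw [← Finset.card_range (⌊2 * R / s⌋₊ + 1)]
    apply Finset.card_le_card
    intro a ha
    rw [Finset.mem_image] at ha
    obtain ⟨k, hk, rfl⟩ := ha
    rw [Finset.mem_filter, mem_range] at hk
    rw [mem_range, Nat.lt_succ_iff]
    apply Nat.floor_le_floor
    apply div_le_div_of_nonneg_right _ hs0.le
    have := (abs_le.mp hk.2).2
    linarith
  have h3 : ((⌊2 * R / s⌋₊ : ℕ) : ℝ) ≤ 2 * R / s := Nat.floor_le (by positivity)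
  have h4 : (((range (m + 1)).filter fun l => |W l - c| ≤ R).card : ℝ) ≤
      κ * (⌊2 * R / s⌋₊ + 1) := by
    have := h1.trans (Nat.mul_le_mul_left κ h2)
    exact_mod_cast this
  have hκ0 : (0 : ℝ) ≤ κ := Nat.cast_nonneg _
  nlinarith [h3, h4, hκ0]

theorem path_greedy {m s κ : ℕ} (hκ : 1 ≤ κ) (hs : 60 * κ ≤ s) (p : ℕ → ℕ) (x : ℕ → ℝ)
    (hp : ∀ k l, k < l → l ≤ m → p k < p l)
    (hx : ∀ k < m, (s : ℝ) / 2 ≤ x (k + 1) - x k) (b : ℕ → ℤ)
    (hb : ∀ k l, k ≤ m → l ≤ m → b (p k) = b (p l) → k = l)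
    (hcl : ∀ k ≤ m, ((range (m + 1)).filter fun l =>
      |(x l + b (p l)) - (x k + b (p k))| ≤ s).card ≤ κ) :
    ∃ i : ℕ → ℤ, (∀ k < m, x k ≤ i k ∧ (i k : ℝ) < x (k + 1)) ∧
      ∀ k < m, ∀ l < m, ∀ X, (X = p k ∨ X = p (k + 1)) → ∀ Y, (Y = p l ∨ Y = p (l + 1)) →
        i k + b X = i l + b Y → k = l ∧ X = Y := by
  classical
  have hκr : (1 : ℝ) ≤ κ := by exact_mod_cast hκ
  have hsr : 60 * (κ : ℝ) ≤ s := by exact_mod_cast hs
  have hs60 : (60 : ℝ) ≤ s := by linarith
  have hs0 : 0 < s := by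
    have : (0 : ℝ) < s := by linarith
    exact_mod_cast this
  set W : ℕ → ℝ := fun l => x l + b (p l) with hW
  set h : ℕ → ℝ := fun k => x (k + 1) - x k with hh
  set A : ℕ → Finset ℤ := fun k => Finset.Ico ⌈x k⌉ ⌈x (k + 1)⌉ with hA
  have hAmem : ∀ k i, i ∈ A k ↔ x k ≤ i ∧ (i : ℝ) < x (k + 1) := by
    intro k i
    simp only [hA, Finset.mem_Ico, Int.ceil_le, Int.lt_ceil]
  have hAcard : ∀ k, k < m → h k - 1 ≤ ((A k).card : ℝ) := by
    intro k hk
    have e1 : ((A k).card : ℤ) = ⌈x (k + 1)⌉ - ⌈x k⌉ := by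
      simp only [hA]
      rw [Int.card_Ico]
      apply Int.toNat_of_nonneg
      have : ⌈x k⌉ ≤ ⌈x (k + 1)⌉ := Int.ceil_mono (by have := hx k hk; linarith)
      linarith
    have e2 : ((A k).card : ℝ) = (⌈x (k + 1)⌉ : ℝ) - (⌈x k⌉ : ℝ) := by exact_mod_cast e1
    rw [e2]
    have e3 := Int.le_ceil (x (k + 1))
    have e4 := Int.ceil_lt_add_one (x k)
    simp only [hh]
    linarith
  -- the conflict relation
  set conf : ℕ → ℤ → ℕ → ℤ → Prop := fun k i k' i' =>
    ∃ X, (X = p k ∨ X = p (k + 1)) ∧ ∃ Y, (Y = p k' ∨ Y = p (k' + 1)) ∧ i + b X = i' + b Y with hconf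
  have hsymm : ∀ k i k' i', conf k i k' i' → conf k' i' k i := by
    rintro k i k' i' ⟨X, hX, Y, hY, hXY⟩
    exact ⟨Y, hY, X, hX, hXY.symm⟩
  obtain ⟨φ, hφ1, hφ2⟩ := greedyR h A conf hsymm (range m) (by
    intro k hk t ht hmax hkt φ hφ
    rw [mem_range] at hk
    have hhk : (s : ℝ) / 2 ≤ h k := hx k hk
    -- the forbidden candidates of type (a, d)
    set Fb : ℕ → ℕ → Finset ℤ := fun a d => (A k).filter fun i =>
      ∃ k' ∈ t, i + b (p (k + a)) = φ k' + b (p (k' + d)) with hFb
    have hFcard : ∀ a ≤ 1, ∀ d ≤ 1, ((Fb a d).card : ℝ) ≤ (4 * h k / s + 1) * κ := by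
      intro a ha d hd
      have hc := coverR hs0 W hcl (W (k + a)) (2 * h k)
      rcases hc with hc | hc
      swap
      · exfalso; linarith
      have hc' : (((range (m + 1)).filter fun l => |W l - W (k + a)| ≤ 2 * h k).card : ℝ) ≤
          (4 * h k / s + 1) * κ := by
        have e : 2 * (2 * h k) / (s : ℝ) = 4 * h k / s := by ring
        rw [e] at hc
        exact hc
      refine le_trans ?_ hc'
      norm_cast
      have hex : ∀ i ∈ Fb a d, ∃ k' ∈ t, i + b (p (k + a)) = φ k' + b (p (k' + d)) := by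
        intro i hi
        exact (Finset.mem_filter.mp hi).2
      choose! ψ hψ1 hψ2 using hex
      apply Finset.card_le_card_of_injOn (fun i => ψ i + d)
      · intro i hi
        rw [Finset.mem_coe] at hi
        have hi' : i ∈ A k := (Finset.mem_filter.mp hi).1
        rw [hAmem] at hi'
        have hk't := hψ1 i hi
        have hk'm : ψ i < m := mem_range.mp (ht hk't)
        have hφi := hφ _ hk't
        rw [hAmem] at hφi
        have hle := hmax _ hk't
        have heq := hψ2 i hi
        have heqr : (i : ℝ) + b (p (k + a)) = φ (ψ i) + b (p (ψ i + d)) := by exact_mod_cast heq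
        rw [Finset.mem_coe, Finset.mem_filter, mem_range]
        refine ⟨by show ψ i + d < m + 1; omega, ?_⟩
        have k1 : |(i : ℝ) - x (k + a)| ≤ h k := by
          have ha' : a = 0 ∨ a = 1 := by omega
          rw [abs_le]
          rcases ha' with rfl | rfl
          · simp only [hh, add_zero]
            constructor <;> linarith [hi'.1, hi'.2]
          · simp only [hh]
            constructor <;> linarith [hi'.1, hi'.2]
        have k2 : |(φ (ψ i) : ℝ) - x (ψ i + d)| ≤ h (ψ i) := by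
          have hd' : d = 0 ∨ d = 1 := by omega
          rw [abs_le]
          rcases hd' with rfl | rfl
          · simp only [hh, add_zero]
            constructor <;> linarith [hφi.1, hφi.2]
          · simp only [hh]
            constructor <;> linarith [hφi.1, hφi.2]
        rw [abs_le] at k1 k2 ⊢
        simp only [hW]
        constructor <;> linarith [k1.1, k1.2, k2.1, k2.2]
      · intro i hi i' hi' heq
        rw [Finset.mem_coe] at hi hi'
        have h1 : ψ i = ψ i' := by
          have : ψ i + d = ψ i' + d := heq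
          omega
        have h2 := hψ2 i hi
        have h3 := hψ2 i' hi'
        rw [h1] at h2
        linarith
    have htot : (((Fb 0 0 ∪ Fb 0 1) ∪ (Fb 1 0 ∪ Fb 1 1)).card : ℝ) < ((A k).card : ℝ) := by
      have c1 : ((Fb 0 0 ∪ Fb 0 1) ∪ (Fb 1 0 ∪ Fb 1 1)).card ≤
          (Fb 0 0).card + (Fb 0 1).card + ((Fb 1 0).card + (Fb 1 1).card) :=
        (Finset.card_union_le _ _).trans
          (Nat.add_le_add (Finset.card_union_le _ _) (Finset.card_union_le _ _))
      have c2 : (((Fb 0 0 ∪ Fb 0 1) ∪ (Fb 1 0 ∪ Fb 1 1)).card : ℝ) ≤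
          ((Fb 0 0).card + (Fb 0 1).card + ((Fb 1 0).card + (Fb 1 1).card) : ℝ) := by
        exact_mod_cast c1
      have d1 := hFcard 0 (by omega) 0 (by omega)
      have d2 := hFcard 0 (by omega) 1 (by omega)
      have d3 := hFcard 1 (by omega) 0 (by omega)
      have d4 := hFcard 1 (by omega) 1 (by omega)
      have d5 := hAcard k hk
      have hsp : (0 : ℝ) < s := by linarith
      have d6 : (4 * h k / s + 1) * κ ≤ h k / 10 := by
        have e1 : (4 * h k / s + 1) * κ = (4 * h k + s) * (κ / s) := by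
          field_simp
        have e2 : (κ : ℝ) / s ≤ 1 / 60 := by
          rw [div_le_div_iff₀ hsp (by norm_num)]
          linarith
        have e3 : (4 * h k + s) * ((κ : ℝ) / s) ≤ (4 * h k + s) * (1 / 60) :=
          mul_le_mul_of_nonneg_left e2 (by linarith)
        rw [e1]
        linarith
      linarith
    have hexi : ∃ i ∈ A k, i ∉ ((Fb 0 0 ∪ Fb 0 1) ∪ (Fb 1 0 ∪ Fb 1 1)) := by
      by_contra hcon
      push Not at hcon
      have : (A k).card ≤ ((Fb 0 0 ∪ Fb 0 1) ∪ (Fb 1 0 ∪ Fb 1 1)).card := Finset.card_le_card hcon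
      have : ((A k).card : ℝ) ≤ (((Fb 0 0 ∪ Fb 0 1) ∪ (Fb 1 0 ∪ Fb 1 1)).card : ℝ) := by
        exact_mod_cast this
      linarith
    obtain ⟨i, hi, hinot⟩ := hexi
    refine ⟨i, hi, ?_⟩
    rintro k' hk' ⟨X, hX, Y, hY, hXY⟩
    apply hinot
    have hmk : ∀ a d, i + b (p (k + a)) = φ k' + b (p (k' + d)) → i ∈ Fb a d := by
      intro a d hh'
      exact Finset.mem_filter.mpr ⟨hi, k', hk', hh'⟩
    simp only [Finset.mem_union]
    rcases hX with rfl | rfl <;> rcases hY with rfl | rfl
    · exact Or.inl (Or.inl (hmk 0 0 hXY))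
    · exact Or.inl (Or.inr (hmk 0 1 hXY))
    · exact Or.inr (Or.inl (hmk 1 0 hXY))
    · exact Or.inr (Or.inr (hmk 1 1 hXY)))
  refine ⟨φ, ?_, ?_⟩
  · intro k hk
    exact (hAmem k _).mp (hφ1 k (mem_range.mpr hk))
  · intro k hk l hl X hX Y hY hXY
    by_cases hkl : k = l
    · refine ⟨hkl, ?_⟩
      subst hkl
      have hbb : b X = b Y := by linarith
      rcases hX with rfl | rfl <;> rcases hY with rfl | rfl
      · rfl
      · have := hb k (k + 1) (by omega) (by omega) hbb
        omega
      · have := hb (k + 1) k (by omega) (by omega) hbb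
        omega
      · rfl
    · exact absurd ⟨X, hX, Y, hY, hXY⟩ (hφ2 k (mem_range.mpr hk) l (mem_range.mpr hl) hkl)

end Pool.Agent.Lib.HAP
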