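import Mathlib
import Pool.Agent.Lib.HAP.Defs

/-!
MODULE Rising: rising sun lemma.

PROOF.  `f i = |r i.succ - r i.castSucc - 1|`, `∑ f^2 = slopeE r`.  Call `q` bad if there is `q' > q` with
`r q' - r q < (q' - q)/2`; then `∑_{q ≤ i < q'} f i > (q' - q)/2`.  Choose greedily from the left: `q_1` the
first bad position with a witness `q_1'`, `q_2` the first bad position `≥ q_1'` with witness `q_2'`, ...
The disjoint intervals `[q_k, q_k')` contain all bad positions.  Let `ℓ` be their total length: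
`ℓ ≤ 2 ∑_{i in the union} f i ≤ 2 √(ℓ slopeE r)`, so `ℓ ≤ 4 slopeE r`.
(Formal: induction on the right end or strong induction; e.g. prove by strong induction on `N + 1 - a` the
statement `#{bad q ≥ a} ≤ ∑_{i ∈ U} 1` with `U ⊆ [a, N)` and `U.card ≤ 2 ∑_{i ∈ U} f i`.)
-/

namespace Pool.Agent.Lib.HAP

open Finset

private noncomputable def Rising_R {N : ℕ} (r : Fin (N + 1) → ℝ) (k : ℕ) : ℝ :=
  r ⟨min k N, Nat.lt_succ_of_le (min_le_right _ _)⟩

private theorem Rising_R_val {N : ℕ} (r : Fin (N + 1) → ℝ) (q : Fin (N + 1)) :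
    Rising_R r q.val = r q := by
  unfold Rising_R
  congr 1
  apply Fin.ext
  simp [Nat.lt_succ_iff.mp q.isLt]

private theorem Rising_slope {N : ℕ} (r : Fin (N + 1) → ℝ) :
    slopeE r = ∑ i ∈ range N, (Rising_R r (i + 1) - Rising_R r i - 1) ^ 2 := by
  unfold slopeE
  rw [Finset.sum_range]
  apply Finset.sum_congr rfl
  intro i _
  have h1 : Rising_R r (i.val + 1) = r i.succ := by
    rw [← Rising_R_val r i.succ]; rfl
  have h2 : Rising_R r i.val = r i.castSucc := by
    rw [← Rising_R_val r i.castSucc]; rfl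
  rw [h1, h2]

private theorem Rising_tel {R : ℕ → ℝ} {a b : ℕ} (h : a ≤ b) :
    ∑ i ∈ Ico a b, (R (i + 1) - R i - 1) = R b - R a - ((b : ℝ) - a) := by
  induction b, h using Nat.le_induction with
  | base => simp
  | succ n hn ih =>
    rw [Finset.sum_Ico_succ_top hn, ih]
    push_cast
    ring

private theorem Rising_ind {N : ℕ} (R : ℕ → ℝ) (n : ℕ) : ∀ a : ℕ, N + 1 - a ≤ n →
    ∃ U : Finset ℕ, U ⊆ Ico a N ∧
      ((Ico a (N + 1)).filter (fun q => ∃ q', q' ≤ N ∧ q < q' ∧ R q' - R q < ((q' : ℝ) - q) / 2)).card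
        ≤ U.card ∧ (U.card : ℝ) ≤ 2 * ∑ i ∈ U, |R (i + 1) - R i - 1| := by
  classical
  induction n with
  | zero =>
    intro a ha
    refine ⟨∅, by simp, ?_, by simp⟩
    have : N + 1 ≤ a := by omega
    rw [Finset.Ico_eq_empty_of_le this]
    simp
  | succ n ih =>
    intro a ha
    rcases Nat.lt_or_ge N a with hN | hN
    · refine ⟨∅, by simp, ?_, by simp⟩
      have : N + 1 ≤ a := by omega
      rw [Finset.Ico_eq_empty_of_le this]
      simp
    by_cases hb : ∃ q', q' ≤ N ∧ a < q' ∧ R q' - R a < ((q' : ℝ) - a) / 2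
    · obtain ⟨q', hq, haq, hR⟩ := hb
      obtain ⟨U, hU, hc, hs⟩ := ih q' (by omega)
      have hdis : Disjoint (Ico a q') U := by
        rw [Finset.disjoint_left]
        intro x hx hxU
        have h1 := Finset.mem_Ico.mp hx
        have h2 := Finset.mem_Ico.mp (hU hxU)
        omega
      refine ⟨Ico a q' ∪ U, ?_, ?_, ?_⟩
      · apply Finset.union_subset
        · exact Finset.Ico_subset_Ico_right hq
        · exact hU.trans (Finset.Ico_subset_Ico_left haq.le)
      · rw [Finset.card_union_of_disjoint hdis]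
        have hsub : (Ico a (N + 1)).filter (fun q => ∃ q', q' ≤ N ∧ q < q' ∧
              R q' - R q < ((q' : ℝ) - q) / 2) ⊆
            Ico a q' ∪ (Ico q' (N + 1)).filter (fun q => ∃ q', q' ≤ N ∧ q < q' ∧
              R q' - R q < ((q' : ℝ) - q) / 2) := by
          intro x hx
          rw [Finset.mem_filter, Finset.mem_Ico] at hx
          rw [Finset.mem_union, Finset.mem_Ico, Finset.mem_filter, Finset.mem_Ico]
          rcases Nat.lt_or_ge x q' with h | h
          · exact Or.inl ⟨hx.1.1, h⟩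
          · exact Or.inr ⟨⟨h, hx.1.2⟩, hx.2⟩
        refine (Finset.card_le_card hsub).trans ((Finset.card_union_le _ _).trans ?_)
        exact Nat.add_le_add_left hc _
      · rw [Finset.card_union_of_disjoint hdis, Finset.sum_union hdis]
        push_cast
        have h1 : ((Ico a q').card : ℝ) = (q' : ℝ) - a := by
          rw [Nat.card_Ico, Nat.cast_sub haq.le]
        have h2 := Rising_tel (R := R) haq.le
        have h3 : -(∑ i ∈ Ico a q', |R (i + 1) - R i - 1|) ≤ ∑ i ∈ Ico a q', (R (i + 1) - R i - 1) := by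
          rw [← Finset.sum_neg_distrib]
          exact Finset.sum_le_sum fun i _ => neg_abs_le _
        rw [h1]
        nlinarith
    · obtain ⟨U, hU, hc, hs⟩ := ih (a + 1) (by omega)
      refine ⟨U, hU.trans (Finset.Ico_subset_Ico_left (Nat.le_succ a)), ?_, hs⟩
      refine le_trans (Finset.card_le_card ?_) hc
      intro x hx
      rw [Finset.mem_filter, Finset.mem_Ico] at hx ⊢
      refine ⟨⟨?_, hx.1.2⟩, hx.2⟩
      rcases eq_or_lt_of_le hx.1.1 with h | h
      · exact absurd (h ▸ hx.2) hb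
      · exact h

theorem rising {N : ℕ} (r : Fin (N + 1) → ℝ) :
    ((univ.filter fun q : Fin (N + 1) => ∃ q' : Fin (N + 1), q < q' ∧
      r q' - r q < ((q'.val : ℝ) - q.val) / 2).card : ℝ) ≤ 4 * slopeE r := by
  classical
  obtain ⟨U, hU, hc, hs⟩ := Rising_ind (N := N) (Rising_R r) (N + 1) 0 (by omega)
  have h1 : (univ.filter fun q : Fin (N + 1) => ∃ q' : Fin (N + 1), q < q' ∧
      r q' - r q < ((q'.val : ℝ) - q.val) / 2).card ≤
      ((Ico 0 (N + 1)).filter (fun q => ∃ q', q' ≤ N ∧ q < q' ∧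
        Rising_R r q' - Rising_R r q < ((q' : ℝ) - q) / 2)).card := by
    apply Finset.card_le_card_of_injOn (fun q => q.val)
    · intro q hq
      simp only [Finset.coe_filter, Finset.mem_univ, true_and, Set.mem_setOf_eq] at hq
      obtain ⟨q', h1, h2⟩ := hq
      simp only [Finset.coe_filter, Finset.mem_Ico, Set.mem_setOf_eq]
      refine ⟨⟨Nat.zero_le _, q.isLt⟩, q'.val, Nat.lt_succ_iff.mp q'.isLt, h1, ?_⟩
      rw [Rising_R_val, Rising_R_val]
      exact h2
    · intro x _ y _ h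
      exact Fin.ext h
  have h2 : ((univ.filter fun q : Fin (N + 1) => ∃ q' : Fin (N + 1), q < q' ∧
      r q' - r q < ((q'.val : ℝ) - q.val) / 2).card : ℝ) ≤ U.card := by
    exact_mod_cast h1.trans hc
  refine h2.trans ?_
  have h3 : (∑ i ∈ U, |Rising_R r (i + 1) - Rising_R r i - 1|) ^ 2 ≤
      U.card * ∑ i ∈ U, |Rising_R r (i + 1) - Rising_R r i - 1| ^ 2 := by
    exact sq_sum_le_card_mul_sum_sq
  have h4 : ∑ i ∈ U, |Rising_R r (i + 1) - Rising_R r i - 1| ^ 2 ≤ slopeE r := by
    rw [Rising_slope]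
    simp only [sq_abs]
    apply Finset.sum_le_sum_of_subset_of_nonneg
    · intro x hx
      have := Finset.mem_Ico.mp (hU hx)
      exact Finset.mem_range.mpr this.2
    · intro i _ _
      exact sq_nonneg _
  have hE : 0 ≤ slopeE r := by
    unfold slopeE
    exact Finset.sum_nonneg fun i _ => sq_nonneg _
  rcases Nat.eq_zero_or_pos U.card with h0 | h0
  · rw [h0]; push_cast; linarith
  · have hpos : (0 : ℝ) < U.card := by exact_mod_cast h0
    have hsq : (U.card : ℝ) ^ 2 ≤ 4 * (U.card * slopeE r) := by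
      have hn : (0 : ℝ) ≤ U.card := hpos.le
      calc (U.card : ℝ) ^ 2 ≤ (2 * ∑ i ∈ U, |Rising_R r (i + 1) - Rising_R r i - 1|) ^ 2 :=
            pow_le_pow_left₀ hn hs 2
        _ = 4 * (∑ i ∈ U, |Rising_R r (i + 1) - Rising_R r i - 1|) ^ 2 := by ring
        _ ≤ 4 * (U.card * ∑ i ∈ U, |Rising_R r (i + 1) - Rising_R r i - 1| ^ 2) := by linarith
        _ ≤ 4 * (U.card * slopeE r) := by
            have := mul_le_mul_of_nonneg_left h4 hn
            linarith
    have : (U.card : ℝ) * U.card ≤ U.card * (4 * slopeE r) := by nlinarith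
    exact le_of_mul_le_mul_left this hpos

theorem le_add_sqrt {N : ℕ} (r : Fin (N + 1) → ℝ) (p q : Fin (N + 1)) (h : p ≤ q) :
    |r q - r p - ((q.val : ℝ) - p.val)| ≤ Real.sqrt (N * slopeE r) := by
  have hpq : p.val ≤ q.val := h
  have h2 := Rising_tel (R := Rising_R r) hpq
  rw [Rising_R_val, Rising_R_val] at h2
  rw [← h2]
  apply Real.le_sqrt_of_sq_le
  rw [sq_abs]
  refine sq_sum_le_card_mul_sum_sq.trans ?_
  have h4 : ∑ i ∈ Ico p.val q.val, (Rising_R r (i + 1) - Rising_R r i - 1) ^ 2 ≤ slopeE r := by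
    rw [Rising_slope]
    apply Finset.sum_le_sum_of_subset_of_nonneg
    · intro x hx
      have h5 := (Finset.mem_Ico.mp hx).2
      have h6 := Nat.lt_succ_iff.mp q.isLt
      exact Finset.mem_range.mpr (by omega)
    · intro i _ _
      exact sq_nonneg _
  have h5 : ((Ico p.val q.val).card : ℝ) ≤ N := by
    have h6 := Nat.lt_succ_iff.mp q.isLt
    rw [Nat.card_Ico]
    exact_mod_cast (by omega : q.val - p.val ≤ N)
  have hS : 0 ≤ ∑ i ∈ Ico p.val q.val, (Rising_R r (i + 1) - Rising_R r i - 1) ^ 2 :=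
    Finset.sum_nonneg fun i _ => sq_nonneg _
  exact mul_le_mul h5 h4 hS (Nat.cast_nonneg N)

end Pool.Agent.Lib.HAP
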