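import Mathlib

/-!
MODULE Taylor: remainder estimate.

PROOF.  With `X = x + y`, `z = -(x y)`: the difference is
`X exp(-x^2/2 - y^2/2) (exp z - ∑_{k<K} z^k/k!)`, and `|exp z - ∑_{k<K} z^k/k!| ≤ |z|^K exp|z| / K!`
(`Real.exp_bound'`-like; or `Complex.norm_exp_sub_sum_le_norm_mul_exp`, or the Taylor theorem),
`|z| ≤ 2|x|`, `exp(-x^2/2 - y^2/2) = exp(-X^2/2 + x y) ≤ exp(-X^2/2 + 2|x|)`,
`(2|x|)^K / K! = 3^(-K) (6|x|)^K/K! ≤ 3^(-K) exp(6|x|)`, `|x| ≤ |X| + 2`, `|X| ≤ exp |X|`.  Together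
`≤ 3^(-K) exp(|X| + 10 (|X|+2) - X^2/2) = 3^(-K) exp(20 + 11|X| - X^2/8) exp(-(3/8) X^2)` and
`11 u - u^2/8 ≤ 242`.
-/

namespace Pool.Agent.Lib.HAP

open Finset

private theorem Taylor_tail (t : ℝ) (ht : 0 ≤ t) (n : ℕ) :
    Real.exp t - ∑ m ∈ range n, t ^ m / (m.factorial : ℝ) ≤
      t ^ n / (n.factorial : ℝ) * Real.exp t := by
  have hs : Summable fun m : ℕ => t ^ m / (m.factorial : ℝ) := Real.summable_pow_div_factorial t
  have he : Real.exp t = ∑' m : ℕ, t ^ m / (m.factorial : ℝ) := by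
    rw [Real.exp_eq_exp_ℝ, NormedSpace.exp_eq_tsum_div]
  have h1 := hs.sum_add_tsum_nat_add n
  rw [← he] at h1
  rw [← h1, add_sub_cancel_left, h1, he, ← tsum_mul_left]
  refine Summable.tsum_le_tsum (fun m => ?_) ((summable_nat_add_iff n).2 hs) (hs.mul_left _)
  have h2 : ((m.factorial * n.factorial : ℕ) : ℝ) ≤ ((m + n).factorial : ℕ) := by
    exact_mod_cast Nat.le_of_dvd (Nat.factorial_pos _) (Nat.factorial_mul_factorial_dvd_factorial_add m n)
  have h3 : (0 : ℝ) < m.factorial := by exact_mod_cast Nat.factorial_pos m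
  have h4 : (0 : ℝ) < n.factorial := by exact_mod_cast Nat.factorial_pos n
  have h5 : t ^ n / (n.factorial : ℝ) * (t ^ m / (m.factorial : ℝ)) =
      t ^ (m + n) / ((m.factorial * n.factorial : ℕ) : ℝ) := by
    rw [Nat.cast_mul, pow_add, div_mul_div_comm]
    ring
  rw [h5]
  refine div_le_div_of_nonneg_left (pow_nonneg ht _) ?_ h2
  rw [Nat.cast_mul]
  exact mul_pos h3 h4

private theorem Taylor_exp (z : ℝ) (n : ℕ) :
    |Real.exp z - ∑ m ∈ range n, z ^ m / (m.factorial : ℝ)| ≤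
      |z| ^ n / (n.factorial : ℝ) * Real.exp |z| := by
  refine le_trans ?_ (Taylor_tail |z| (abs_nonneg z) n)
  have h1 := Complex.norm_exp_sub_sum_le_exp_norm_sub_sum (z : ℂ) n
  have h2 : Complex.exp (z : ℂ) - ∑ m ∈ range n, (z : ℂ) ^ m / (m.factorial : ℂ) =
      ((Real.exp z - ∑ m ∈ range n, z ^ m / (m.factorial : ℝ) : ℝ) : ℂ) := by
    push_cast
    rfl
  rw [h2, Complex.norm_real, Complex.norm_real] at h1
  exact h1

theorem taylor_rem (K : ℕ) (x y : ℝ) (hy : |y| ≤ 2) :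
    |(x + y) * Real.exp (-(x + y) ^ 2 / 2) - (x + y) * Real.exp (-x ^ 2 / 2) *
      Real.exp (-y ^ 2 / 2) * ∑ k ∈ range K, (-(x * y)) ^ k / (k.factorial : ℝ)| ≤
    Real.exp 262 / 3 ^ K * Real.exp (-(3 / 8) * (x + y) ^ 2) := by
  have h0 : (x + y) * Real.exp (-(x + y) ^ 2 / 2) - (x + y) * Real.exp (-x ^ 2 / 2) *
      Real.exp (-y ^ 2 / 2) * ∑ k ∈ range K, (-(x * y)) ^ k / (k.factorial : ℝ) =
      (x + y) * Real.exp (-x ^ 2 / 2 + -y ^ 2 / 2) *
        (Real.exp (-(x * y)) - ∑ k ∈ range K, (-(x * y)) ^ k / (k.factorial : ℝ)) := by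
    have e1 : -(x + y) ^ 2 / 2 = (-x ^ 2 / 2 + -y ^ 2 / 2) + -(x * y) := by ring
    rw [e1, Real.exp_add (-x ^ 2 / 2 + -y ^ 2 / 2), Real.exp_add (-x ^ 2 / 2)]
    ring
  rw [h0, abs_mul, abs_mul, Real.abs_exp]
  have hz : |-(x * y)| ≤ 2 * |x| := by
    rw [abs_neg, abs_mul]
    nlinarith [abs_nonneg x, abs_nonneg y]
  have hx0 := abs_nonneg x
  have h1 : |Real.exp (-(x * y)) - ∑ k ∈ range K, (-(x * y)) ^ k / (k.factorial : ℝ)| ≤
      Real.exp (8 * |x|) / 3 ^ K := by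
    refine (Taylor_exp _ K).trans ?_
    have h4 : (0 : ℝ) < K.factorial := by exact_mod_cast Nat.factorial_pos K
    have h5 : |-(x * y)| ^ K / (K.factorial : ℝ) ≤ Real.exp (6 * |x|) / 3 ^ K := by
      have h6 : (6 * |x|) ^ K / (K.factorial : ℝ) ≤ Real.exp (6 * |x|) :=
        Real.pow_div_factorial_le_exp _ (by positivity) K
      have h7 : |-(x * y)| ^ K ≤ (2 * |x|) ^ K := pow_le_pow_left₀ (abs_nonneg _) hz K
      have h8 : (6 * |x|) ^ K = 3 ^ K * (2 * |x|) ^ K := by rw [← mul_pow]; ring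
      rw [le_div_iff₀ (by positivity : (0 : ℝ) < 3 ^ K)]
      refine le_trans ?_ h6
      rw [h8, div_mul_eq_mul_div]
      refine div_le_div_of_nonneg_right ?_ h4.le
      nlinarith [pow_pos (by norm_num : (0 : ℝ) < 3) K]
    have h9 : Real.exp |-(x * y)| ≤ Real.exp (2 * |x|) := Real.exp_le_exp.2 hz
    calc |-(x * y)| ^ K / (K.factorial : ℝ) * Real.exp |-(x * y)| ≤
        Real.exp (6 * |x|) / 3 ^ K * Real.exp (2 * |x|) := by
          refine mul_le_mul h5 h9 (Real.exp_pos _).le (by positivity)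
      _ = Real.exp (8 * |x|) / 3 ^ K := by
          rw [div_mul_eq_mul_div, ← Real.exp_add]
          ring_nf
  have h2 : |x + y| ≤ Real.exp |x + y| := by
    have := Real.add_one_le_exp |x + y|
    linarith
  have h3 : |x| ≤ |x + y| + 2 := by
    have h4 : |x| ≤ |x + y| + |y| := by
      have := abs_sub (x + y) y
      rwa [add_sub_cancel_right] at this
    linarith
  have h5 : -x ^ 2 / 2 + -y ^ 2 / 2 ≤ -(x + y) ^ 2 / 2 + 2 * |x| := by
    have h6 : x * y ≤ 2 * |x| := by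
      have h7 := le_abs_self (x * y)
      rw [abs_neg] at hz
      exact h7.trans hz
    nlinarith
  calc |x + y| * Real.exp (-x ^ 2 / 2 + -y ^ 2 / 2) *
      |Real.exp (-(x * y)) - ∑ k ∈ range K, (-(x * y)) ^ k / (k.factorial : ℝ)| ≤
      Real.exp |x + y| * Real.exp (-(x + y) ^ 2 / 2 + 2 * |x|) * (Real.exp (8 * |x|) / 3 ^ K) := by
        refine mul_le_mul (mul_le_mul h2 (Real.exp_le_exp.2 h5) (Real.exp_pos _).le
          (Real.exp_pos _).le) h1 (abs_nonneg _) (by positivity)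
    _ = Real.exp (|x + y| + (-(x + y) ^ 2 / 2 + 2 * |x|) + 8 * |x|) / 3 ^ K := by
        rw [Real.exp_add (|x + y| + (-(x + y) ^ 2 / 2 + 2 * |x|)) (8 * |x|),
          Real.exp_add |x + y| (-(x + y) ^ 2 / 2 + 2 * |x|), mul_div_assoc]
    _ ≤ Real.exp (262 + -(3 / 8) * (x + y) ^ 2) / 3 ^ K := by
        refine div_le_div_of_nonneg_right (Real.exp_le_exp.2 ?_) (by positivity)
        have h6 : (x + y) ^ 2 = |x + y| ^ 2 := (sq_abs _).symm
        rw [h6]
        nlinarith [sq_nonneg (|x + y| - 44)]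
    _ = Real.exp 262 / 3 ^ K * Real.exp (-(3 / 8) * (x + y) ^ 2) := by
        rw [Real.exp_add]
        ring

end Pool.Agent.Lib.HAP
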