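import Mathlib
import Pool.Agent.Lib.HAP.Defs
import Pool.Agent.Lib.HAP.Taylor

/-!
MODULE Orth: functions orthogonal to `K+1` functionals of a cell have a small derivative of the load in
the whole cell.

PROOF.  Put `x q = (c - r q - b q)/√s`, `y = (v - c)/√s`, `|y| ≤ 2`, `x q + y = (v - r q - b q)/√s`.  Then
`gau1 s (v - r q - b q) = - (1/(s √(2π))) (x q + y) exp(-(x q + y)^2/2)`.  By `h` the sum
`∑ q, ψ q (x q + y) exp(-(x q)^2/2) exp(-y^2/2) ∑_{k<K} (-(x q * y))^k/k!` vanishes: it is a linear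
combination (with coefficients depending on `y` only) of `∑ q, ψ q (x q)^k exp(-(x q)^2/2)`, `k ≤ K`.
So `|grad1 ..| ≤ (1/(s √(2π))) ∑ q, |ψ q| |remainder|` and `taylor_rem`; `1/√(2π) ≤ 1`.
-/

namespace Pool.Agent.Lib.HAP

open Finset

private lemma gau1_eq {s z X : ℝ} (hs : 0 < s) (hX : X = z / Real.sqrt s) :
    gau1 s z = -(1 / (s * Real.sqrt (2 * Real.pi))) * (X * Real.exp (-X ^ 2 / 2)) := by
  have ht : 0 < Real.sqrt s := Real.sqrt_pos.mpr hs
  have hss : Real.sqrt s ^ 2 = s := Real.sq_sqrt hs.le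
  have hz : z = Real.sqrt s * X := by rw [hX]; field_simp
  have h1 : Real.sqrt (2 * Real.pi * s) = Real.sqrt (2 * Real.pi) * Real.sqrt s :=
    Real.sqrt_mul (by positivity) s
  have h2 : -z ^ 2 / (2 * s) = -X ^ 2 / 2 := by
    rw [hz]
    have : (Real.sqrt s * X) ^ 2 = s * X ^ 2 := by rw [mul_pow, hss]
    rw [this]; field_simp
  have hp : 0 < Real.sqrt (2 * Real.pi) := Real.sqrt_pos.mpr (by positivity)
  unfold gau1 gau
  rw [h1, h2, hz]
  have h3 : Real.sqrt s * X / s = X / Real.sqrt s := by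
    rw [div_eq_div_iff hs.ne' ht.ne']
    calc Real.sqrt s * X * Real.sqrt s = Real.sqrt s ^ 2 * X := by ring
      _ = X * s := by rw [hss]; ring
  rw [h3]
  have h4 : s * Real.sqrt (2 * Real.pi) = Real.sqrt s * (Real.sqrt (2 * Real.pi) * Real.sqrt s) := by
    calc s * Real.sqrt (2 * Real.pi) = Real.sqrt s ^ 2 * Real.sqrt (2 * Real.pi) := by rw [hss]
      _ = _ := by ring
  rw [h4]
  field_simp

private lemma orth_zero {N : ℕ} (x ψ : Fin (N + 1) → ℝ) (y : ℝ) (K : ℕ)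
    (h : ∀ k ≤ K, ∑ q, ψ q * (x q ^ k * Real.exp (-x q ^ 2 / 2)) = 0) :
    ∑ q, ψ q * ((x q + y) * Real.exp (-x q ^ 2 / 2) * Real.exp (-y ^ 2 / 2) *
      ∑ k ∈ range K, (-(x q * y)) ^ k / (k.factorial : ℝ)) = 0 := by
  have e : ∀ q, ψ q * ((x q + y) * Real.exp (-x q ^ 2 / 2) * Real.exp (-y ^ 2 / 2) *
      ∑ k ∈ range K, (-(x q * y)) ^ k / (k.factorial : ℝ)) =
      ∑ k ∈ range K, (Real.exp (-y ^ 2 / 2) * (-y) ^ k / (k.factorial : ℝ)) *
        (ψ q * (x q ^ (k + 1) * Real.exp (-x q ^ 2 / 2)) +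
          y * (ψ q * (x q ^ k * Real.exp (-x q ^ 2 / 2)))) := by
    intro q
    rw [mul_sum, mul_sum]
    apply sum_congr rfl
    intro k _
    have : (-(x q * y)) ^ k = x q ^ k * (-y) ^ k := by
      rw [← mul_pow]; congr 1; ring
    rw [this, pow_succ]
    ring
  rw [sum_congr rfl (fun q _ => e q), sum_comm]
  apply sum_eq_zero
  intro k hk
  rw [← mul_sum, sum_add_distrib, ← mul_sum, h (k + 1) (by simpa using mem_range.mp hk),
    h k (mem_range.mp hk).le]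
  ring

theorem orth {N : ℕ} (b r ψ : Fin (N + 1) → ℝ) {s c v : ℝ} (hs : 0 < s) (K : ℕ)
    (hv : |v - c| ≤ 2 * Real.sqrt s)
    (h : ∀ k ≤ K, ∑ q, ψ q * (((c - r q - b q) / Real.sqrt s) ^ k *
      Real.exp (-((c - r q - b q) / Real.sqrt s) ^ 2 / 2)) = 0) :
    |grad1 b r s v ψ| ≤ Real.exp 262 / 3 ^ K / s *
      ∑ q, |ψ q| * Real.exp (-(3 / 8) * (v - r q - b q) ^ 2 / s) := by
  have ht : 0 < Real.sqrt s := Real.sqrt_pos.mpr hs
  have hss : Real.sqrt s ^ 2 = s := Real.sq_sqrt hs.le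
  obtain ⟨x, hx⟩ : ∃ x : Fin (N + 1) → ℝ, x = fun q => (c - r q - b q) / Real.sqrt s := ⟨_, rfl⟩
  obtain ⟨y, hy⟩ : ∃ y : ℝ, y = (v - c) / Real.sqrt s := ⟨_, rfl⟩
  have hy2 : |y| ≤ 2 := by
    rw [hy, abs_div, abs_of_pos ht, div_le_iff₀ ht]; exact hv
  have hX : ∀ q, x q + y = (v - r q - b q) / Real.sqrt s := by
    intro q; rw [hx, hy]; simp only; rw [← add_div]; congr 1; ring
  have h' : ∀ k ≤ K, ∑ q, ψ q * (x q ^ k * Real.exp (-x q ^ 2 / 2)) = 0 := by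
    intro k hk; rw [hx]; exact h k hk
  have h0 := orth_zero x ψ y K h'
  have hp1 : 1 ≤ Real.sqrt (2 * Real.pi) := by
    rw [Real.one_le_sqrt]
    have := Real.pi_gt_three
    linarith
  have hg : grad1 b r s v ψ = -(1 / (s * Real.sqrt (2 * Real.pi))) *
      ∑ q, ψ q * ((x q + y) * Real.exp (-(x q + y) ^ 2 / 2) -
        (x q + y) * Real.exp (-x q ^ 2 / 2) * Real.exp (-y ^ 2 / 2) *
          ∑ k ∈ range K, (-(x q * y)) ^ k / (k.factorial : ℝ)) := by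
    have : ∑ q, ψ q * ((x q + y) * Real.exp (-(x q + y) ^ 2 / 2) -
        (x q + y) * Real.exp (-x q ^ 2 / 2) * Real.exp (-y ^ 2 / 2) *
          ∑ k ∈ range K, (-(x q * y)) ^ k / (k.factorial : ℝ)) =
        ∑ q, ψ q * ((x q + y) * Real.exp (-(x q + y) ^ 2 / 2)) := by
      rw [← sub_zero (∑ q, ψ q * ((x q + y) * Real.exp (-(x q + y) ^ 2 / 2))), ← h0,
        ← sum_sub_distrib]
      apply sum_congr rfl; intro q _; ring
    rw [this, mul_sum]
    unfold grad1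
    apply sum_congr rfl
    intro q _
    rw [gau1_eq hs (hX q)]
    ring
  rw [hg, abs_mul, abs_neg, abs_of_pos (by positivity : (0:ℝ) < 1 / (s * Real.sqrt (2 * Real.pi)))]
  have h5 : |∑ q, ψ q * ((x q + y) * Real.exp (-(x q + y) ^ 2 / 2) -
        (x q + y) * Real.exp (-x q ^ 2 / 2) * Real.exp (-y ^ 2 / 2) *
          ∑ k ∈ range K, (-(x q * y)) ^ k / (k.factorial : ℝ))| ≤
      Real.exp 262 / 3 ^ K * ∑ q, |ψ q| * Real.exp (-(3 / 8) * (v - r q - b q) ^ 2 / s) := by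
    refine (abs_sum_le_sum_abs _ _).trans ?_
    rw [mul_sum]
    apply sum_le_sum
    intro q _
    rw [abs_mul]
    have h6 := taylor_rem K (x q) y hy2
    have h7 : (x q + y) ^ 2 = (v - r q - b q) ^ 2 / s := by
      rw [hX q, div_pow, hss]
    calc |ψ q| * _ ≤ |ψ q| * (Real.exp 262 / 3 ^ K * Real.exp (-(3 / 8) * (x q + y) ^ 2)) :=
          mul_le_mul_of_nonneg_left h6 (abs_nonneg _)
      _ = Real.exp 262 / 3 ^ K * (|ψ q| * Real.exp (-(3 / 8) * (v - r q - b q) ^ 2 / s)) := by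
          rw [h7, mul_div_assoc]; ring
  have h8 : 1 / (s * Real.sqrt (2 * Real.pi)) ≤ 1 / s := by
    apply one_div_le_one_div_of_le hs
    nlinarith
  calc 1 / (s * Real.sqrt (2 * Real.pi)) * |_| ≤ 1 / s * |_| :=
        mul_le_mul_of_nonneg_right h8 (abs_nonneg _)
    _ ≤ 1 / s * (Real.exp 262 / 3 ^ K *
          ∑ q, |ψ q| * Real.exp (-(3 / 8) * (v - r q - b q) ^ 2 / s)) :=
        mul_le_mul_of_nonneg_left h5 (by positivity)
    _ = _ := by ring

end Pool.Agent.Lib.HAP
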