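import Mathlib
import Pool.Agent.Lib.HAP.Defs

/-!
MODULE Greedy: few break points make the form `Pf` nonnegative.

PROOF.  For `a ≤ N + 1` let `S(m, a)` be the statement: if there are no `m + 1` functions supported in
`[a, N]` with `Sep` and `Pf < 0`, then there is `B`, `B.card ≤ 2 m`, all elements `≥ a`, such that
`0 ≤ Pf ψ` for every `ψ` supported in `[a, N]` which vanishes on `B`.  Induction on `m`.
If there is no function supported in `[a, N]` with `Pf < 0`, then `B = ∅` (this covers `m = 0`).
Otherwise let `t` be minimal such that some `ψ₀` supported in `[a, t]` has `Pf ψ₀ < 0`.  There are no `m`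
functions supported in `[t + 2, N]` with `Sep` and `Pf < 0` (adding `ψ₀` would give `m + 1`), so by the
induction hypothesis for `(m - 1, t + 2)` we get `B'`; let `B = B' ∪ {t, t + 1}` (those of the two which
are at most `N`).  If `ψ` is supported in `[a, N]` and vanishes on `B`, then `ψ = ψ₁ + ψ₂`, `ψ₁` the
restriction to `[a, t - 1]` and `ψ₂` the restriction to `[t + 2, N]`; the supports have distance `≥ 3`,
so `dirE ψ = dirE ψ₁ + dirE ψ₂` and `Pf ψ = Pf ψ₁ + Pf ψ₂` (the term `e (ψ 0)^2` sees at most one of
them), `Pf ψ₁ ≥ 0` by minimality of `t` and `Pf ψ₂ ≥ 0` by the choice of `B'`.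
-/

namespace Pool.Agent.Lib.HAP

open Finset

private theorem greedy_zero {N : ℕ} {A e τ : ℝ} (d : Fin (N + 1) → ℝ) (ψ : Fin (N + 1) → ℝ)
    (h : ∀ q, ψ q = 0) : Pf A e τ d ψ = 0 := by
  have h1 : ψ = fun _ => 0 := funext h
  rw [h1]
  simp [Pf, dirE]

private theorem greedy_split {N : ℕ} {A e τ : ℝ} (d ψ : Fin (N + 1) → ℝ) (s : ℕ)
    (h1 : ∀ q : Fin (N + 1), q.val = s → ψ q = 0) (h2 : ∀ q : Fin (N + 1), q.val = s + 1 → ψ q = 0) :
    Pf A e τ d ψ = Pf A e τ d (fun q => if q.val < s then ψ q else 0) +
      Pf A e τ d (fun q => if s + 2 ≤ q.val then ψ q else 0) := by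
  have key : ∀ q : Fin (N + 1), (ψ q) ^ 2 = (if q.val < s then ψ q else 0) ^ 2 +
      (if s + 2 ≤ q.val then ψ q else 0) ^ 2 := by
    intro q
    by_cases c1 : q.val < s
    · rw [if_pos c1, if_neg (by omega)]
      ring
    · by_cases c2 : s + 2 ≤ q.val
      · rw [if_neg c1, if_pos c2]
        ring
      · have h0 : ψ q = 0 := by
          have : q.val = s ∨ q.val = s + 1 := by omega
          rcases this with h | h
          · exact h1 q h
          · exact h2 q h
        rw [if_neg c1, if_neg c2, h0]
        ring
  have e1 : dirE ψ = dirE (fun q => if q.val < s then ψ q else 0) +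
      dirE (fun q => if s + 2 ≤ q.val then ψ q else 0) := by
    unfold dirE
    rw [← Finset.sum_add_distrib]
    refine Finset.sum_congr rfl fun i _ => ?_
    have a1 : (i.succ : Fin (N + 1)).val = i.val + 1 := Fin.val_succ i
    have a2 : (i.castSucc : Fin (N + 1)).val = i.val := Fin.val_castSucc i
    have b1 := h1 i.succ
    have b2 := h1 i.castSucc
    have b3 := h2 i.succ
    have b4 := h2 i.castSucc
    rw [a1] at b1 b3
    rw [a2] at b2 b4
    simp only [a1, a2]
    by_cases c1 : i.val + 1 < s
    · rw [if_pos c1, if_pos (by omega), if_neg (by omega), if_neg (by omega)]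
      ring
    · by_cases c2 : i.val + 1 = s
      · rw [if_neg c1, if_pos (by omega), if_neg (by omega), if_neg (by omega), b1 c2]
        ring
      · by_cases c3 : i.val = s
        · rw [if_neg c1, if_neg (by omega), if_neg (by omega), if_neg (by omega), b2 c3, b3 (by omega)]
          ring
        · by_cases c4 : i.val = s + 1
          · rw [if_neg c1, if_neg (by omega), if_pos (by omega), if_neg (by omega), b4 c4]
            ring
          · rw [if_neg c1, if_neg (by omega), if_pos (by omega), if_pos (by omega)]
            ring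
  have e2 : ∑ q, (d q - τ) * (ψ q) ^ 2 = ∑ q : Fin (N + 1), (d q - τ) * (if q.val < s then ψ q else 0) ^ 2 +
      ∑ q : Fin (N + 1), (d q - τ) * (if s + 2 ≤ q.val then ψ q else 0) ^ 2 := by
    rw [← Finset.sum_add_distrib]
    refine Finset.sum_congr rfl fun q _ => ?_
    rw [key q]
    ring
  unfold Pf
  rw [e1, e2, key 0]
  ring

private theorem greedy_main {N : ℕ} {A e τ : ℝ} (d : Fin (N + 1) → ℝ) (m : ℕ) : ∀ a : ℕ,
    (¬ ∃ ψ : Fin (m + 1) → Fin (N + 1) → ℝ, Sep ψ ∧ (∀ i, ∀ q : Fin (N + 1), q.val < a → ψ i q = 0) ∧
      ∀ i, Pf A e τ d (ψ i) < 0) →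
    ∃ B : Finset (Fin (N + 1)), B.card ≤ 2 * m ∧
      ∀ ψ : Fin (N + 1) → ℝ, (∀ q : Fin (N + 1), q.val < a → ψ q = 0) → (∀ q ∈ B, ψ q = 0) →
        0 ≤ Pf A e τ d ψ := by
  induction m with
  | zero =>
    intro a hno
    refine ⟨∅, by simp, ?_⟩
    intro ψ hψ _
    by_contra hc
    push Not at hc
    refine hno ⟨fun _ => ψ, ?_, fun _ => hψ, fun _ => hc⟩
    intro i j hij
    exact absurd (Fin.ext (by omega)) hij
  | succ m ih =>
    intro a hno
    by_cases hex : ∃ t : ℕ, ∃ ψ₀ : Fin (N + 1) → ℝ, (∀ q : Fin (N + 1), q.val < a → ψ₀ q = 0) ∧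
        (∀ q : Fin (N + 1), t ≤ q.val → ψ₀ q = 0) ∧ Pf A e τ d ψ₀ < 0
    · classical
      have hfind := Nat.find_spec hex
      have hmin := fun t => Nat.find_min (m := t) hex
      generalize Nat.find hex = t at hfind hmin
      obtain ⟨ψ₀, hψa, hψt, hψ0⟩ := hfind
      obtain ⟨s, rfl⟩ : ∃ s, t = s + 1 := by
        cases t with
        | zero =>
          exfalso
          rw [greedy_zero d ψ₀ (fun q => hψt q (Nat.zero_le _))] at hψ0
          exact lt_irrefl _ hψ0
        | succ s => exact ⟨s, rfl⟩
      have hno' : ¬ ∃ ψ : Fin (m + 1) → Fin (N + 1) → ℝ, Sep ψ ∧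
          (∀ i, ∀ q : Fin (N + 1), q.val < s + 2 → ψ i q = 0) ∧ ∀ i, Pf A e τ d (ψ i) < 0 := by
        rintro ⟨ψ, hsep, hsupp, hneg⟩
        by_cases hlt : s + 2 ≤ a
        · refine hno ⟨Fin.cons ψ₀ ψ, ?_, ?_, ?_⟩
          · intro i j hij p q hp hq
            exact absurd hψ0 (by
              rw [greedy_zero d ψ₀ (fun q => ?_)]
              · exact lt_irrefl _
              · by_cases hqa : q.val < a
                · exact hψa q hqa
                · exact hψt q (by omega))
          · exact absurd hψ0 (by
              rw [greedy_zero d ψ₀ (fun q => ?_)]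
              · exact lt_irrefl _
              · by_cases hqa : q.val < a
                · exact hψa q hqa
                · exact hψt q (by omega))
          · intro i
            refine Fin.cases ?_ (fun j => ?_) i
            · exact hψ0
            · exact hneg j
        · have hsepc : ∀ j : Fin (m + 1), ∀ p q : Fin (N + 1), ψ₀ p ≠ 0 → ψ j q ≠ 0 → p.val + 2 ≤ q.val := by
            intro j p q hp hq
            have h1 : p.val < s + 1 := by
              by_contra hc
              exact hp (hψt p (by omega))
            have h2 : s + 2 ≤ q.val := by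
              by_contra hc
              exact hq (hsupp j q (by omega))
            omega
          refine hno ⟨Fin.cons ψ₀ ψ, ?_, ?_, ?_⟩
          · intro i
            refine Fin.cases ?_ (fun i' => ?_) i
            · intro j
              refine Fin.cases ?_ (fun j' => ?_) j
              · intro h
                exact absurd rfl h
              · intro _ p q hp hq
                exact Or.inl (hsepc j' p q hp hq)
            · intro j
              refine Fin.cases ?_ (fun j' => ?_) j
              · intro _ p q hp hq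
                exact Or.inr (hsepc i' q p hq hp)
              · intro h p q hp hq
                exact hsep i' j' (fun h' => h (by rw [h'])) p q hp hq
          · intro i
            refine Fin.cases ?_ (fun j => ?_) i
            · exact hψa
            · intro q hq
              exact hsupp j q (by omega)
          · intro i
            refine Fin.cases ?_ (fun j => ?_) i
            · exact hψ0
            · exact hneg j
      obtain ⟨B, hB, hBp⟩ := ih (s + 2) hno'
      let B2 : Finset (Fin (N + 1)) := Finset.univ.filter fun q => q.val = s ∨ q.val = s + 1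
      have hB2 : B2.card ≤ 2 := by
        have h1 : (B2.image Fin.val) ⊆ {s, s + 1} := by
          intro x hx
          obtain ⟨q, hq, rfl⟩ := Finset.mem_image.1 hx
          have := (Finset.mem_filter.1 hq).2
          simpa using this
        have h2 := Finset.card_le_card h1
        rw [Finset.card_image_of_injective _ Fin.val_injective] at h2
        exact h2.trans Finset.card_le_two
      refine ⟨B ∪ B2, ?_, ?_⟩
      · calc (B ∪ B2).card ≤ B.card + B2.card := Finset.card_union_le _ _
          _ ≤ 2 * m + 2 := Nat.add_le_add hB hB2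
          _ = 2 * (m + 1) := by ring
      · intro ψ hψ hψB
        have hv : ∀ q : Fin (N + 1), (q.val = s ∨ q.val = s + 1) → ψ q = 0 := fun q hq =>
          hψB q (Finset.mem_union_right _ (Finset.mem_filter.2 ⟨Finset.mem_univ _, hq⟩))
        rw [greedy_split d ψ s (fun q hq => hv q (Or.inl hq)) (fun q hq => hv q (Or.inr hq))]
        refine add_nonneg ?_ ?_
        · by_contra hc
          push Not at hc
          refine hmin s (Nat.lt_succ_self s) ⟨_, ?_, ?_, hc⟩
          · intro q hq
            show (if q.val < s then ψ q else 0) = 0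
            rw [hψ q hq, ite_self]
          · intro q hq
            show (if q.val < s then ψ q else 0) = 0
            rw [if_neg (by omega)]
        · refine hBp _ ?_ ?_
          · intro q hq
            show (if s + 2 ≤ q.val then ψ q else 0) = 0
            rw [if_neg (by omega)]
          · intro q hq
            show (if s + 2 ≤ q.val then ψ q else 0) = 0
            rw [hψB q (Finset.mem_union_left _ hq), ite_self]
    · refine ⟨∅, by simp, ?_⟩
      intro ψ hψ _
      by_contra hc
      push Not at hc
      exact hex ⟨N + 1, ψ, hψ, fun q hq => absurd q.isLt (by omega), hc⟩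

theorem breaks {N m : ℕ} {A e τ : ℝ} (d : Fin (N + 1) → ℝ)
    (hno : ¬ ∃ ψ : Fin (m + 1) → Fin (N + 1) → ℝ, Sep ψ ∧ ∀ i, Pf A e τ d (ψ i) < 0) :
    ∃ B : Finset (Fin (N + 1)), B.card ≤ 2 * m ∧
      ∀ ψ : Fin (N + 1) → ℝ, (∀ q ∈ B, ψ q = 0) → 0 ≤ Pf A e τ d ψ := by
  obtain ⟨B, hB, h⟩ := greedy_main (A := A) (e := e) (τ := τ) d m 0 (by
    rintro ⟨ψ, h1, _, h2⟩
    exact hno ⟨ψ, h1, h2⟩)
  exact ⟨B, hB, fun ψ hψ => h ψ (fun q hq => absurd hq (Nat.not_lt_zero _)) hψ⟩

end Pool.Agent.Lib.HAP
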