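import Mathlib
import Pool.Agent.Lib.HAP.Defs

/-!
MODULE NoMany: if `Pf` is nonnegative on the intersection of the kernels of `m` functionals, then there
are no `m + 1` functions with separated supports and `Pf < 0`.

PROOF.  `Pf` of a combination of functions with separated supports: for every position `q` at most one
`ψ i q` is nonzero, and for every edge `(i.castSucc, i.succ)` all functions but one vanish at both ends,
so `Pf (∑ c_i ψ_i) = ∑ c_i^2 Pf (ψ_i)`.  The `m` linear equations `∑_i c_i ⟨ψ_i, ℓ_k⟩ = 0` in `m + 1`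
unknowns have a nonzero solution `c` (the linear map `(Fin (m+1) → ℝ) → (Fin m → ℝ)` is not injective,
`LinearMap.exists_ne_zero_of_finrank_lt`-type lemma / `Module.finrank`); then
`0 ≤ Pf (∑ c_i ψ_i) = ∑ c_i^2 Pf (ψ_i) < 0`.
-/

namespace Pool.Agent.Lib.HAP

open Finset

private lemma NoMany_kernel {ι : Type} [Fintype ι] {m : ℕ} (h : Fintype.card ι < m)
    (A : ι → Fin m → ℝ) : ∃ c : Fin m → ℝ, c ≠ 0 ∧ ∀ k, ∑ i, c i * A k i = 0 := by
  let f : (Fin m → ℝ) →ₗ[ℝ] (ι → ℝ) :=
    { toFun := fun c k => ∑ i, c i * A k i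
      map_add' := by
        intro x y; funext k
        simp [add_mul, sum_add_distrib]
      map_smul' := by
        intro t x; funext k
        simp [mul_sum, mul_assoc] }
  have hk : LinearMap.ker f ≠ ⊥ := by
    apply LinearMap.ker_ne_bot_of_finrank_lt
    simpa using h
  obtain ⟨c, hc, hc0⟩ := Submodule.exists_mem_ne_zero_of_ne_bot hk
  refine ⟨c, hc0, fun k => ?_⟩
  have h1 : f c = 0 := hc
  exact congrFun h1 k

private lemma NoMany_sq {m : ℕ} (c x : Fin m → ℝ) (h : ∀ i j, i ≠ j → x i = 0 ∨ x j = 0) :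
    (∑ i, c i * x i) ^ 2 = ∑ i, (c i) ^ 2 * (x i) ^ 2 := by
  rw [sq, sum_mul_sum]
  apply sum_congr rfl
  intro i _
  rw [sum_eq_single i]
  · ring
  · intro j _ hji
    rcases h i j (Ne.symm hji) with h1 | h1 <;> rw [h1] <;> ring
  · intro h; exact absurd (mem_univ i) h

theorem no_many {N m : ℕ} {A e τ : ℝ} (d : Fin (N + 1) → ℝ) (ℓ : Fin m → Fin (N + 1) → ℝ)
    (hpos : ∀ ψ : Fin (N + 1) → ℝ, (∀ k, ∑ q, ψ q * ℓ k q = 0) → 0 ≤ Pf A e τ d ψ) :
    ¬ ∃ ψ : Fin (m + 1) → Fin (N + 1) → ℝ, Sep ψ ∧ ∀ i, Pf A e τ d (ψ i) < 0 := by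
  classical
  rintro ⟨ψ, hsep, hneg⟩
  obtain ⟨c, hc0, hc⟩ := NoMany_kernel (ι := Fin m) (m := m + 1) (by simp)
    (fun k i => ∑ q, ψ i q * ℓ k q)
  have hker : ∀ k, ∑ q, (∑ i, c i * ψ i q) * ℓ k q = 0 := by
    intro k
    rw [← hc k]
    simp only [sum_mul, mul_sum]
    rw [sum_comm]
    apply sum_congr rfl; intro i _
    apply sum_congr rfl; intro q _
    ring
  have h1 := hpos (fun q => ∑ i, c i * ψ i q) hker
  have hpt : ∀ q, (∑ i, c i * ψ i q) ^ 2 = ∑ i, (c i) ^ 2 * (ψ i q) ^ 2 := by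
    intro q
    apply NoMany_sq c fun i => ψ i q
    intro i j hij
    by_contra hcon2
    push Not at hcon2
    rcases hsep i j hij q q hcon2.1 hcon2.2 with h2 | h2 <;> omega
  have hedge : ∀ i : Fin N, (∑ j, c j * ψ j i.succ - ∑ j, c j * ψ j i.castSucc) ^ 2 =
      ∑ j, (c j) ^ 2 * (ψ j i.succ - ψ j i.castSucc) ^ 2 := by
    intro i
    have h2 : ∑ j, c j * ψ j i.succ - ∑ j, c j * ψ j i.castSucc =
        ∑ j, c j * (ψ j i.succ - ψ j i.castSucc) := by
      rw [← sum_sub_distrib]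
      apply sum_congr rfl; intro j _; ring
    rw [h2]
    apply NoMany_sq c fun j => ψ j i.succ - ψ j i.castSucc
    intro j k hjk
    by_contra hcon2
    push Not at hcon2
    obtain ⟨hj, hk⟩ := hcon2
    have e1 : ∃ p : Fin (N + 1), (p = i.succ ∨ p = i.castSucc) ∧ ψ j p ≠ 0 := by
      by_contra h
      push Not at h
      exact hj (by rw [h _ (Or.inl rfl), h _ (Or.inr rfl), sub_zero])
    have e2 : ∃ p : Fin (N + 1), (p = i.succ ∨ p = i.castSucc) ∧ ψ k p ≠ 0 := by
      by_contra h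
      push Not at h
      exact hk (by rw [h _ (Or.inl rfl), h _ (Or.inr rfl), sub_zero])
    obtain ⟨p, hp, hp0⟩ := e1
    obtain ⟨p', hp', hp0'⟩ := e2
    have e3 := hsep j k hjk p p' hp0 hp0'
    rcases hp with rfl | rfl <;> rcases hp' with rfl | rfl <;>
      simp only [Fin.val_succ, Fin.val_castSucc] at e3 <;> omega
  have h2 : Pf A e τ d (fun q => ∑ i, c i * ψ i q) = ∑ i, (c i) ^ 2 * Pf A e τ d (ψ i) := by
    unfold Pf dirE
    simp only [hedge, hpt, mul_sub, mul_add, sum_add_distrib, sum_sub_distrib]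
    congr 1
    · congr 1
      · simp only [mul_sum]
        rw [sum_comm]
        apply sum_congr rfl; intro i _
        apply sum_congr rfl; intro j _
        ring
      · rw [mul_sum]
        apply sum_congr rfl; intro i _
        ring
    · simp only [mul_sum]
      rw [sum_comm]
      apply sum_congr rfl; intro i _
      apply sum_congr rfl; intro j _
      ring
  rw [h2] at h1
  have hex : ∃ i, c i ≠ 0 := by
    by_contra h; push Not at h; exact hc0 (funext h)
  obtain ⟨i, hi⟩ := hex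
  have h3 : ∑ i, (c i) ^ 2 * Pf A e τ d (ψ i) < 0 := by
    refine sum_neg' (fun j _ => ?_) ⟨i, mem_univ i, ?_⟩
    · exact mul_nonpos_of_nonneg_of_nonpos (sq_nonneg _) (hneg j).le
    · exact mul_neg_of_pos_of_neg (by positivity) (hneg i)
  linarith

end Pool.Agent.Lib.HAP
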