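import Mathlib
import Pool.Agent.Lib.HAP.Defs

/-!
MODULE PartU: partition of unity; bound of `∑ d q` from the break points.

PROOF.  Let `c u = cos (π u / 2)` for `|u| ≤ 1` and `0` otherwise; `|c u - c u'| ≤ (π/2)|u - u'|`, and
`∑_{m ∈ ℤ} c (t - m)^2 = 1` for every real `t` (only `m = ⌊t⌋, ⌊t⌋ + 1`: `cos^2 + sin^2`).
`θ m q = c (q / w - m)` for `m = 0, .., N/w + 1`.  `θ m` is supported in `(m-1) w < q < (m+1) w`
(at most `2 w + 1` positions, contained in `[a, a + 2w]`), `|θ m| ≤ 1`,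
`dirE (θ m) ≤ 2 w (π/(2w))^2 = π^2/(2w) ≤ 5/w` (at most `2 w` edges with a difference).
Let `Mk` (marked) be the set of `m` such that `θ m q ≠ 0` for some `q ∈ B`; `Mk.card ≤ 2 B.card`.
Let `χ q = √(∑_{m ∉ Mk} (θ m q)^2)`.  `χ` vanishes on `B`.  On the positions `m w ≤ q ≤ (m+1) w` only
`θ m` and `θ (m+1)` matter: `χ = 1` there if both are unmarked, `χ = 0` if both are marked,
`χ = |θ|` of the unmarked one otherwise.  So `dirE χ ≤ (number of m with m or m+1 marked) * w (π/(2w))^2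
≤ 2 Mk.card * 2.5/w ≤ 10 B.card/w`.  Now
`∑ d q = ∑_{m ∈ Mk} ∑ q, d q (θ m q)^2 + ∑ q, d q (χ q)^2`
`≤ Mk.card (5A/w + Λ) + e ∑_{m ∈ Mk} (θ m 0)^2 + A * 10 B.card/w + e (χ 0)^2 + τ ∑ (χ q)^2`
(`hloc` for `θ m`; `hB` for `χ`: `∑ (d q - τ)(χ q)^2 ≤ A dirE χ + e (χ 0)^2`)
`≤ B.card (20 A/w + 2 Λ) + e + τ (N+1)`.
-/

namespace Pool.Agent.Lib.HAP

open Finset

/-- the bump function -/
private noncomputable def PartU_c (u : ℝ) : ℝ := Real.cos (Real.pi / 2 * min |u| 1)

private theorem PartU_lip (u v : ℝ) : |PartU_c u - PartU_c v| ≤ Real.pi / 2 * |u - v| := by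
  unfold PartU_c
  have hpi : 0 < Real.pi / 2 := by positivity
  have h1 := Real.lipschitzWith_cos.dist_le_mul (Real.pi / 2 * min |u| 1)
    (Real.pi / 2 * min |v| 1)
  rw [Real.dist_eq, Real.dist_eq, NNReal.coe_one, one_mul, ← mul_sub, abs_mul,
    abs_of_pos hpi] at h1
  refine h1.trans (mul_le_mul_of_nonneg_left ?_ hpi.le)
  refine (abs_min_sub_min_le_max _ _ _ _).trans (max_le (abs_abs_sub_abs_le u v) ?_)
  rw [sub_self, abs_zero]
  exact abs_nonneg _

private theorem PartU_zero {u : ℝ} (h : 1 ≤ |u|) : PartU_c u = 0 := by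
  unfold PartU_c
  rw [min_eq_right h, mul_one, Real.cos_pi_div_two]

private theorem PartU_le (u : ℝ) : |PartU_c u| ≤ 1 := Real.abs_cos_le_one _

private theorem PartU_sq {f : ℝ} (h0 : 0 ≤ f) (h1 : f ≤ 1) :
    PartU_c f ^ 2 + PartU_c (f - 1) ^ 2 = 1 := by
  unfold PartU_c
  rw [abs_of_nonneg h0, min_eq_left h1, abs_of_nonpos (by linarith), min_eq_left (by linarith)]
  have h : Real.pi / 2 * -(f - 1) = Real.pi / 2 - Real.pi / 2 * f := by ring
  rw [h, Real.cos_pi_div_two_sub]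
  exact Real.cos_sq_add_sin_sq _

private theorem PartU_off {t : ℝ} {j m : ℕ} (h0 : (j : ℝ) ≤ t) (h1 : t ≤ j + 1) (hm : m ≠ j)
    (hm' : m ≠ j + 1) : PartU_c (t - m) = 0 := by
  apply PartU_zero
  rcases lt_or_gt_of_ne hm with h | h
  · have h3 : (m : ℝ) + 1 ≤ j := by exact_mod_cast h
    rw [abs_of_nonneg (by linarith)]
    linarith
  · have h3 : (j : ℝ) + 2 ≤ m := by exact_mod_cast (show j + 2 ≤ m by omega)
    rw [abs_of_nonpos (by linarith)]
    linarith

private theorem PartU_two {t : ℝ} {j : ℕ} (h0 : (j : ℝ) ≤ t) (h1 : t ≤ j + 1) :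
    PartU_c (t - j) ^ 2 + PartU_c (t - (j + 1 : ℕ)) ^ 2 = 1 := by
  have h := PartU_sq (f := t - j) (by linarith) (by linarith)
  rw [← h]
  congr 3
  push_cast
  ring

private theorem PartU_sumT {t : ℝ} {j : ℕ} (h0 : (j : ℝ) ≤ t) (h1 : t ≤ j + 1) (T : Finset ℕ) :
    ∑ m ∈ T, PartU_c (t - m) ^ 2 = (if j ∈ T then PartU_c (t - j) ^ 2 else 0) +
      (if j + 1 ∈ T then PartU_c (t - (j + 1 : ℕ)) ^ 2 else 0) := by
  have h3 : ∀ m ∈ T, PartU_c (t - m) ^ 2 = (if m = j then PartU_c (t - m) ^ 2 else 0) +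
      (if m = j + 1 then PartU_c (t - m) ^ 2 else 0) := by
    intro m _
    by_cases hm : m = j
    · subst hm
      simp
    · by_cases hm' : m = j + 1
      · subst hm'
        simp
      · rw [if_neg hm, if_neg hm', PartU_off h0 h1 hm hm']
        simp
  rw [Finset.sum_congr rfl h3, Finset.sum_add_distrib, Finset.sum_ite_eq', Finset.sum_ite_eq']

private theorem PartU_one {t : ℝ} {j : ℕ} (h0 : (j : ℝ) ≤ t) (h1 : t ≤ j + 1) {M : ℕ}
    (hM : j + 1 < M) : ∑ m ∈ range M, PartU_c (t - m) ^ 2 = 1 := by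
  rw [PartU_sumT h0 h1, if_pos (mem_range.2 (by omega)), if_pos (mem_range.2 hM)]
  exact PartU_two h0 h1

/-- the increment of the complementary function -/
private theorem PartU_edge {t t' : ℝ} {j : ℕ} (h0 : (j : ℝ) ≤ t) (h1 : t ≤ j + 1)
    (h0' : (j : ℝ) ≤ t') (h1' : t' ≤ j + 1) (T : Finset ℕ) :
    (√(∑ m ∈ T, PartU_c (t - m) ^ 2) - √(∑ m ∈ T, PartU_c (t' - m) ^ 2)) ^ 2 ≤
      if (j ∉ T ∨ j + 1 ∉ T) then (Real.pi / 2 * |t - t'|) ^ 2 else 0 := by
  rw [PartU_sumT h0 h1, PartU_sumT h0' h1']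
  have hone : ∀ m : ℕ, (√(PartU_c (t - m) ^ 2) - √(PartU_c (t' - m) ^ 2)) ^ 2 ≤
      (Real.pi / 2 * |t - t'|) ^ 2 := by
    intro m
    rw [Real.sqrt_sq_eq_abs, Real.sqrt_sq_eq_abs, ← sq_abs]
    have h3 := PartU_lip (t - m) (t' - m)
    rw [sub_sub_sub_cancel_right] at h3
    exact pow_le_pow_left₀ (abs_nonneg _) ((abs_abs_sub_abs_le _ _).trans h3) 2
  by_cases hj : j ∈ T <;> by_cases hj' : j + 1 ∈ T
  · rw [if_pos hj, if_pos hj', if_pos hj, if_pos hj', PartU_two h0 h1, PartU_two h0' h1',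
      if_neg (by tauto), sub_self]
    norm_num
  · rw [if_pos hj, if_neg hj', if_pos hj, if_neg hj', if_pos (by tauto), add_zero, add_zero]
    exact hone j
  · rw [if_neg hj, if_pos hj', if_neg hj, if_pos hj', if_pos (by tauto), zero_add, zero_add]
    exact hone (j + 1)
  · rw [if_neg hj, if_neg hj', if_neg hj, if_neg hj', if_pos (by tauto), sub_self,
      zero_pow two_ne_zero]
    positivity

private theorem PartU_count {N w : ℕ} (hw : 1 ≤ w) (S : Finset ℕ) :
    ((univ : Finset (Fin N)).filter fun i => i.val / w ∈ S).card ≤ w * S.card := by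
  refine card_le_mul_card_image_of_maps_to (f := fun i : Fin N => i.val / w) (t := S)
    (fun i hi => (mem_filter.1 hi).2) w fun j _ => ?_
  have h1 : ((((univ : Finset (Fin N)).filter fun i => i.val / w ∈ S).filter
      fun i : Fin N => i.val / w = j).image fun i => i.val) ⊆ Ico (j * w) (j * w + w) := by
    intro x hx
    obtain ⟨i, hi, rfl⟩ := mem_image.1 hx
    have h3 := (mem_filter.1 hi).2
    rw [mem_Ico, ← h3]
    constructor
    · exact Nat.div_mul_le_self _ _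
    · have := Nat.lt_div_mul_add (a := i.val) (show 0 < w by omega)
      exact this
  have h4 := card_le_card h1
  rw [card_image_of_injective _ Fin.val_injective, Nat.card_Ico] at h4
  omega

/-- sum of an edge function supported in the blocks of `S` -/
private theorem PartU_sumS {N w : ℕ} (hw : 1 ≤ w) (S : Finset ℕ) {κ : ℝ} (hκ : 0 ≤ κ)
    (g : Fin N → ℝ) (hg : ∀ i, g i ≤ if i.val / w ∈ S then κ else 0) :
    ∑ i, g i ≤ κ * (w * S.card) := by
  refine (Finset.sum_le_sum fun i _ => hg i).trans ?_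
  rw [← Finset.sum_filter, Finset.sum_const, nsmul_eq_mul, mul_comm]
  refine mul_le_mul_of_nonneg_left ?_ hκ
  exact_mod_cast PartU_count hw S

private theorem PartU_kap {w : ℕ} (hw : 1 ≤ w) : (Real.pi / 2 * (1 / w)) ^ 2 * (w * 2) ≤
    5 / (w : ℝ) := by
  have hw' : (0 : ℝ) < w := by exact_mod_cast hw
  have h1 : (Real.pi / 2 * (1 / w)) ^ 2 * (w * 2) = Real.pi ^ 2 / 2 / w := by
    field_simp
  rw [h1]
  apply div_le_div_of_nonneg_right _ hw'.le
  have h3 := Real.pi_lt_d2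
  have h4 := Real.pi_pos
  nlinarith

theorem part_sum {N w : ℕ} (hw : 1 ≤ w) {A e τ Λ : ℝ} (hA : 0 ≤ A) (he : 0 ≤ e) (hτ : 0 ≤ τ)
    (hΛ : 0 ≤ Λ) (d : Fin (N + 1) → ℝ) (B : Finset (Fin (N + 1)))
    (hB : ∀ ψ : Fin (N + 1) → ℝ, (∀ q ∈ B, ψ q = 0) → 0 ≤ Pf A e τ d ψ)
    (hloc : ∀ ψ : Fin (N + 1) → ℝ, (∀ q, |ψ q| ≤ 1) →
      (∃ a : ℤ, ∀ q : Fin (N + 1), ψ q ≠ 0 → a ≤ (q.val : ℤ) ∧ (q.val : ℤ) ≤ a + 2 * w) →
      ∑ q, d q * (ψ q) ^ 2 ≤ A * dirE ψ + e * (ψ 0) ^ 2 + Λ) :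
    ∑ q, d q ≤ B.card * (40 * A / w + 2 * Λ) + 2 * e + τ * (N + 1) := by
  classical
  have hw' : (0 : ℝ) < w := by exact_mod_cast hw
  set M : ℕ := N / w + 2 with hM
  -- the blocks
  have hblk : ∀ q : ℕ, ((q / w : ℕ) : ℝ) ≤ (q : ℝ) / w ∧ (q : ℝ) / w ≤ ((q / w : ℕ) : ℝ) + 1 := by
    intro q
    constructor
    · rw [le_div_iff₀ hw']
      exact_mod_cast Nat.div_mul_le_self q w
    · rw [div_le_iff₀ hw', add_mul, one_mul]
      exact_mod_cast (Nat.lt_div_mul_add (a := q) (show 0 < w by omega)).le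
  have hblk' : ∀ q : ℕ, ((q / w : ℕ) : ℝ) ≤ ((q + 1 : ℕ) : ℝ) / w ∧
      ((q + 1 : ℕ) : ℝ) / w ≤ ((q / w : ℕ) : ℝ) + 1 := by
    intro q
    constructor
    · refine (hblk q).1.trans ?_
      apply div_le_div_of_nonneg_right _ hw'.le
      push_cast
      linarith
    · rw [div_le_iff₀ hw', add_mul, one_mul]
      exact_mod_cast (Nat.lt_div_mul_add (a := q) (show 0 < w by omega))
  have hdivN : ∀ q : ℕ, q ≤ N → q / w + 1 < M := by
    intro q hq
    have := Nat.div_le_div_right (c := w) hq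
    omega
  set θ : ℕ → Fin (N + 1) → ℝ := fun m q => PartU_c ((q.val : ℝ) / w - m) with hθ
  set Mk : Finset ℕ := B.image (fun q => q.val / w) ∪ B.image (fun q => q.val / w + 1) with hMk
  have hMkc : Mk.card ≤ 2 * B.card := by
    refine (card_union_le _ _).trans ?_
    have h1 : (B.image (fun q => q.val / w)).card ≤ B.card := card_image_le
    have h3 : (B.image (fun q => q.val / w + 1)).card ≤ B.card := card_image_le
    omega
  set T : Finset ℕ := (range M).filter (fun m => m ∉ Mk) with hT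
  set T' : Finset ℕ := (range M).filter (fun m => m ∈ Mk) with hT'
  have hT'c : T'.card ≤ 2 * B.card := by
    refine (card_le_card ?_).trans hMkc
    intro m hm
    exact (mem_filter.1 hm).2
  have hsplit : ∀ q : Fin (N + 1), ∑ m ∈ T', θ m q ^ 2 + ∑ m ∈ T, θ m q ^ 2 = 1 := by
    intro q
    rw [hT, hT', Finset.sum_filter_add_sum_filter_not]
    exact PartU_one (hblk q.val).1 (hblk q.val).2 (hdivN q.val (by omega))
  set χ : Fin (N + 1) → ℝ := fun q => √(∑ m ∈ T, θ m q ^ 2) with hχ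
  have hχsq : ∀ q, χ q ^ 2 = ∑ m ∈ T, θ m q ^ 2 := fun q =>
    Real.sq_sqrt (Finset.sum_nonneg fun m _ => sq_nonneg _)
  have hχ1 : ∀ q, χ q ^ 2 ≤ 1 := by
    intro q
    rw [hχsq, ← hsplit q]
    have : 0 ≤ ∑ m ∈ T', θ m q ^ 2 := Finset.sum_nonneg fun m _ => sq_nonneg _
    linarith
  -- the decomposition
  have hkey : ∑ q, d q = ∑ m ∈ T', ∑ q, d q * θ m q ^ 2 + ∑ q, d q * χ q ^ 2 := by
    rw [Finset.sum_comm, ← Finset.sum_add_distrib]
    refine Finset.sum_congr rfl fun q _ => ?_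
    rw [← Finset.mul_sum, hχsq, ← mul_add, hsplit, mul_one]
  set κ : ℝ := (Real.pi / 2 * (1 / w)) ^ 2 with hκ
  have hκ0 : 0 ≤ κ := sq_nonneg _
  have hκw := PartU_kap hw
  rw [← hκ] at hκw
  have hstep : ∀ i : Fin N, |((i.succ.val : ℕ) : ℝ) / w - ((i.castSucc.val : ℕ) : ℝ) / w| =
      1 / w := by
    intro i
    rw [Fin.val_succ, Fin.val_castSucc, ← sub_div]
    push_cast
    rw [add_sub_cancel_left, abs_of_nonneg (by positivity)]
  -- the local functions
  have hθE : ∀ m, dirE (θ m) ≤ 5 / w := by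
    intro m
    have h1 : dirE (θ m) ≤ κ * (w * (({m - 1, m} : Finset ℕ)).card) := by
      unfold dirE
      refine PartU_sumS hw _ hκ0 _ fun i => ?_
      by_cases hi : i.val / w ∈ ({m - 1, m} : Finset ℕ)
      · rw [if_pos hi, hκ, ← sq_abs]
        refine pow_le_pow_left₀ (abs_nonneg _) ?_ 2
        have h3 := PartU_lip (((i.succ.val : ℕ) : ℝ) / w - m) (((i.castSucc.val : ℕ) : ℝ) / w - m)
        rw [sub_sub_sub_cancel_right, hstep] at h3
        exact h3
      · rw [if_neg hi]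
        rw [mem_insert, mem_singleton, not_or] at hi
        have h3 : m ≠ i.val / w := fun h => hi.2 h.symm
        have h4 : m ≠ i.val / w + 1 := fun h => hi.1 (by rw [h, Nat.add_sub_cancel])
        have e1 : θ m i.succ = 0 := by
          change PartU_c (((i.succ.val : ℕ) : ℝ) / w - m) = 0
          rw [Fin.val_succ]
          exact PartU_off (hblk' i.val).1 (hblk' i.val).2 h3 h4
        have e2 : θ m i.castSucc = 0 := by
          change PartU_c (((i.castSucc.val : ℕ) : ℝ) / w - m) = 0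
          rw [Fin.val_castSucc]
          exact PartU_off (hblk i.val).1 (hblk i.val).2 h3 h4
        rw [e1, e2]
        norm_num
    refine h1.trans (le_trans ?_ hκw)
    refine mul_le_mul_of_nonneg_left (mul_le_mul_of_nonneg_left ?_ hw'.le) hκ0
    exact_mod_cast card_le_two
  have hχE : dirE χ ≤ 10 * B.card / w := by
    set S : Finset ℕ := Mk ∪ Mk.image (fun m => m - 1) with hS
    have hSc : S.card ≤ 4 * B.card := by
      refine (card_union_le _ _).trans ?_
      have : (Mk.image (fun m => m - 1)).card ≤ Mk.card := card_image_le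
      omega
    have h1 : dirE χ ≤ κ * (w * S.card) := by
      unfold dirE
      refine PartU_sumS hw _ hκ0 _ fun i => ?_
      have h3 := PartU_edge (t := ((i.succ.val : ℕ) : ℝ) / w)
        (t' := ((i.castSucc.val : ℕ) : ℝ) / w) (j := i.val / w)
        (by rw [Fin.val_succ]; exact (hblk' i.val).1) (by rw [Fin.val_succ]; exact (hblk' i.val).2)
        (by rw [Fin.val_castSucc]; exact (hblk i.val).1)
        (by rw [Fin.val_castSucc]; exact (hblk i.val).2) T
      rw [hstep, ← hκ] at h3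
      refine h3.trans ?_
      have hN := hdivN i.val (by omega)
      by_cases hi : i.val / w ∈ S
      · rw [if_pos hi]
        split_ifs
        · exact le_rfl
        · exact hκ0
      · rw [if_neg hi, if_neg]
        rw [hS, mem_union, not_or] at hi
        rw [not_or, not_not, not_not]
        constructor
        · exact mem_filter.2 ⟨mem_range.2 (by omega), hi.1⟩
        · refine mem_filter.2 ⟨mem_range.2 hN, fun h => hi.2 ?_⟩
          exact mem_image.2 ⟨_, h, Nat.add_sub_cancel ..⟩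
    have h3 : κ * (w * S.card) ≤ κ * (w * 2) * (2 * B.card) := by
      have h4 : (S.card : ℝ) ≤ 4 * B.card := by exact_mod_cast hSc
      calc κ * (w * S.card) ≤ κ * (w * (4 * B.card)) :=
            mul_le_mul_of_nonneg_left (mul_le_mul_of_nonneg_left h4 hw'.le) hκ0
        _ = κ * (w * 2) * (2 * B.card) := by ring
    refine h1.trans (h3.trans ?_)
    have h5 : κ * (w * 2) * (2 * B.card) ≤ 5 / w * (2 * B.card) :=
      mul_le_mul_of_nonneg_right hκw (by positivity)
    refine h5.trans (le_of_eq ?_)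
    ring
  -- the local inequality
  have hloc' : ∀ m ∈ T', ∑ q, d q * θ m q ^ 2 ≤ A * (5 / w) + e * θ m 0 ^ 2 + Λ := by
    intro m _
    have h1 := hloc (θ m) (fun q => PartU_le _) ⟨((m : ℤ) - 1) * w, fun q hq => ?_⟩
    · have h3 : A * dirE (θ m) ≤ A * (5 / w) := mul_le_mul_of_nonneg_left (hθE m) hA
      linarith
    · have h3 : |(q.val : ℝ) / w - m| < 1 := by
        by_contra hcon
        exact hq (PartU_zero (not_lt.1 hcon))
      rw [abs_lt] at h3
      have h4 : ((m : ℝ) - 1) * w < q.val := by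
        have := h3.1
        rw [← lt_div_iff₀ hw']
        linarith
      have h5 : (q.val : ℝ) < ((m : ℝ) + 1) * w := by
        have := h3.2
        rw [← div_lt_iff₀ hw']
        linarith
      have h6 : ((m : ℤ) - 1) * w < (q.val : ℤ) := by exact_mod_cast h4
      have h7 : (q.val : ℤ) < ((m : ℤ) + 1) * w := by exact_mod_cast h5
      constructor
      · exact h6.le
      · nlinarith
  have hsum1 : ∑ m ∈ T', ∑ q, d q * θ m q ^ 2 ≤
      T'.card * (A * (5 / w) + Λ) + e * ∑ m ∈ T', θ m 0 ^ 2 := by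
    refine (Finset.sum_le_sum hloc').trans (le_of_eq ?_)
    rw [Finset.mul_sum, Finset.sum_add_distrib, Finset.sum_add_distrib, Finset.sum_const,
      Finset.sum_const, nsmul_eq_mul, nsmul_eq_mul]
    ring
  -- the complement
  have hχB : ∀ q ∈ B, χ q = 0 := by
    intro q hq
    have h1 : ∑ m ∈ T, θ m q ^ 2 = 0 := by
      refine Finset.sum_eq_zero fun m hm => ?_
      have hm' := (mem_filter.1 hm).2
      rw [hMk, mem_union, not_or] at hm'
      have h3 : m ≠ q.val / w := fun h => hm'.1 (mem_image.2 ⟨q, hq, h.symm⟩)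
      have h4 : m ≠ q.val / w + 1 := fun h => hm'.2 (mem_image.2 ⟨q, hq, h.symm⟩)
      change PartU_c ((q.val : ℝ) / w - m) ^ 2 = 0
      rw [PartU_off (hblk q.val).1 (hblk q.val).2 h3 h4]
      norm_num
    change √(∑ m ∈ T, θ m q ^ 2) = 0
    rw [h1, Real.sqrt_zero]
  have hχP := hB χ hχB
  unfold Pf at hχP
  have h10 : ∑ q, (d q - τ) * χ q ^ 2 = ∑ q, d q * χ q ^ 2 - τ * ∑ q, χ q ^ 2 := by
    rw [Finset.mul_sum, ← Finset.sum_sub_distrib]
    exact Finset.sum_congr rfl fun q _ => by ring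
  rw [h10] at hχP
  have h11 : ∑ q, χ q ^ 2 ≤ (N + 1 : ℝ) := by
    refine (Finset.sum_le_sum fun q _ => hχ1 q).trans (le_of_eq ?_)
    rw [Finset.sum_const, card_univ, Fintype.card_fin, nsmul_eq_mul, mul_one]
    push_cast
    ring
  have h12 : τ * ∑ q, χ q ^ 2 ≤ τ * (N + 1) := mul_le_mul_of_nonneg_left h11 hτ
  have h13 : A * dirE χ ≤ A * (10 * B.card / w) := mul_le_mul_of_nonneg_left hχE hA
  have h14 : e * ∑ m ∈ T', θ m 0 ^ 2 + e * χ 0 ^ 2 = e := by
    rw [hχsq, ← mul_add, hsplit, mul_one]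
  have h15 : (T'.card : ℝ) * (A * (5 / w) + Λ) ≤ 2 * B.card * (A * (5 / w) + Λ) := by
    refine mul_le_mul_of_nonneg_right ?_ (by positivity)
    exact_mod_cast hT'c
  have h16 : (B.card : ℝ) * (40 * A / w + 2 * Λ) = 2 * B.card * (A * (5 / w) + Λ) +
      A * (10 * B.card / w) + 20 * (B.card * A / w) := by
    ring
  have h17 : 0 ≤ 20 * ((B.card : ℝ) * A / w) := by positivity
  rw [hkey, h16]
  linarith

end Pool.Agent.Lib.HAP
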