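import Mathlib
import Pool.Agent.Lib.HAP.Lat
import Pool.Agent.Lib.HAP.TentF

/-!
MODULE QUp: the load part of the form is small on functions with small derivative of the load.

PROOF.  Only `v` with `M ≤ load ≤ 2M` contribute (`tent_eq_zero`).  For such `v`, with
`X q = (v - r q - b q)/√s`, Cauchy-Schwarz:
`(∑ |ψ q| exp(-(3/8) X^2))^2 ≤ (∑ (ψ q)^2 exp(-X^2/4)) (∑ exp(-X^2/2))` and
`∑ exp(-X^2/2) = √(2 π s) load b r s v ≤ 2.6 √s * 2M ≤ 6 M √s`.  `tent ≤ 2/M`.  So the left side is at most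
`(1/2)(2/M)(E^2/s^2) 6 M √s ∑ q, (ψ q)^2 ∑ v ∈ V, exp(-(v - r q - b q)^2/(4s)) ≤ 120 E^2/s ∑ (ψ q)^2`
by `sum_exp_le`.
-/

namespace Pool.Agent.Lib.HAP

open Finset

private theorem qup_load {N : ℕ} {s : ℝ} (hs : 0 < s) (v : ℤ) (b r : Fin (N + 1) → ℝ) :
    ∑ q, Real.exp (-((v : ℝ) - r q - b q) ^ 2 / (2 * s)) =
      Real.sqrt (2 * Real.pi * s) * load b r s v := by
  have h0 : Real.sqrt (2 * Real.pi * s) ≠ 0 :=
    (Real.sqrt_pos.2 (by positivity)).ne'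
  unfold load gau
  rw [Finset.mul_sum]
  refine Finset.sum_congr rfl fun q _ => ?_
  field_simp

private theorem qup_sqrt {s : ℝ} (hs : 0 < s) :
    Real.sqrt (2 * Real.pi * s) ≤ 3 * Real.sqrt s := by
  have h1 : (3 : ℝ) * Real.sqrt s = Real.sqrt (9 * s) := by
    rw [Real.sqrt_mul (by norm_num : (0 : ℝ) ≤ 9),
      show (9 : ℝ) = 3 ^ 2 by norm_num, Real.sqrt_sq (by norm_num)]
  rw [h1]
  refine Real.sqrt_le_sqrt ?_
  have h2 := Real.pi_lt_d2
  nlinarith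

private theorem qup_point {N : ℕ} {M s E : ℝ} (hM : 0 < M) (hs : 1 ≤ s) (hE : 0 ≤ E) (v : ℤ)
    (b r ψ : Fin (N + 1) → ℝ)
    (hψ : M ≤ load b r s v → load b r s v ≤ 2 * M →
      |grad1 b r s v ψ| ≤ E / s * ∑ q, |ψ q| * Real.exp (-(3 / 8) * ((v : ℝ) - r q - b q) ^ 2 / s)) :
    tent M (load b r s v) * (grad1 b r s v ψ) ^ 2 ≤
      12 * E ^ 2 * Real.sqrt s / s ^ 2 *
        ∑ q, (ψ q) ^ 2 * Real.exp (-((v : ℝ) - (r q + b q)) ^ 2 / (4 * s)) := by
  have hs0 : 0 < s := by linarith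
  have hP : 0 ≤ ∑ q, (ψ q) ^ 2 * Real.exp (-((v : ℝ) - (r q + b q)) ^ 2 / (4 * s)) :=
    Finset.sum_nonneg fun q _ => by positivity
  by_cases h1 : M ≤ load b r s v ∧ load b r s v ≤ 2 * M
  swap
  · have h2 : tent M (load b r s v) = 0 := by
      apply tent_eq_zero hM
      rw [not_and_or, not_le, not_le] at h1
      exact h1.imp le_of_lt le_of_lt
    rw [h2, zero_mul]
    positivity
  · have h2 := hψ h1.1 h1.2
    set S := ∑ q, |ψ q| * Real.exp (-(3 / 8) * ((v : ℝ) - r q - b q) ^ 2 / s) with hS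
    set P := ∑ q, (ψ q) ^ 2 * Real.exp (-((v : ℝ) - (r q + b q)) ^ 2 / (4 * s)) with hPdef
    have h3 : S ^ 2 ≤ P * ∑ q, Real.exp (-((v : ℝ) - r q - b q) ^ 2 / (2 * s)) := by
      have h4 := Finset.sum_mul_sq_le_sq_mul_sq Finset.univ
        (fun q => |ψ q| * Real.exp (-((v : ℝ) - (r q + b q)) ^ 2 / (8 * s)))
        (fun q => Real.exp (-((v : ℝ) - r q - b q) ^ 2 / (4 * s)))
      have h5 : ∑ q, (|ψ q| * Real.exp (-((v : ℝ) - (r q + b q)) ^ 2 / (8 * s))) *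
          Real.exp (-((v : ℝ) - r q - b q) ^ 2 / (4 * s)) = S := by
        rw [hS]
        refine Finset.sum_congr rfl fun q _ => ?_
        rw [mul_assoc, ← Real.exp_add]
        congr 2
        field_simp
        ring
      have h6 : ∑ q, (|ψ q| * Real.exp (-((v : ℝ) - (r q + b q)) ^ 2 / (8 * s))) ^ 2 = P := by
        rw [hPdef]
        refine Finset.sum_congr rfl fun q _ => ?_
        rw [mul_pow, sq_abs, ← Real.exp_nat_mul]
        congr 2
        push_cast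
        field_simp
        ring
      have h7 : ∑ q, (Real.exp (-((v : ℝ) - r q - b q) ^ 2 / (4 * s))) ^ 2 =
          ∑ q, Real.exp (-((v : ℝ) - r q - b q) ^ 2 / (2 * s)) := by
        refine Finset.sum_congr rfl fun q _ => ?_
        rw [← Real.exp_nat_mul]
        congr 1
        push_cast
        field_simp
        ring
      rw [h5, h6, h7] at h4
      exact h4
    have h8 : ∑ q, Real.exp (-((v : ℝ) - r q - b q) ^ 2 / (2 * s)) ≤ 6 * M * Real.sqrt s := by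
      rw [qup_load hs0]
      have h9 := qup_sqrt hs0
      have h10 : 0 ≤ Real.sqrt s := Real.sqrt_nonneg s
      have h11 : 0 ≤ load b r s v := hM.le.trans h1.1
      calc Real.sqrt (2 * Real.pi * s) * load b r s v ≤ (3 * Real.sqrt s) * (2 * M) :=
            mul_le_mul h9 h1.2 h11 (by positivity)
        _ = 6 * M * Real.sqrt s := by ring
    have h12 : (grad1 b r s v ψ) ^ 2 ≤ (E / s) ^ 2 * (P * (6 * M * Real.sqrt s)) := by
      have h13 : (grad1 b r s v ψ) ^ 2 ≤ (E / s * S) ^ 2 := by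
        rw [← sq_abs]
        exact pow_le_pow_left₀ (abs_nonneg _) h2 2
      refine h13.trans ?_
      rw [mul_pow]
      refine mul_le_mul_of_nonneg_left ?_ (sq_nonneg _)
      exact h3.trans (mul_le_mul_of_nonneg_left h8 hP)
    have h14 := tent_le hM (load b r s v)
    have h15 := tent_nonneg M (load b r s v)
    calc tent M (load b r s v) * (grad1 b r s v ψ) ^ 2
        ≤ 2 / M * ((E / s) ^ 2 * (P * (6 * M * Real.sqrt s))) :=
          mul_le_mul h14 h12 (sq_nonneg _) (by positivity)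
      _ = 12 * E ^ 2 * Real.sqrt s / s ^ 2 * P := by
          field_simp
          ring

theorem q_small {N : ℕ} {M s E : ℝ} (hM : 0 < M) (hs : 1 ≤ s) (hE : 0 ≤ E) (V : Finset ℤ)
    (b r ψ : Fin (N + 1) → ℝ)
    (hψ : ∀ v ∈ V, M ≤ load b r s v → load b r s v ≤ 2 * M →
      |grad1 b r s v ψ| ≤ E / s * ∑ q, |ψ q| * Real.exp (-(3 / 8) * ((v : ℝ) - r q - b q) ^ 2 / s)) :
    1 / 2 * ∑ v ∈ V, tent M (load b r s v) * (grad1 b r s v ψ) ^ 2 ≤
      160 * E ^ 2 / s * ∑ q, (ψ q) ^ 2 := by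
  have hs0 : 0 < s := by linarith
  have h1 : ∑ v ∈ V, tent M (load b r s v) * (grad1 b r s v ψ) ^ 2 ≤
      ∑ v ∈ V, 12 * E ^ 2 * Real.sqrt s / s ^ 2 *
        ∑ q, (ψ q) ^ 2 * Real.exp (-((v : ℝ) - (r q + b q)) ^ 2 / (4 * s)) :=
    Finset.sum_le_sum fun v hv => qup_point hM hs hE v b r ψ (hψ v hv)
  have h2 : ∑ v ∈ V, 12 * E ^ 2 * Real.sqrt s / s ^ 2 *
        ∑ q, (ψ q) ^ 2 * Real.exp (-((v : ℝ) - (r q + b q)) ^ 2 / (4 * s)) =
      12 * E ^ 2 * Real.sqrt s / s ^ 2 * ∑ q, (ψ q) ^ 2 *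
        ∑ v ∈ V, Real.exp (-((v : ℝ) - (r q + b q)) ^ 2 / (4 * s)) := by
    rw [← Finset.mul_sum, Finset.sum_comm]
    congr 1
    refine Finset.sum_congr rfl fun q _ => ?_
    rw [Finset.mul_sum]
  have h3 : ∑ q, (ψ q) ^ 2 * ∑ v ∈ V, Real.exp (-((v : ℝ) - (r q + b q)) ^ 2 / (4 * s)) ≤
      ∑ q, (ψ q) ^ 2 * (20 * Real.sqrt s) :=
    Finset.sum_le_sum fun q _ => mul_le_mul_of_nonneg_left (sum_exp_le V _ hs) (sq_nonneg _)
  have h4 : ∑ q, (ψ q) ^ 2 * (20 * Real.sqrt s) = 20 * Real.sqrt s * ∑ q, (ψ q) ^ 2 := by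
    rw [← Finset.sum_mul, mul_comm]
  have h5 : 0 ≤ ∑ q, (ψ q) ^ 2 := Finset.sum_nonneg fun q _ => sq_nonneg _
  have h6 : 0 ≤ 12 * E ^ 2 * Real.sqrt s / s ^ 2 := by positivity
  have h7 : Real.sqrt s * Real.sqrt s = s := Real.mul_self_sqrt hs0.le
  calc 1 / 2 * ∑ v ∈ V, tent M (load b r s v) * (grad1 b r s v ψ) ^ 2
      ≤ 1 / 2 * (12 * E ^ 2 * Real.sqrt s / s ^ 2 * (20 * Real.sqrt s * ∑ q, (ψ q) ^ 2)) := by
        refine mul_le_mul_of_nonneg_left ?_ (by norm_num)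
        refine h1.trans ?_
        rw [h2]
        refine mul_le_mul_of_nonneg_left ?_ h6
        rw [← h4]
        exact h3
    _ = 120 * E ^ 2 * (Real.sqrt s * Real.sqrt s) / s ^ 2 * ∑ q, (ψ q) ^ 2 := by ring
    _ = 120 * (E ^ 2 / s * ∑ q, (ψ q) ^ 2) := by
        rw [h7]
        field_simp
    _ ≤ 160 * (E ^ 2 / s * ∑ q, (ψ q) ^ 2) := by
        refine mul_le_mul_of_nonneg_right (by norm_num) ?_
        positivity
    _ = 160 * E ^ 2 / s * ∑ q, (ψ q) ^ 2 := by ring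

end Pool.Agent.Lib.HAP
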