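import Mathlib
import Pool.Agent.Lib.HAP.Orth
import Pool.Agent.Lib.HAP.QUp
import Pool.Agent.Lib.HAP.QWin
import Pool.Agent.Lib.HAP.Rich
import Pool.Agent.Lib.HAP.Greedy
import Pool.Agent.Lib.HAP.NoMany
import Pool.Agent.Lib.HAP.PartU

/-!
MODULE DSum: the cost of one unit of time (`M = μ^3`, `A = 1`).

PROOF.  `M = μ^3`, `E = exp 262 / 3^K`, `τ = 160 E^2/s`, `L = ⌈√s⌉₊` (`√s ≤ L ≤ 2 √s`).
Let `R` be the image of `{v ∈ V | M ≤ load b r s v}` under `v ↦ v / L`; `R.card ≤ 10 (N+1)/(M √s)`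
(`rich_card`).  Functionals: for `j ∈ R`, `k ≤ K`, with `c = j L`:
`ℓ q = ((c - r q - b q)/√s)^k exp(-((c - r q - b q)/√s)^2/2)`; their number is `m = (K+1) R.card`
(index them by `Fin m`, e.g. via `R.equivFin` and `finProdFinEquiv`).  If `ψ` is orthogonal to all of them
then for `v ∈ V` with `M ≤ load ≤ 2M` the cell `j = v / L` is in `R`, `|v - j L| ≤ L ≤ 2 √s`, so `orth` and
`q_small` give `Qf 1 e M V b r s ψ ≤ dirE ψ + e (ψ 0)^2 + τ ∑ (ψ q)^2`, and with `hd`: `0 ≤ Pf 1 e τ d ψ`.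
`no_many`, `breaks`: `B.card ≤ 2 m ≤ 20 (K+1)(N+1)/(M √s)`.
`part_sum` with `w = ⌈μ √s⌉₊` (`μ √s ≤ w ≤ 2 μ √s`) and `Λ = 4 (2w+1)^2/(M s √s) ≤ 36 w^2/(M s √s) ≤
144/(μ √s)`; `hloc` is `hd` and `q_window` with `S` = the positions in `[a, a+2w]`, `S.card ≤ 2w+1`.
`∑ d ≤ B.card (40/w + 2Λ) + 2e + τ (N+1) ≤ 20 (K+1)(N+1)/(μ^3 √s) * 328/(μ √s) + 2 e + 160 E^2 (N+1)/s`.
-/

namespace Pool.Agent.Lib.HAP

open Finset

theorem dsum {N : ℕ} {e μ s : ℝ} (he : 0 ≤ e) (hμ : 1 ≤ μ) (hs : 1 ≤ s) (V : Finset ℤ)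
    (b r d : Fin (N + 1) → ℝ) (K : ℕ)
    (hd : ∀ x : Fin (N + 1) → ℝ, ∑ q, d q * (x q) ^ 2 ≤ Qf 1 e (μ ^ 3) V b r s x) :
    ∑ q, d q ≤ (N + 1) * (6560 * (K + 1) / μ ^ 4 + 160 * (Real.exp 262 / 3 ^ K) ^ 2) / s + 2 * e := by
  classical
  have hs0 : (0 : ℝ) < s := by linarith
  have hμ0 : (0 : ℝ) < μ := by linarith
  have hM0 : (0 : ℝ) < μ ^ 3 := by positivity
  have hq1 : 1 ≤ Real.sqrt s := Real.one_le_sqrt.mpr hs
  have hq0 : 0 < Real.sqrt s := by linarith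
  have hqq : Real.sqrt s * Real.sqrt s = s := Real.mul_self_sqrt hs0.le
  set E : ℝ := Real.exp 262 / 3 ^ K with hEdef
  have hE0 : 0 ≤ E := by positivity
  set τ : ℝ := 160 * E ^ 2 / s with hτ
  have hτ0 : 0 ≤ τ := by positivity
  -- the cells
  obtain ⟨L, hL1, hL2⟩ : ∃ L : ℕ, Real.sqrt s ≤ L ∧ (L : ℝ) ≤ 2 * Real.sqrt s := by
    refine ⟨⌈Real.sqrt s⌉₊, Nat.le_ceil _, ?_⟩
    have := Nat.ceil_lt_add_one hq0.le
    linarith
  have hLpos : 0 < L := by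
    have : (0 : ℝ) < L := by linarith
    exact_mod_cast this
  set R : Finset ℤ := (V.filter (fun v => μ ^ 3 ≤ load b r s (v : ℤ))).image (fun v => v / (L : ℤ))
    with hRdef
  have hRcard : (R.card : ℝ) ≤ 10 * (N + 1) / (μ ^ 3 * Real.sqrt s) := by
    refine rich_card hM0 hs V b r L hL1 R ?_
    intro j hj
    rw [hRdef, Finset.mem_image] at hj
    obtain ⟨v, hv, hvj⟩ := hj
    rw [Finset.mem_filter] at hv
    exact ⟨v, hv.1, hvj, hv.2⟩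
  -- the functionals
  set ℓ : Fin ((K + 1) * R.card) → Fin (N + 1) → ℝ := fun i q =>
    ((((R.equivFin.symm (finProdFinEquiv.symm i).2 : ℤ) : ℝ) * (L : ℝ) - r q - b q) / Real.sqrt s) ^
      ((finProdFinEquiv.symm i).1 : ℕ) *
    Real.exp (-((((R.equivFin.symm (finProdFinEquiv.symm i).2 : ℤ) : ℝ) * (L : ℝ) - r q - b q) /
      Real.sqrt s) ^ 2 / 2) with hℓ
  have hpos : ∀ ψ : Fin (N + 1) → ℝ, (∀ k, ∑ q, ψ q * ℓ k q = 0) → 0 ≤ Pf 1 e τ d ψ := by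
    intro ψ hψ
    have hcell : ∀ v ∈ V, μ ^ 3 ≤ load b r s v → load b r s v ≤ 2 * μ ^ 3 →
        |grad1 b r s v ψ| ≤ E / s * ∑ q, |ψ q| *
          Real.exp (-(3 / 8) * ((v : ℝ) - r q - b q) ^ 2 / s) := by
      intro v hv hload _
      have hjR : v / (L : ℤ) ∈ R := by
        rw [hRdef, Finset.mem_image]
        exact ⟨v, Finset.mem_filter.mpr ⟨hv, hload⟩, rfl⟩
      have hLz : (0 : ℤ) < (L : ℤ) := by exact_mod_cast hLpos
      have hdist : |(v : ℝ) - ((v / (L : ℤ) : ℤ) : ℝ) * (L : ℝ)| ≤ 2 * Real.sqrt s := by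
        have h1 : (L : ℤ) * (v / (L : ℤ)) + v % (L : ℤ) = v := Int.mul_ediv_add_emod v (L : ℤ)
        have h2 : 0 ≤ v % (L : ℤ) := Int.emod_nonneg _ hLz.ne'
        have h3 : v % (L : ℤ) < (L : ℤ) := Int.emod_lt_of_pos _ hLz
        have h1' : (L : ℝ) * ((v / (L : ℤ) : ℤ) : ℝ) + ((v % (L : ℤ) : ℤ) : ℝ) = (v : ℝ) := by
          exact_mod_cast h1
        have h2' : (0 : ℝ) ≤ ((v % (L : ℤ) : ℤ) : ℝ) := by exact_mod_cast h2
        have h3' : ((v % (L : ℤ) : ℤ) : ℝ) < (L : ℝ) := by exact_mod_cast h3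
        have h4 : (v : ℝ) - ((v / (L : ℤ) : ℤ) : ℝ) * (L : ℝ) = ((v % (L : ℤ) : ℤ) : ℝ) := by
          linarith
        rw [h4, abs_of_nonneg h2']
        linarith
      refine orth b r ψ hs0 K hdist ?_
      intro k hk
      have hk' := hψ (finProdFinEquiv (⟨k, by omega⟩, R.equivFin ⟨v / (L : ℤ), hjR⟩))
      simp only [hℓ, Equiv.symm_apply_apply] at hk'
      exact hk'
    have hsm := q_small (M := μ ^ 3) hM0 hs hE0 V b r ψ hcell
    have hdψ := hd ψ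
    have hsum : ∑ q, (d q - τ) * (ψ q) ^ 2 = ∑ q, d q * (ψ q) ^ 2 - τ * ∑ q, (ψ q) ^ 2 := by
      rw [Finset.mul_sum, ← Finset.sum_sub_distrib]
      exact Finset.sum_congr rfl (fun q _ => by ring)
    unfold Pf
    unfold Qf at hdψ
    rw [hsum]
    have hτ' : 160 * E ^ 2 / s * ∑ q, (ψ q) ^ 2 = τ * ∑ q, (ψ q) ^ 2 := by rw [hτ]
    linarith
  obtain ⟨B, hBcard, hB⟩ := breaks d (no_many d ℓ hpos)
  have hBcard' : (B.card : ℝ) ≤ 20 * (K + 1) * (N + 1) / (μ ^ 3 * Real.sqrt s) := by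
    have h1 : (B.card : ℝ) ≤ 2 * ((K + 1) * R.card) := by exact_mod_cast hBcard
    have h2 : (2 : ℝ) * ((K + 1) * R.card) ≤
        2 * ((K + 1) * (10 * (N + 1) / (μ ^ 3 * Real.sqrt s))) := by gcongr
    refine h1.trans (h2.trans (le_of_eq ?_))
    ring
  -- the window
  obtain ⟨w, hw1, hw2⟩ : ∃ w : ℕ, μ * Real.sqrt s ≤ w ∧ (w : ℝ) ≤ 2 * (μ * Real.sqrt s) := by
    have h1 : 1 ≤ μ * Real.sqrt s := by nlinarith
    refine ⟨⌈μ * Real.sqrt s⌉₊, Nat.le_ceil _, ?_⟩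
    have := Nat.ceil_lt_add_one (a := μ * Real.sqrt s) (by linarith)
    linarith
  have hμq : 1 ≤ μ * Real.sqrt s := by nlinarith
  have hwr : (1 : ℝ) ≤ w := by linarith
  have hw : 1 ≤ w := by exact_mod_cast hwr
  set Λ : ℝ := 4 * (2 * (w : ℝ) + 1) ^ 2 / (μ ^ 3 * (s * Real.sqrt s)) with hΛ
  have hΛ0 : 0 ≤ Λ := by positivity
  have hloc : ∀ ψ : Fin (N + 1) → ℝ, (∀ q, |ψ q| ≤ 1) →
      (∃ a : ℤ, ∀ q : Fin (N + 1), ψ q ≠ 0 → a ≤ (q.val : ℤ) ∧ (q.val : ℤ) ≤ a + 2 * w) →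
      ∑ q, d q * (ψ q) ^ 2 ≤ 1 * dirE ψ + e * (ψ 0) ^ 2 + Λ := by
    intro ψ h1 ⟨a, ha⟩
    set S : Finset (Fin (N + 1)) :=
      Finset.univ.filter (fun q => a ≤ (q.val : ℤ) ∧ (q.val : ℤ) ≤ a + 2 * w) with hS
    have hScard : (S.card : ℝ) ≤ 2 * (w : ℝ) + 1 := by
      have hc : S.card ≤ 2 * w + 1 := by
        have hinj : S.card ≤ (Finset.Icc a (a + 2 * w)).card := by
          refine Finset.card_le_card_of_injOn (fun q : Fin (N + 1) => (q.val : ℤ)) ?_ ?_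
          · intro q hq
            have hq' := (Finset.mem_filter.mp (Finset.mem_coe.mp hq)).2
            exact Finset.mem_coe.mpr (Finset.mem_Icc.mpr hq')
          · intro p _ q _ hpq
            apply Fin.ext
            have hpq' : (p.val : ℤ) = (q.val : ℤ) := hpq
            exact_mod_cast hpq'
        rw [Int.card_Icc] at hinj
        omega
      exact_mod_cast hc
    have hqw := q_window hM0 hs V b r ψ S hScard h1 (fun q hq => by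
      by_contra hne
      exact hq (Finset.mem_filter.mpr ⟨Finset.mem_univ q, ha q hne⟩))
    have hdψ := hd ψ
    unfold Qf at hdψ
    have : 4 * (2 * (w : ℝ) + 1) ^ 2 / (μ ^ 3 * (s * Real.sqrt s)) = Λ := rfl
    linarith
  have hfin := part_sum hw (A := 1) zero_le_one he hτ0 hΛ0 d B hB hloc
  have hΛ' : Λ ≤ 144 / (μ * Real.sqrt s) := by
    rw [hΛ, div_le_div_iff₀ (by positivity) (by positivity)]
    have h3w : 2 * (w : ℝ) + 1 ≤ 6 * (μ * Real.sqrt s) := by linarith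
    have h4 : (2 * (w : ℝ) + 1) ^ 2 ≤ (6 * (μ * Real.sqrt s)) ^ 2 := by
      gcongr
    calc 4 * (2 * (w : ℝ) + 1) ^ 2 * (μ * Real.sqrt s)
        ≤ 4 * (6 * (μ * Real.sqrt s)) ^ 2 * (μ * Real.sqrt s) := by gcongr
      _ = 144 * (μ ^ 3 * ((Real.sqrt s * Real.sqrt s) * Real.sqrt s)) := by ring
      _ = 144 * (μ ^ 3 * (s * Real.sqrt s)) := by rw [hqq]
  have h40 : 40 * 1 / (w : ℝ) ≤ 40 / (μ * Real.sqrt s) := by
    rw [mul_one]
    gcongr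
  have hprod : (B.card : ℝ) * (40 * 1 / w + 2 * Λ) ≤
      (20 * (K + 1) * (N + 1) / (μ ^ 3 * Real.sqrt s)) * (328 / (μ * Real.sqrt s)) := by
    have h5 : 40 * 1 / (w : ℝ) + 2 * Λ ≤ 328 / (μ * Real.sqrt s) := by
      have : (328 : ℝ) / (μ * Real.sqrt s) =
          40 / (μ * Real.sqrt s) + 2 * (144 / (μ * Real.sqrt s)) := by ring
      rw [this]
      linarith
    exact mul_le_mul hBcard' h5 (by positivity) (by positivity)
  have hprod2 : (20 * ((K : ℝ) + 1) * (N + 1) / (μ ^ 3 * Real.sqrt s)) * (328 / (μ * Real.sqrt s)) =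
      (N + 1) * (6560 * (K + 1) / μ ^ 4) / s := by
    rw [div_mul_div_comm]
    have : μ ^ 3 * Real.sqrt s * (μ * Real.sqrt s) = μ ^ 4 * s := by
      calc μ ^ 3 * Real.sqrt s * (μ * Real.sqrt s) = μ ^ 4 * (Real.sqrt s * Real.sqrt s) := by ring
        _ = μ ^ 4 * s := by rw [hqq]
    rw [this]
    field_simp
    ring
  have hτN : τ * ((N : ℝ) + 1) = (N + 1) * (160 * E ^ 2) / s := by
    rw [hτ]; ring
  calc ∑ q, d q ≤ B.card * (40 * 1 / w + 2 * Λ) + 2 * e + τ * (N + 1) := hfin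
    _ ≤ (N + 1) * (6560 * (K + 1) / μ ^ 4) / s + 2 * e + (N + 1) * (160 * E ^ 2) / s := by
        rw [← hτN, ← hprod2]
        linarith
    _ = (N + 1) * (6560 * (K + 1) / μ ^ 4 + 160 * E ^ 2) / s + 2 * e := by ring

end Pool.Agent.Lib.HAP
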