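import Mathlib
import Pool.Agent.Lib.HAP.DSum
import Pool.Agent.Lib.HAP.Descend

/-!
MODULE Heights: existence of heights `r` with small energy and small load functional at resolution one.

PROOF.  `M = μ^3`, `e = 1/(N+1)^2`, `s₀ = ((N+1)/μ^3)^2 ≥ 1`, `r₀ q = q`: `slopeE r₀ = 0`, `r₀ 0 = 0`,
`load b r₀ s₀ v ≤ (N+1)/√(2 π s₀) ≤ μ^3` (each Gaussian is at most `1/√(2 π s₀)`, `√(2π) ≥ 1`), so
`Psi .. r₀ s₀ = 0 =: B₀` (`FF_eq_zero`, `gau_pos`).  `dsum` gives the hypothesis `hQ` of `descend` with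
`κ = (N+1)(6560 (K+1)/μ^4 + 1/μ^4) ≤ 6561 (K+1)(N+1)/μ^4` (using `hK`) and `c₀ = 2e`;
`c₀ s₀ = 2/μ^6 ≤ 2`, `log s₀ ≤ 2 log (N+1)`.  So `Psi r 1 ≤ 13122 (K+1)(N+1) log(N+1)/μ^4 + 3`; all three
summands of `Psi` are nonnegative.
-/

namespace Pool.Agent.Lib.HAP

open Finset

private theorem Heights_gau_nonneg (t x : ℝ) : 0 ≤ gau t x := by
  unfold gau
  positivity

private theorem Heights_gau_le (t x : ℝ) (ht : 0 < t) : gau t x ≤ 1 / √(2 * Real.pi * t) := by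
  unfold gau
  refine div_le_div_of_nonneg_right ?_ (Real.sqrt_nonneg _)
  rw [Real.exp_le_one_iff]
  have : 0 ≤ x ^ 2 / (2 * t) := by positivity
  have h : -x ^ 2 / (2 * t) = -(x ^ 2 / (2 * t)) := by ring
  rw [h]
  linarith

private theorem Heights_load_nonneg {N : ℕ} (b r : Fin (N + 1) → ℝ) (s v : ℝ) :
    0 ≤ load b r s v := sum_nonneg fun _ _ => Heights_gau_nonneg _ _

theorem heights {N : ℕ} {μ : ℝ} (hμ : 1 ≤ μ) (hμN : μ ^ 3 ≤ N + 1) (K : ℕ)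
    (hK : 160 * (Real.exp 262 / 3 ^ K) ^ 2 ≤ 1 / μ ^ 4) (V : Finset ℤ) (b : Fin (N + 1) → ℝ) :
    ∃ r : Fin (N + 1) → ℝ,
      slopeE r ≤ 13122 * (K + 1) * (N + 1) * Real.log (N + 1) / μ ^ 4 + 3 ∧
      (r 0) ^ 2 ≤ (N + 1) ^ 2 * (13122 * (K + 1) * (N + 1) * Real.log (N + 1) / μ ^ 4 + 3) ∧
      ∑ v ∈ V, FF (μ ^ 3) (load b r 1 v) ≤
        13122 * (K + 1) * (N + 1) * Real.log (N + 1) / μ ^ 4 + 3 := by
  have hμ0 : 0 < μ := by linarith
  have hM : 0 < μ ^ 3 := by positivity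
  have hN : (0 : ℝ) < N + 1 := by positivity
  set e : ℝ := 1 / ((N : ℝ) + 1) ^ 2 with he
  have he0 : 0 < e := by positivity
  set s₀ : ℝ := (((N : ℝ) + 1) / μ ^ 3) ^ 2 with hs₀
  have hone : 1 ≤ ((N : ℝ) + 1) / μ ^ 3 := by
    rw [le_div_iff₀ hM, one_mul]
    exact hμN
  have hs1 : 1 ≤ s₀ := by
    rw [hs₀]
    exact one_le_pow₀ hone
  have hs0 : 0 < s₀ := by linarith
  set κ : ℝ := ((N : ℝ) + 1) * (6560 * ((K : ℝ) + 1) / μ ^ 4 +
    160 * (Real.exp 262 / 3 ^ K) ^ 2) with hκ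
  have hκ0 : 0 ≤ κ := by positivity
  -- the start
  have hstart : Psi 1 e (μ ^ 3) V b (fun q => (q.val : ℝ)) s₀ ≤ 0 := by
    have h1 : slopeE (fun q : Fin (N + 1) => (q.val : ℝ)) = 0 := by
      unfold slopeE
      refine sum_eq_zero fun i _ => ?_
      simp only [Fin.val_succ, Fin.val_castSucc, Nat.cast_add, Nat.cast_one]
      ring
    have h2 : ∀ v ∈ V, FF (μ ^ 3) (load b (fun q => (q.val : ℝ)) s₀ (v : ℝ)) = 0 := by
      intro v _
      refine FF_eq_zero hM (Heights_load_nonneg _ _ _ _) ?_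
      have h3 : load b (fun q => (q.val : ℝ)) s₀ (v : ℝ) ≤
          ∑ _q : Fin (N + 1), 1 / √(2 * Real.pi * s₀) :=
        sum_le_sum fun q _ => Heights_gau_le _ _ hs0
      refine h3.trans ?_
      rw [sum_const, card_univ, Fintype.card_fin, nsmul_eq_mul]
      have h4 : ((N : ℝ) + 1) / μ ^ 3 ≤ √(2 * Real.pi * s₀) := by
        apply Real.le_sqrt_of_sq_le
        rw [← hs₀]
        have := Real.pi_gt_three
        nlinarith
      have h5 : 0 < √(2 * Real.pi * s₀) := by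
        have := Real.pi_pos
        positivity
      rw [Nat.cast_add, Nat.cast_one, mul_one_div, div_le_iff₀ h5]
      rw [div_le_iff₀ hM] at h4
      linarith
    unfold Psi
    rw [h1, sum_eq_zero h2]
    simp
  obtain ⟨r, hr⟩ := descend (A := 1) one_pos he0 hM V b hs1 hκ0 (by positivity : 0 ≤ 2 * e)
    (fun s h1 _ r d hd => dsum he0.le hμ h1 V b r d K hd) (fun q => (q.val : ℝ)) hstart
  have hbound : 0 + κ * Real.log s₀ + 2 * e * s₀ + 1 ≤
      13122 * (K + 1) * (N + 1) * Real.log (N + 1) / μ ^ 4 + 3 := by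
    have h1 : κ ≤ 6561 * ((K : ℝ) + 1) * ((N : ℝ) + 1) / μ ^ 4 := by
      rw [hκ]
      have h2 : 6560 * ((K : ℝ) + 1) / μ ^ 4 + 160 * (Real.exp 262 / 3 ^ K) ^ 2 ≤
          6561 * ((K : ℝ) + 1) / μ ^ 4 := by
        have h3 : 1 / μ ^ 4 ≤ ((K : ℝ) + 1) / μ ^ 4 := by
          refine div_le_div_of_nonneg_right ?_ (by positivity)
          have : (0 : ℝ) ≤ K := Nat.cast_nonneg K
          linarith
        have h4 : 6561 * ((K : ℝ) + 1) / μ ^ 4 =
            6560 * ((K : ℝ) + 1) / μ ^ 4 + ((K : ℝ) + 1) / μ ^ 4 := by ring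
        rw [h4]
        linarith
      calc ((N : ℝ) + 1) * (6560 * ((K : ℝ) + 1) / μ ^ 4 + 160 * (Real.exp 262 / 3 ^ K) ^ 2)
          ≤ ((N : ℝ) + 1) * (6561 * ((K : ℝ) + 1) / μ ^ 4) :=
            mul_le_mul_of_nonneg_left h2 hN.le
        _ = _ := by ring
    have hlog0 : 0 ≤ Real.log s₀ := Real.log_nonneg hs1
    have h2 : Real.log s₀ ≤ 2 * Real.log (N + 1) := by
      rw [hs₀, Real.log_pow, Nat.cast_ofNat]
      refine mul_le_mul_of_nonneg_left ?_ (by norm_num)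
      refine Real.log_le_log (by positivity) ?_
      exact div_le_self hN.le (one_le_pow₀ hμ)
    have h3 : 2 * e * s₀ ≤ 2 := by
      rw [he, hs₀, div_pow]
      have h4 : 2 * (1 / ((N : ℝ) + 1) ^ 2) * (((N : ℝ) + 1) ^ 2 / (μ ^ 3) ^ 2) =
          2 / (μ ^ 3) ^ 2 := by
        field_simp
      rw [h4, div_le_iff₀ (by positivity)]
      have : 1 ≤ (μ ^ 3) ^ 2 := one_le_pow₀ (one_le_pow₀ hμ)
      linarith
    have h4 : κ * Real.log s₀ ≤ 6561 * ((K : ℝ) + 1) * ((N : ℝ) + 1) / μ ^ 4 *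
        (2 * Real.log (N + 1)) :=
      mul_le_mul h1 h2 hlog0 (by positivity)
    have h5 : 6561 * ((K : ℝ) + 1) * ((N : ℝ) + 1) / μ ^ 4 * (2 * Real.log (N + 1)) =
        13122 * (K + 1) * (N + 1) * Real.log (N + 1) / μ ^ 4 := by ring
    rw [h5] at h4
    linarith
  have hr' := hr.trans hbound
  set B : ℝ := 13122 * (K + 1) * (N + 1) * Real.log (N + 1) / μ ^ 4 + 3 with hB
  unfold Psi at hr'
  have p1 : 0 ≤ slopeE r := sum_nonneg fun _ _ => sq_nonneg _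
  have p2 : 0 ≤ e * (r 0) ^ 2 := by positivity
  have p3 : 0 ≤ ∑ v ∈ V, FF (μ ^ 3) (load b r 1 v) :=
    sum_nonneg fun v _ => FF_nonneg hM (Heights_load_nonneg _ _ _ _)
  refine ⟨r, by linarith, ?_, by linarith⟩
  have h1 : e * (r 0) ^ 2 ≤ B := by linarith
  rw [he, one_div_mul_eq_div, div_le_iff₀ (by positivity)] at h1
  linarith

end Pool.Agent.Lib.HAP
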