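import Mathlib
import Pool.Agent.Lib.HAP.LowerB

/-!
MODULE LowerC: the combinatorial lower bound, asymptotic form.

PROOF.  Let `n` be large, `l = log n`, `N + 1 = n / 4` (integer division; `N + 1 ≥ n/5`),
`μ = (C (l * log l))^(1/4)` with `C = 10^8`, `K = ⌈4 log μ⌉₊ + 300 ≤ 2 log l` for large `n`
(`4 log μ = log C + log l + log log l`).
`hK`: `3^K ≥ exp(1.09 K)`, so `(exp 262/3^K)^2 ≤ exp(524 - 2.18 K) ≤ exp(524 - 654) μ^(-8.7)`.
`hX`: `13122 (K+1) log(N+1)/μ^4 ≤ 13122 * 3 log l * l/(10^8 l log l) < 1/300`, and `3 ≤ (N+1)/1000`.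
Then `m + 1 ≥ (n/5)/(960000 μ^3)`, `μ^3 = C^(3/4) (l log l)^(3/4) = 10^6 (l log l)^(3/4)`; so
`2 m ≥ n / (10^13 (l log l)^(3/4))` for large `n`.
-/

namespace Pool.Agent.Lib.HAP

open Finset

private theorem lc_ev : ∃ x₀ : ℝ, ∀ x : ℝ, x₀ ≤ x →
    (10 : ℝ) ^ 15 * (Real.log x) ^ 2 ≤ x ∧ 400 ≤ Real.log (Real.log x) := by
  have h1 : ∀ᶠ x : ℝ in Filter.atTop, (10 : ℝ) ^ 15 * (Real.log x) ^ 2 ≤ x := by
    have h := (Real.isLittleO_pow_log_id_atTop (n := 2)).def (show (0 : ℝ) < 1 / 10 ^ 15 by positivity)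
    filter_upwards [h, Filter.eventually_ge_atTop (0 : ℝ)] with x hx hx0
    rw [Real.norm_of_nonneg (sq_nonneg _), id, Real.norm_of_nonneg hx0] at hx
    linarith
  have h2 : ∀ᶠ x : ℝ in Filter.atTop, 400 ≤ Real.log (Real.log x) :=
    (Real.tendsto_log_atTop.comp Real.tendsto_log_atTop).eventually_ge_atTop 400
  obtain ⟨x₀, hx₀⟩ := Filter.eventually_atTop.1 (h1.and h2)
  exact ⟨x₀, hx₀⟩

private theorem lc_exp76 : (160 : ℝ) ≤ Real.exp 76 := by
  have h1 : (2 : ℝ) ^ 8 ≤ Real.exp 8 := by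
    have : Real.exp 8 = Real.exp 1 ^ 8 := by
      rw [← Real.exp_nat_mul]; norm_num
    rw [this]
    apply pow_le_pow_left₀ (by norm_num)
    have := Real.exp_one_gt_d9
    linarith
  have h2 : Real.exp 8 ≤ Real.exp 76 := Real.exp_le_exp.2 (by norm_num)
  norm_num at h1
  linarith

theorem lower_comb' : ∃ n₀ : ℕ, ∀ n : ℕ, n₀ ≤ n → ∀ b : ℕ → ℤ,
    (∀ x x', x < n → x' < n → b x = b x' → x = x') →
    ∃ (m : ℕ) (j i : ℕ → ℕ),
      (n : ℝ) / (10 ^ 13 * (Real.log n * Real.log (Real.log n)) ^ ((3 : ℝ) / 4)) ≤ 2 * m ∧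
      (∀ k l, k < l → l ≤ m → j k < j l) ∧
      (∀ k ≤ m, j k < n) ∧ (∀ k l, k < l → l < m → i k < i l) ∧ (∀ k < m, 2 * i k < n) ∧
      (∀ k < m, ∀ l < m, ∀ x, (x = j k ∨ x = j (k + 1)) → ∀ y, (y = j l ∨ y = j (l + 1)) →
        (i k : ℤ) + b x = i l + b y → k = l ∧ x = y) := by
  obtain ⟨x₀, hx₀⟩ := lc_ev
  refine ⟨max ⌈x₀⌉₊ 4000, fun n hn b hb => ?_⟩
  have hn1 : 4000 ≤ n := le_trans (le_max_right _ _) hn
  have hn2 : x₀ ≤ (n : ℝ) := by
    refine (Nat.le_ceil x₀).trans ?_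
    exact_mod_cast le_trans (le_max_left _ _) hn
  obtain ⟨ha, hb'⟩ := hx₀ n hn2
  set l : ℝ := Real.log n with hl
  set t : ℝ := Real.log l with ht
  have hnr : (4000 : ℝ) ≤ n := by exact_mod_cast hn1
  have hl0 : 0 < l := Real.log_pos (by linarith)
  have htl : t ≤ l - 1 := Real.log_le_sub_one_of_pos hl0
  have ht0 : 0 < t := by linarith
  have hl1 : 401 ≤ l := by linarith
  set L : ℝ := l * t with hL
  have hL1 : 1 ≤ L := by nlinarith
  have hLn : (10 : ℝ) ^ 15 * L ≤ n := by nlinarith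
  -- N
  obtain ⟨N, hN⟩ : ∃ N, N + 1 = n / 4 := ⟨n / 4 - 1, by omega⟩
  have hNn : 4 * (N + 1) ≤ n := by omega
  have hNr : (n : ℝ) / 5 ≤ N + 1 := by
    have : n ≤ 5 * (N + 1) := by omega
    have : (n : ℝ) ≤ 5 * (N + 1) := by exact_mod_cast this
    linarith
  -- μ
  set μ : ℝ := (10 ^ 8 * L) ^ ((1 : ℝ) / 4) with hμd
  have hCL : 0 < 10 ^ 8 * L := by positivity
  have hCL1 : 1 ≤ 10 ^ 8 * L := by nlinarith
  have hμ1 : 1 ≤ μ := Real.one_le_rpow hCL1 (by norm_num)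
  have hμ0 : 0 < μ := by linarith
  have hμ4 : μ ^ 4 = 10 ^ 8 * L := by
    rw [hμd, ← Real.rpow_natCast, ← Real.rpow_mul hCL.le]
    norm_num
  have hμ3 : μ ^ 3 = 10 ^ 6 * L ^ ((3 : ℝ) / 4) := by
    rw [hμd, ← Real.rpow_natCast, ← Real.rpow_mul hCL.le, Real.mul_rpow (by positivity) (by positivity)]
    have e1 : ((10 : ℝ) ^ 8) ^ ((1 : ℝ) / 4 * (3 : ℕ)) = 10 ^ 6 := by
      rw [← Real.rpow_natCast, ← Real.rpow_mul (by norm_num), ← Real.rpow_natCast]
      norm_num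
    rw [e1]
    norm_num
  have hlogμ : 4 * Real.log μ = Real.log (10 ^ 8) + t + Real.log t := by
    have e1 : Real.log (μ ^ 4) = 4 * Real.log μ := by
      rw [Real.log_pow]; norm_num
    rw [← e1, hμ4, Real.log_mul (by positivity) (by positivity), hL,
      Real.log_mul (by positivity) (by positivity), ht]
    ring
  have hlogC : Real.log (10 ^ 8) ≤ 72 := by
    have e1 : Real.log (10 ^ 8) = 8 * Real.log 10 := by
      rw [Real.log_pow]; norm_num
    have e2 : Real.log 10 ≤ 10 - 1 := Real.log_le_sub_one_of_pos (by norm_num)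
    rw [e1]; linarith
  have hlogt : Real.log t ≤ t - 1 := Real.log_le_sub_one_of_pos ht0
  have hlogμ0 : 0 ≤ Real.log μ := Real.log_nonneg hμ1
  -- K
  obtain ⟨K, hK1, hK2⟩ : ∃ K : ℕ, 4 * Real.log μ + 300 ≤ K ∧ (K : ℝ) + 1 ≤ 3 * t := by
    refine ⟨⌈4 * Real.log μ⌉₊ + 300, ?_, ?_⟩
    · push_cast
      have := Nat.le_ceil (4 * Real.log μ)
      linarith
    · push_cast
      have := Nat.ceil_lt_add_one (show 0 ≤ 4 * Real.log μ by linarith)
      linarith
  have hKK : 160 * (Real.exp 262 / 3 ^ K) ^ 2 ≤ 1 / μ ^ 4 := by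
    have e1 : Real.exp (4 * Real.log μ + 300) ≤ 3 ^ K := by
      calc Real.exp (4 * Real.log μ + 300) ≤ Real.exp K := Real.exp_le_exp.2 hK1
        _ = Real.exp 1 ^ K := by rw [← Real.exp_nat_mul]; norm_num
        _ ≤ 3 ^ K := by
            apply pow_le_pow_left₀ (Real.exp_pos _).le
            have := Real.exp_one_lt_d9
            linarith
    have e2 : Real.exp 262 / 3 ^ K ≤ Real.exp 262 / Real.exp (4 * Real.log μ + 300) :=
      div_le_div_of_nonneg_left (Real.exp_pos _).le (Real.exp_pos _) e1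
    have e3 : Real.exp 262 / Real.exp (4 * Real.log μ + 300) = Real.exp (-38) / μ ^ 4 := by
      have e4 : μ ^ 4 = Real.exp (4 * Real.log μ) := by
        rw [mul_comm, Real.exp_mul, Real.exp_log hμ0]
        norm_num
      rw [e4, ← Real.exp_sub, ← Real.exp_sub]
      congr 1
      ring
    rw [e3] at e2
    have e5 : (Real.exp 262 / 3 ^ K) ^ 2 ≤ (Real.exp (-38) / μ ^ 4) ^ 2 :=
      pow_le_pow_left₀ (by positivity) e2 2
    have e6 : (Real.exp (-38) / μ ^ 4) ^ 2 = Real.exp (-76) / (μ ^ 4 * μ ^ 4) := by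
      rw [div_pow, ← Real.exp_nat_mul]
      congr 1
      · norm_num
      · ring
    have hμ41 : 1 ≤ μ ^ 4 := one_le_pow₀ hμ1
    have e7 : 160 * Real.exp (-76) ≤ 1 := by
      rw [Real.exp_neg, ← div_eq_mul_inv, div_le_one (Real.exp_pos _)]
      exact lc_exp76
    calc 160 * (Real.exp 262 / 3 ^ K) ^ 2 ≤ 160 * (Real.exp (-76) / (μ ^ 4 * μ ^ 4)) := by
          rw [← e6]; linarith
      _ = (160 * Real.exp (-76)) / (μ ^ 4 * μ ^ 4) := by ring
      _ ≤ 1 / (μ ^ 4 * μ ^ 4) := by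
          apply div_le_div_of_nonneg_right e7 (by positivity)
      _ ≤ 1 / μ ^ 4 := by
          apply div_le_div_of_nonneg_left (by norm_num) (by positivity)
          nlinarith
  have hNlow : (10 : ℝ) ^ 14 * L * 2 ≤ N + 1 := by linarith
  have hμ34 : μ ^ 3 ≤ 10 ^ 8 * L := by
    rw [← hμ4]
    exact pow_le_pow_right₀ hμ1 (by norm_num)
  have hNN : 480000 * μ ^ 3 ≤ N + 1 := by nlinarith
  have hXX : 13122 * (K + 1) * (N + 1) * Real.log (N + 1) / μ ^ 4 + 3 ≤ (N + 1 : ℝ) / 200 := by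
    have e1 : Real.log (N + 1) ≤ l := by
      apply Real.log_le_log (by positivity)
      have : N + 1 ≤ n := by omega
      exact_mod_cast this
    have e0 : 0 ≤ Real.log ((N : ℝ) + 1) := Real.log_nonneg (by
      have : (0 : ℝ) ≤ N := by positivity
      linarith)
    have e2 : ((K : ℝ) + 1) * Real.log (N + 1) ≤ 3 * L := by
      calc ((K : ℝ) + 1) * Real.log (N + 1) ≤ (3 * t) * l := by
            apply mul_le_mul hK2 e1 e0 (by linarith)
        _ = 3 * L := by rw [hL]; ring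
    have e3 : 13122 * (K + 1) * (N + 1) * Real.log (N + 1) / μ ^ 4 ≤ (N + 1 : ℝ) / 2500 := by
      rw [hμ4, div_le_div_iff₀ (by positivity) (by norm_num)]
      have e4 : 13122 * ((K : ℝ) + 1) * (N + 1) * Real.log (N + 1) * 2500 =
        (13122 * 2500) * (N + 1) * ((K + 1) * Real.log (N + 1)) := by ring
      rw [e4]
      calc (13122 * 2500) * ((N : ℝ) + 1) * ((K + 1) * Real.log (N + 1)) ≤
            (13122 * 2500) * ((N : ℝ) + 1) * (3 * L) := by
            apply mul_le_mul_of_nonneg_left e2 (by positivity)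
        _ ≤ (N + 1) * (10 ^ 8 * L) := by
            have : 0 ≤ ((N : ℝ) + 1) * L := by positivity
            nlinarith
    have e5 : (700 : ℝ) ≤ N + 1 := by linarith
    linarith
  obtain ⟨m, j, i, hm, h1, h2, h3, h4, h5⟩ := lower_param hNn hμ1 hNN K hKK hXX b hb
  refine ⟨m, j, i, ?_, h1, h2, h3, h4, h5⟩
  set D : ℝ := L ^ ((3 : ℝ) / 4) with hD
  have hD0 : 0 < D := by positivity
  have hDL : D ≤ L := by
    calc D ≤ L ^ (1 : ℝ) := Real.rpow_le_rpow_of_exponent_le hL1 (by norm_num)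
      _ = L := Real.rpow_one L
  rw [hμ3] at hm
  set y : ℝ := (n : ℝ) / D with hy
  have hy1 : (10 : ℝ) ^ 15 ≤ y := by
    rw [hy, le_div_iff₀ hD0]
    nlinarith
  have e1 : (n : ℝ) / (10 ^ 13 * D) = y / 10 ^ 13 := by
    rw [hy, div_div, mul_comm]
  have e2 : y / (5 * (960000 * 10 ^ 6)) ≤ m + 1 := by
    refine le_trans ?_ hm
    have : y / (5 * (960000 * 10 ^ 6)) = ((n : ℝ) / 5) / (960000 * (10 ^ 6 * D)) := by
      rw [hy]; field_simp
    rw [this]
    exact div_le_div_of_nonneg_right hNr (by positivity)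
  rw [e1]
  have e3 : y / (5 * (960000 * 10 ^ 6)) * (5 * (960000 * 10 ^ 6)) = y := by field_simp
  have e4 : y / 10 ^ 13 * 10 ^ 13 = y := by field_simp
  nlinarith

end Pool.Agent.Lib.HAP
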